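import Pool.Agent.DD7719.NArith
import Pool.Agent.DD7719.NLang
import Pool.Agent.MX.Sizes

/-! The arithmetic of the threshold. -/

set_option autoImplicit false

namespace Pool.Agent.FrUP

open Pool.Agent.DD7719.M Pool.Agent.AllR Pool.Agent.PT

/-- the number of bits of the threshold -/
def pthX (C E L P : ℕ) : ℕ :=
  2 * (pthN C L 0 (pcf L + L) + pth2 L 2 (pcf L + L) + (C + 3) * (P + (pbn L + L + 2) + 1)) +
    16 * (C + 3) ^ 2 + (2 + L) ^ E + 1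

private theorem Arith_sq (z : ℕ) : (z + 1) ^ 2 ≤ 4 * 2 ^ z := by
  rcases Nat.lt_or_ge z 2 with h | h
  · interval_cases z <;> norm_num
  · induction z, h using Nat.le_induction with
    | base => norm_num
    | succ z hz ih =>
      rw [pow_succ 2 z]
      nlinarith [ih, hz]

private theorem Arith_pthN (C L P P2 : ℕ) : pthN C L P P2 = pthN C L 0 P2 + (C + 1) * P := by
  unfold pthN pth2
  ring

private theorem Arith_pth2 (L P P2 : ℕ) : pth2 L (2 * P + 2) P2 = pth2 L 2 P2 + 2 * P := by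
  unfold pth2
  ring

/-- **The arithmetic of the threshold.**

Let `x = Nat.log 2 n ≥ pthX C E L P`, `K = pbn L + L + 2`, `b = x + 1 + pbn L + L`,
`P' = P + Nat.log 2 (b + 1) + 1`. Then `n < 2 ^ (x + 1) ≤ 2 ^ b`, `b + 1 ≤ 2 ^ (Nat.log 2 (b + 1) + 1)`.
With `y = Nat.log 2 x + 1`: `b + 1 = x + K < 2 ^ y * 2 ^ K`, so `Nat.log 2 (b + 1) ≤ y + K`
and `P' ≤ P + K + 1 + y`. From `2 ^ (y - 1) ≤ x` and `y ^ 2 ≤ 4 * 2 ^ (y - 1)` (induction) we get
`y ^ 2 ≤ 4 * x`, so `(2 * (C + 3) * y) ^ 2 ≤ 16 * (C + 3) ^ 2 * x ≤ x ^ 2` and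
`2 * ((C + 3) * y) ≤ x`. As `pthN C L P' P2 = pthN C L 0 P2 + (C + 1) * P'` and
`pth2 L (2 * P' + 2) P2 = pth2 L 2 P2 + 2 * P'`, both are at most
`pthN C L 0 P2 + pth2 L 2 P2 + (C + 3) * P' ≤ x`, and `2 ^ x ≤ n`. -/
theorem arithX (C E L P n : ℕ) (hn : 2 ^ pthX C E L P ≤ n) : ∃ b P' : ℕ,
    (b + 1) * 2 ^ P ≤ 2 ^ P' ∧ n ≤ 2 ^ b ∧ pbn L + L ≤ b ∧
    2 ^ pthN C L P' (pcf L + L) ≤ n ∧ 2 ^ pth2 L (2 * P' + 2) (pcf L + L) ≤ n ∧
    2 ^ ((2 + L) ^ E) < n := by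
  have hn0 : n ≠ 0 := by
    rintro rfl
    have := Nat.two_pow_pos (pthX C E L P)
    omega
  set x := Nat.log 2 n with hx
  have hxn : 2 ^ x ≤ n := Nat.pow_log_le_self 2 hn0
  have hnx : n < 2 ^ (x + 1) := Nat.lt_pow_succ_log_self (by norm_num) n
  have hpx : pthX C E L P ≤ x := (Nat.le_log_iff_pow_le (by norm_num) hn0).2 hn
  set K := pbn L + L + 2 with hK
  set P2 := pcf L + L with hP2
  set T := Nat.log 2 (x + K) with hT
  set y := Nat.log 2 x + 1 with hy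
  have hX : pthX C E L P = 2 * (pthN C L 0 P2 + pth2 L 2 P2 + (C + 3) * (P + K + 1)) +
      16 * (C + 3) ^ 2 + (2 + L) ^ E + 1 := rfl
  have hb1 : x + 1 + pbn L + L + 1 = x + K := by omega
  -- the logarithm of `b + 1`
  have hxy : x + 1 ≤ 2 ^ y := Nat.lt_pow_succ_log_self (by norm_num) x
  have hKK : K + 1 ≤ 2 ^ K := Nat.lt_two_pow_self
  have hTy : T ≤ y + K := by
    have h1 : x + K < 2 ^ (y + K) := by
      rw [pow_add]
      have h2 : (x + 1) * (K + 1) ≤ 2 ^ y * 2 ^ K := Nat.mul_le_mul hxy hKK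
      nlinarith [h2, Nat.zero_le (x * K)]
    exact (Nat.log_lt_of_lt_pow (by omega) h1).le
  have hT1 : x + K < 2 ^ (T + 1) := Nat.lt_pow_succ_log_self (by norm_num) _
  -- `2 (C + 3) y ≤ x`
  have hx0 : x ≠ 0 := by omega
  have hy2 : y ^ 2 ≤ 4 * x :=
    (Arith_sq (Nat.log 2 x)).trans (Nat.mul_le_mul_left _ (Nat.pow_log_le_self 2 hx0))
  have hyx : 2 * ((C + 3) * y) ≤ x := by
    have h1 : (2 * ((C + 3) * y)) ^ 2 ≤ x ^ 2 := by
      have h2 : (2 * ((C + 3) * y)) ^ 2 = 4 * (C + 3) ^ 2 * y ^ 2 := by ring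
      have h3 : 4 * (C + 3) ^ 2 * y ^ 2 ≤ 4 * (C + 3) ^ 2 * (4 * x) := Nat.mul_le_mul_left _ hy2
      have h4 : 4 * (C + 3) ^ 2 * (4 * x) = 16 * (C + 3) ^ 2 * x := by ring
      have h5 : 16 * (C + 3) ^ 2 * x ≤ x * x := Nat.mul_le_mul_right _ (by omega)
      rw [h2, pow_two x]
      omega
    exact (Nat.pow_le_pow_iff_left (by norm_num)).1 h1
  have hP' : (C + 3) * (P + T + 1) ≤ (C + 3) * (P + K + 1) + (C + 3) * y := by
    rw [← Nat.mul_add]
    exact Nat.mul_le_mul_left _ (by omega)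
  have h1P : (C + 1) * (P + T + 1) ≤ (C + 3) * (P + T + 1) := Nat.mul_le_mul_right _ (by omega)
  have h2P : 2 * (P + T + 1) ≤ (C + 3) * (P + T + 1) := Nat.mul_le_mul_right _ (by omega)
  refine ⟨x + 1 + pbn L + L, P + T + 1, ?_, ?_, ?_, ?_, ?_, ?_⟩
  · rw [hb1]
    calc (x + K) * 2 ^ P ≤ 2 ^ (T + 1) * 2 ^ P := Nat.mul_le_mul_right _ hT1.le
      _ = 2 ^ (P + T + 1) := by rw [← pow_add]; congr 1; omega
  · exact hnx.le.trans (Nat.pow_le_pow_right (by norm_num) (by omega))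
  · omega
  · refine le_trans (Nat.pow_le_pow_right (by norm_num) ?_) hxn
    rw [Arith_pthN]
    omega
  · refine le_trans (Nat.pow_le_pow_right (by norm_num) ?_) hxn
    rw [Arith_pth2]
    omega
  · refine lt_of_lt_of_le (Nat.pow_lt_pow_right (by norm_num) ?_) hxn
    omega

/-- `uf_pthN`, `uf_pth2`, `uf_pbn` (and `pcf L = 20 * (L + 1) ^ 4`); see `uf_pthM` in `MX/Lang2.lean`. -/
theorem uf_pthX {Γ : Type} (C E : ℕ) {f g : List Γ → (ℕ → ℕ) → ℕ} (hf : UF f) (hg : UF g) :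
    UF (fun x e => pthX C E (f x e) (g x e)) := by
  have hc : UF (fun x e => pcf (f x e) + f x e) :=
    ((UF.const 20).mul ((hf.add (UF.const 1)).pow 4)).add hf
  have h1 := Pool.Agent.UltPos.uf_pthN C hf (UF.const 0) hc
  have h2 := Pool.Agent.UltPos.uf_pth2 hf (UF.const 2) hc
  have h3 := (hg.add (((Pool.Agent.UltPos.uf_pbn hf).add hf).add (UF.const 2))).add (UF.const 1)
  have h4 := (UF.const (Γ := Γ) (C + 3)).mul h3
  have h5 := (UF.const (Γ := Γ) 2).mul ((h1.add h2).add h4)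
  have h6 := ((h5.add (UF.const (16 * (C + 3) ^ 2))).add
    (((UF.const 2).add hf).pow E)).add (UF.const 1)
  exact h6.congr fun x e => rfl

end Pool.Agent.FrUP
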