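import Pool.Agent.FrEight.Frz
import Pool.Agent.DD7719.TComplete

/-! Explicit positivity at `n` from the value at `n` of the circle sum at the point `n`. 
-/

set_option autoImplicit false

namespace Pool.Agent.FrUP

open Finset Polynomial
open Pool.Agent.DD7719.M Pool.Agent.DD7719.M.GS

variable {k : ℕ}

/-- **Explicit positivity.** As `class_pos` (`DD7719/TComplete.lean`): with `n = j + n0 * m`, split
`v n = ∑ i, c i * C(n, ex i) * l i ^ (n - ex i)` into the terms with `ρ < ‖l i‖`, whose sum is zero by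
`sum_eq_zero_of_gP`, those with `‖l i‖ = ρ`, whose sum is `ρ ^ (n0 * m) * SX l c ex n0 j ρ n m` (`bc_nat`,
`n - ex i = (j - ex i) + n0 * m`, `nz_pow_eq`), and those with `‖l i‖ < ρ`, estimated as in `class_pos`. -/
theorem class_posX (l c : Fin k → ℂ) (ex : Fin k → ℕ) (hex : ∀ i, ex i < k) (n0 j : ℕ)
    (hn0 : 0 < n0) (hj : k ≤ j) (v : ℕ → ℝ)
    (hv : ∀ n, ∑ i, c i * (n.choose (ex i) : ℂ) * l i ^ (n - ex i) = (v n : ℂ))
    (ρ : ℝ) (hρ : 0 < ρ) (hgP : ∀ i, ρ < ‖l i‖ → gP l c ex n0 j (l i ^ n0) = 0)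
    (μ γ Rt : ℝ) (hγ : γ ≤ 1) (hRt : 1 ≤ Rt) (hl : ∀ i, ‖l i‖ ≤ Rt)
    (hgap : ∀ i, ‖l i‖ < ρ → ‖l i‖ ≤ (1 - γ) * ρ) (m : ℕ)
    (hμ : μ ≤ (SX l c ex n0 j ρ ((j + n0 * m : ℕ) : ℝ) m).re)
    (hbig : (∑ i, ‖c i‖) * ((j + n0 * m : ℕ) : ℝ) ^ k * Rt ^ j * (1 - γ) ^ (n0 * m) < μ) :
    0 < v (j + n0 * m) := by
  classical
  set n := j + n0 * m with hn
  have hkn : k ≤ n := by omega
  set low : ℂ := ∑ i, (if ‖l i‖ < ρ then c i * (n.choose (ex i) : ℂ) * l i ^ (n - ex i) else 0)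
    with hlow
  have hvan : ∑ i, (if ρ < ‖l i‖ then
      c i * ((j + n0 * m).choose (ex i) : ℂ) * l i ^ (j + n0 * m - ex i) else 0) = 0 := by
    refine sum_eq_zero_of_gP l c ex n0 j (fun i => by have := hex i; omega)
      (fun i => ρ < ‖l i‖) (fun i i' h hi => ?_) hgP m
    have h1 : ‖l i‖ ^ n0 = ‖l i'‖ ^ n0 := by rw [← norm_pow, ← norm_pow, h]
    have h2 : ‖l i‖ = ‖l i'‖ :=
      (pow_left_inj₀ (norm_nonneg _) (norm_nonneg _) hn0.ne').1 h1
    rw [← h2]
    exact hi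
  have h1 : (v n : ℂ) = (ρ : ℂ) ^ (n0 * m) * SX l c ex n0 j ρ (n : ℝ) m + low := by
    have key : ∑ i, c i * (n.choose (ex i) : ℂ) * l i ^ (n - ex i) =
        (∑ i, (ρ : ℂ) ^ (n0 * m) * (if ‖l i‖ = ρ then
          c i * ((bc (ex i) (n : ℝ) : ℝ) : ℂ) * l i ^ (j - ex i) * (nz (l i) ^ n0) ^ m else 0) +
            low) +
        ∑ i, (if ρ < ‖l i‖ then
          c i * ((j + n0 * m).choose (ex i) : ℂ) * l i ^ (j + n0 * m - ex i) else 0) := by
      rw [hlow, ← Finset.sum_add_distrib, ← Finset.sum_add_distrib]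
      apply Finset.sum_congr rfl
      intro i _
      rcases lt_trichotomy ‖l i‖ ρ with h | h | h
      · rw [if_neg h.ne, if_pos h, if_neg h.not_gt]
        ring
      · have e3 : n - ex i = (j - ex i) + n0 * m := by
          have := hex i
          omega
        rw [if_pos h, if_neg (by rw [h]; exact lt_irrefl _),
          if_neg (by rw [h]; exact lt_irrefl _), bc_nat, e3, pow_add, pow_mul (l i),
          ← nz_pow_eq n0, h]
        push_cast
        rw [mul_pow, ← pow_mul]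
        ring
      · rw [if_neg h.ne', if_neg h.not_gt, if_pos h]
        ring
    rw [← hv n, key, hvan, add_zero, SX, Finset.mul_sum]
  have h2 : ‖low‖ ≤ (∑ i, ‖c i‖) * (n : ℝ) ^ k * Rt ^ j * (1 - γ) ^ (n0 * m) * ρ ^ (n0 * m) := by
    rw [hlow]
    refine (norm_sum_le _ _).trans ?_
    rw [Finset.sum_mul, Finset.sum_mul, Finset.sum_mul, Finset.sum_mul]
    apply Finset.sum_le_sum
    intro i _
    have hnn : (0 : ℝ) ≤ (1 - γ) ^ (n0 * m) := by
      have : 0 ≤ 1 - γ := by linarith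
      positivity
    split_ifs with hi
    · rw [norm_mul, norm_mul, norm_pow, Complex.norm_natCast]
      have e1 : (n.choose (ex i) : ℝ) ≤ (n : ℝ) ^ k := by
        have h3 : n.choose (ex i) ≤ n ^ (ex i) := Nat.choose_le_pow n (ex i)
        have h4 : n ^ (ex i) ≤ n ^ k := by
          rcases Nat.eq_zero_or_pos n with h0 | h0
          · have : k = 0 := by omega
            have := hex i
            omega
          · exact Nat.pow_le_pow_right h0 (hex i).le
        exact_mod_cast h3.trans h4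
      have e2 : ‖l i‖ ^ (n - ex i) ≤ Rt ^ j * ((1 - γ) ^ (n0 * m) * ρ ^ (n0 * m)) := by
        have e3 : n - ex i = (j - ex i) + n0 * m := by
          have := hex i
          omega
        rw [e3, pow_add]
        apply mul_le_mul
        · calc ‖l i‖ ^ (j - ex i) ≤ Rt ^ (j - ex i) := pow_le_pow_left₀ (norm_nonneg _) (hl i) _
            _ ≤ Rt ^ j := pow_le_pow_right₀ hRt (Nat.sub_le _ _)
        · rw [← mul_pow]
          exact pow_le_pow_left₀ (norm_nonneg _) (hgap i hi) _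
        · positivity
        · positivity
      calc ‖c i‖ * (n.choose (ex i) : ℝ) * ‖l i‖ ^ (n - ex i)
          ≤ ‖c i‖ * (n : ℝ) ^ k * (Rt ^ j * ((1 - γ) ^ (n0 * m) * ρ ^ (n0 * m))) := by
            apply mul_le_mul _ e2 (by positivity) (by positivity)
            exact mul_le_mul_of_nonneg_left e1 (norm_nonneg _)
        _ = _ := by ring
    · rw [norm_zero]
      positivity
  have h3 : v n = ρ ^ (n0 * m) * (SX l c ex n0 j ρ (n : ℝ) m).re + low.re := by
    have h4 := congrArg Complex.re h1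
    rw [Complex.ofReal_re, Complex.add_re, ← Complex.ofReal_pow, Complex.re_ofReal_mul] at h4
    exact h4
  have h4 : -‖low‖ ≤ low.re := neg_le_of_abs_le (Complex.abs_re_le_norm _)
  have hρn : 0 < ρ ^ (n0 * m) := by positivity
  rw [h3]
  have h5 : ρ ^ (n0 * m) * μ ≤ ρ ^ (n0 * m) * (SX l c ex n0 j ρ (n : ℝ) m).re :=
    mul_le_mul_of_nonneg_left hμ hρn.le
  have h6 := mul_lt_mul_of_pos_left hbig hρn
  nlinarith

end Pool.Agent.FrUP
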