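import Pool.Agent.FrEight.ClsA

/-! The class data of the frozen sequences of an instance beyond a polynomial threshold. -/

set_option autoImplicit false

namespace Pool.Agent.UltPos

open Pool.Agent.PT Pool.Agent.AllR Pool.Agent.DD7719.M Pool.Agent.DD7719 Finset Pool.Agent.FrUP

private lemma Cls_mono {k : ℕ} {l c : Fin k → ℂ} {ex : Fin k → ℕ} {R M M' : ℕ} {ε δ : ℝ}
    {v : ℕ → ℝ} (h : GoodD k l c ex R M ε δ v) (h1 : 1 ≤ M') (h2 : M' ≤ M) (hδ : 0 ≤ δ) :
    GoodD k l c ex R M' ε δ v where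
  hk := h.hk
  hex := h.hex
  hdc := h.hdc
  hR := h.hR
  hM := h1
  hrb := h.hrb
  hε := h.hε
  hδ := by
    refine le_trans ?_ h.hδ
    have h3 : (M' : ℝ) ≤ M := by exact_mod_cast h2
    gcongr
  hv := h.hv

private lemma Cls_above {ρ : ℝ} (z : ℂ) : Above ρ 0 z 0 ↔ ρ < ‖z‖ := by
  unfold Above
  constructor
  · rintro (h | ⟨_, _, h⟩)
    · exact h
    · exact absurd h (lt_irrefl 0)
  · exact Or.inl

section
variable (I : Inst) (L : ℕ) (hkL : I.k ≤ L)
    (hb : ∀ i, (I.aNum i).natAbs ≤ 2 ^ L ∧ I.aDen i ≤ 2 ^ L)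
    (hbu : ∀ i, (I.uNum i).natAbs ≤ 2 ^ L ∧ I.uDen i ≤ 2 ^ L) (aR uR : ℕ → ℝ)
    (ha : ∀ t (h : t < I.k), aR t = (I.a ⟨t, h⟩ : ℝ)) (hu : ∀ t (h : t < I.k), uR t = (I.u ⟨t, h⟩ : ℝ))
    (v : ℕ → ℚ) (hv : I.IsSeq v)

include hkL hb hbu ha hu hv in
/-- **Class data of the frozen sequence at `x`.**

Proof. As `Inst.exists_cls` (`DD7719/NAssemble.lean`), with `class_data0` for the data
`(l, fc l c ex x, 0)` and the sequence `fun n => (fs l c ex x n).re` (real by `fs_real`, see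
`goodD_frz`): get `n0`, the torsion property, and for `j` the data `A, H, D, s, w, τ, y` with `Rep`.

Case `BaseF … 0 0`: its vanishing condition (all `m` by `vanish_gen` for the frozen data, whose
`hdc` is vacuous; `Above 0 0 (l i) 0 ↔ l i ≠ 0`) and `van_of_frozen` (condition `l i ≠ 0`; `hx` there
from the second part of `hE`) give `gP … (l i ^ n0) = 0` for all `i` with `l i ≠ 0`, so by
`fs_zero_of_gP` all frozen sequences vanish on the class of `j`, against
`I.frozenPositive_iff` (take `x = τ`, `n = j + n0 * N`).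

Case of the level `‖l i0‖` (`ex` is `0`): `van_of_frozen` with the condition `‖l i0‖ < ‖l i‖` gives
the condition on `gP` (the vanishing for all `m` is the last clause of the case), `base_unfrz` the base
data for `(l, c, ex)` at level `k - 1`, the first part of `hE` (with `M = 2 ^ pmh L`,
`two_pow_lt_pbm`) and `levF_frz` the nonnegativity, and `zeros_eight_nn` (with `goodD_frz` of
`I.goodD`, `GoodD.mono`) the last clause. -/
theorem Inst.exists_clsX (E : ℕ) (hE : Thr8 E) (hfr : I.FrozenPositive) (h8 : I.EightPerCircle)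
    {l c : ℕ → ℂ} {ex : ℕ → ℕ} (hrd : RootData I.k aR uR l c ex) (x : ℝ)
    (hx : 2 ^ ((2 + L) ^ E) < x) :
    ∃ n0 : ℕ, 0 < n0 ∧ n0 ≤ 2 ^ (1 + 2 * L * L + (pdl L + 3) * L) ∧
      (∀ i i' : Fin I.k, ‖l i‖ = ‖l i'‖ → l i ^ n0 ≠ l i' ^ n0 →
        ∀ n : ℕ, 0 < n → l i ^ n ≠ l i' ^ n) ∧
      ∀ j, I.k ≤ j → j < I.k + n0 → ClsX I.k (fun i => l i) (fun i => c i) (fun i => ex i)
        (2 ^ pmh L) (2 ^ (1 + 2 * L * L + (pdl L + 3) * L)) (2 / ((2 ^ pq L : ℕ) : ℝ))
        (1 / 2 ^ pdl L) n0 j x := by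
  classical
  obtain ⟨e, he0, hele, htor⟩ := torsion_of_roots I.k I.num I.den I.den_pos' (fun i => l i)
    (I.root_eq' aR uR ha hrd)
  have hall := I.all' aR uR ha hu v hv hrd
  have hg := I.goodD L hkL hb aR uR ha hu v hv hrd
  have hgf := Cls_mono (M' := 2 ^ pmh L) (goodD_frz _ _ _ _ _ _ _ _ hg x) Nat.one_le_two_pow
    (Nat.pow_le_pow_right (by norm_num) (by unfold pbm; omega)) (by positivity)
  obtain ⟨n0, hn0, hn0Nb, hen0, hdata⟩ := class_data0 (k := I.k) (fun i => l i)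
      (fc (fun i : Fin I.k => l i) (fun i => c i) (fun i => ex i) x)
      (fun _ => 0) (2 ^ pr L)
      (2 ^ pq L) (2 ^ pmh L) (2 ^ (pdl L + 3)) e (2 ^ (1 + 2 * L * L + (pdl L + 3) * L)) I.kpos
      (fun _ => I.kpos) Nat.one_le_two_pow
      (le_trans (by
        have : 2 * I.k * 2 ^ pr L ≤ 8 * I.k * 2 ^ pr L := by
          gcongr
          norm_num
        exact this) (pQ_le hkL)) (pMH_le hkL) (1 / 2 ^ pdl L) (by positivity) (pd2 hkL) (pd4 hkL)
      (pd3 hkL) (by positivity) (pd5 L) he0 (pNb_le hkL hele) (I.relBound' L hkL hb aR uR ha hrd)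
      _ hgf.hv
  refine ⟨n0, hn0, hn0Nb, ?_, fun j hj hj' => ?_⟩
  · intro i i' hii hne n hn heq
    have hi' : l i' ≠ 0 := by
      intro h0
      rw [h0, norm_zero, norm_eq_zero] at hii
      apply hne
      rw [hii, h0]
    have hi : l i ≠ 0 := by
      intro h0
      rw [h0, norm_zero] at hii
      exact hi' (norm_eq_zero.mp hii.symm)
    have h1 := htor i i' hi hi' ⟨n, hn, by rw [div_pow, heq, div_self (pow_ne_zero _ hi')]⟩
    apply hne
    obtain ⟨r, hr⟩ := hen0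
    rw [div_pow, div_eq_one_iff_eq (pow_ne_zero _ hi')] at h1
    rw [hr, pow_mul, pow_mul, h1]
  obtain ⟨A, H, D, s, w, τ, y, hrep, hcase⟩ := hdata j hj hj'
  have hexk : ∀ i : Fin I.k, ex i < I.k := fun i => hrd.1 i i.2
  have hexj : ∀ i : Fin I.k, ex i ≤ j := fun i => ((hexk i).le.trans hj)
  obtain ⟨hnn, hroot⟩ := hE I L hkL hb hbu aR uR ha hu v hv hfr h8 l c ex hrd n0 j hn0 hj x hx
  rcases hcase with hb0 | ⟨i0, hbase, hi0, hne, hvan⟩
  · exfalso
    obtain ⟨-, -, -, -, -, -, -, -, -, -, -, -, -, -, -, hvan0⟩ := hb0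
    have h1 : ∀ m, ∑ i : Fin I.k, (if l i ≠ 0 then
        fc (fun i : Fin I.k => l i) (fun i => c i) (fun i => ex i) x i *
          l i ^ (j + n0 * m) else 0) = 0 := by
      intro m
      have h2 := vanish_gen (fun i : Fin I.k => l i)
        (fc (fun i : Fin I.k => l i) (fun i => c i) (fun i => ex i) x) (fun _ => 0)
        (fun i e he => absurd he (Nat.not_lt_zero e)) (fun i => Above 0 0 (l i) 0) j n0 hvan0 m
      refine Eq.trans (Finset.sum_congr rfl fun i _ => ?_) h2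
      have h3 : Above 0 0 (l i) 0 ↔ l i ≠ 0 := by rw [Cls_above, norm_pos_iff]
      by_cases h4 : l i ≠ 0
      · rw [if_pos h4, if_pos (h3.mpr h4)]
        simp
      · rw [if_neg h4, if_neg (fun h => h4 (h3.mp h))]
    have hg0 := van_of_frozen (fun i : Fin I.k => l i) (fun i => c i) (fun i => ex i) n0 j hexj x
      hroot (fun i => l i ≠ 0) (by
        intro i i' h h'
        rw [← norm_ne_zero_iff] at h' ⊢
        rwa [← GS.norm_eq_of_pow_eq hn0 h]) (fun i h => h) h1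
    obtain ⟨τ', hτ'⟩ := (I.frozenPositive_iff v hv _ _ _ hexk hall).1 hfr
    obtain ⟨N, hN⟩ := hτ' τ' le_rfl
    have h3 := hN (j + n0 * N) (by
      have : N ≤ n0 * N := Nat.le_mul_of_pos_left N hn0
      omega)
    rw [fs_zero_of_gP _ _ _ n0 j hn0 hexj hg0] at h3
    simp at h3
  · have hρ : 0 < ‖l i0‖ := norm_pos_iff.mpr hi0
    have hg0 := van_of_frozen (fun i : Fin I.k => l i) (fun i => c i) (fun i => ex i) n0 j hexj x
      hroot (fun i => ‖l i0‖ < ‖l i‖) (by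
        intro i i' h h'
        rwa [← GS.norm_eq_of_pow_eq hn0 h]) (fun i h => norm_pos_iff.mp (hρ.trans h)) (by
        intro m
        refine Eq.trans (Finset.sum_congr rfl fun i _ => ?_) (hvan m)
        have h3 : Above ‖l i0‖ 0 (l i) 0 ↔ ‖l i0‖ < ‖l i‖ := Cls_above _
        by_cases h4 : ‖l i0‖ < ‖l i‖
        · rw [if_pos h4, if_pos (h3.mpr h4)]
          simp
        · rw [if_neg h4, if_neg (fun h => h4 (h3.mp h))])
    have hb' := base_unfrz (fun i : Fin I.k => l i) (fun i => c i) (fun i => ex i) I.kpos hexk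
      _ _ _ _ n0 j A H D s w τ ‖l i0‖ x hbase hg0
    have hnonneg : ∀ z : Fin I.k → ℂ, (∀ t, ‖z t‖ = 1) →
        0 ≤ (LevF (fun i : Fin I.k => l i)
          (fc (fun i : Fin I.k => l i) (fun i => c i) (fun i => ex i) x) (fun _ => 0) A s j 0
          ‖l i0‖ z).re := by
      intro z hz
      rw [levF_frz _ _ _ A s j hexj _ hρ x z]
      exact hnn ‖l i0‖ hρ hg0 (2 ^ pmh L) _ A H D s w τ (I.k - 1) Nat.one_le_two_pow
        (two_pow_lt_pbm L).le hb' z hz
    obtain ⟨z', hz', hz0⟩ := hne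
    refine ⟨A, H, D, s, w, τ, y, i0, hrep, hbase, hi0, hg0, ⟨z', hz', hz0⟩, hnonneg, ?_⟩
    exact zeros_eight_nn _ _ _ (2 ^ pr L) (2 ^ pmh L) _ _ _ _ hgf
      (I.exists_conj aR uR ha hrd) (I.ncard_le_eight aR uR ha h8 hrd) n0 j A H D s w τ _ hbase hρ
      z' hz' hz0 hnonneg

end

end Pool.Agent.UltPos
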