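import Pool.Agent.FrozenUP.Lang
import Pool.Agent.DD7719.NPos
import Pool.Agent.MX.Coset
import Pool.Agent.MX.Sizes

/-! Definitions: the level function at a point, certificates for its values along fibres, the
polynomials of a circle. -/

set_option autoImplicit false

namespace Pool.Agent.FrUP

open Finset Polynomial
open Pool.Agent.DD7719.M Pool.Agent.DD7719.M.GS

/-- the level function at the point `x`, `ℕ`-indexed -/
noncomputable def LX (k s : ℕ) (l c z : ℕ → ℂ) (ex : ℕ → ℕ) (A : ℕ → ℕ → ℤ) (j : ℕ) (ρ x : ℝ) : ℝ :=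
  ∑ d ∈ range k, bc d x * (Lev k s d l c z ex A j ρ).re

/-- The last clause for the values of the level function at the point `α 6` along a fibre; the
fibre condition is void when the two pinned indices are equal. -/
def QRX (k : ℕ) (α : ℕ → ℝ) : QT := fun l c ex n0 j A s d ρ z z' _ _ =>
  0 < ρ ∧ d + 1 = k ∧ LX k s l c z' ex A j ρ (α 6) ≠ 0 ∧ Sorted k l ∧
    ((n0 : ℝ) = α 4 ∧ (j : ℝ) = α 5) ∧ α 0 * LX k s l c z ex A j ρ (α 6) ≤ 1 ∧
    ∃ i, i < k ∧ ∃ i', i' < k ∧ (((i : ℝ) = α 2 ∧ (i' : ℝ) = α 3) ∧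
      (i = i' ∨ (WtN k s A z i / WtN k s A z i').re = α 1))

/-- seven real numbers as a sequence -/
def v7 (t y p0 p1 p2 p3 p4 : ℝ) (v : ℕ) : ℝ :=
  match v with
  | 0 => t
  | 1 => y
  | 2 => p0
  | 3 => p1
  | 4 => p2
  | 5 => p3
  | 6 => p4
  | _ => 0

variable {k : ℕ}

open scoped Classical in
/-- the sum over the circle of radius `ρ` at the point `x` -/
noncomputable def SX (l c : Fin k → ℂ) (ex : Fin k → ℕ) (n0 j : ℕ) (ρ x : ℝ) (m : ℕ) : ℂ :=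
  ∑ i, (if ‖l i‖ = ρ then c i * ((bc (ex i) x : ℝ) : ℂ) * l i ^ (j - ex i) * (nz (l i) ^ n0) ^ m
    else 0)

/-- representatives of the distinct numbers `l i` on the circle of radius `ρ` -/
structure Reps (l : Fin k → ℂ) (ρ : ℝ) {p : ℕ} (r : Fin p → Fin k) : Prop where
  inj : ∀ a b, l (r a) = l (r b) → a = b
  nrm : ∀ a, ‖l (r a)‖ = ρ
  sur : ∀ i, ‖l i‖ = ρ → ∃ a, l (r a) = l i

open scoped Classical in
/-- the coefficients of the polynomial of the root `z` -/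
noncomputable def pc (l c : Fin k → ℂ) (ex : Fin k → ℕ) (z : ℂ) (e : ℕ) : ℂ :=
  ∑ i with l i = z, c i * z ^ (k - ex i) * (bcP (ex i)).coeff e

/-- the exponent of the bounds for the coefficients `pc` -/
def pcx (L : ℕ) : ℕ := pcf L + 6 * (L + 1) ^ 4

/-- The data of a class for the sequence frozen at `x`. -/
def ClsX (k : ℕ) (l c : Fin k → ℂ) (ex : Fin k → ℕ) (M Nb : ℕ) (ε δ : ℝ) (n0 j : ℕ) (x : ℝ) :
    Prop :=
  ∃ (A H : Fin k → Fin k → ℤ) (D : ℤ) (s : ℕ) (w : Fin k → Fin k → ℝ)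
    (τ : Fin k → ℝ) (y : Fin k → ℝ) (i0 : Fin k), Rep l n0 A s y ∧
    BaseF k l (fc l c ex x) (fun _ => 0) M Nb ε δ n0 j A H D s w τ ‖l i0‖ 0 ∧ l i0 ≠ 0 ∧
    (∀ i, ‖l i0‖ < ‖l i‖ → gP l c ex n0 j (l i ^ n0) = 0) ∧
    (∃ z' : Fin k → ℂ, (∀ t, ‖z' t‖ = 1) ∧
      (LevF l (fc l c ex x) (fun _ => 0) A s j 0 ‖l i0‖ z').re ≠ 0) ∧
    (∀ z : Fin k → ℂ, (∀ t, ‖z t‖ = 1) →
      0 ≤ (LevF l (fc l c ex x) (fun _ => 0) A s j 0 ‖l i0‖ z).re) ∧
    ((∀ z : Fin k → ℂ, (∀ t, ‖z t‖ = 1) →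
      0 < (LevF l (fc l c ex x) (fun _ => 0) A s j 0 ‖l i0‖ z).re) ∨
      ∃ i i', ‖l i‖ = ‖l i'‖ ∧ l i ^ n0 ≠ l i' ^ n0 ∧
        ((fun z : Fin k → ℂ => (l i / l i') ^ j * (Wt A s z i / Wt A s z i')) ''
        {z | (∀ t, ‖z t‖ = 1) ∧
          (LevF l (fc l c ex x) (fun _ => 0) A s j 0 ‖l i0‖ z).re = 0}).Finite)

end Pool.Agent.FrUP

namespace Pool.Agent.UltPos

open Pool.Agent.PT Pool.Agent.AllR Pool.Agent.DD7719.M Pool.Agent.DD7719 Finset Pool.Agent.FrUP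

/-- the values of the level functions at a point along the fibres -/
def Inst.RRX (I : Inst) (L : ℕ) (aR uR : ℕ → ℝ) (α : ℕ → ℝ) : Prop :=
  ∃ (l c : ℕ → ℂ) (ex : ℕ → ℕ), RootData I.k aR uR l c ex ∧
    CertQN I.k l c ex (pbm L) (pbn L) (2 / ((2 ^ pq L : ℕ) : ℝ)) (1 / 2 ^ pdl L) (QRX I.k α)

end Pool.Agent.UltPos
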