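import Pool.Agent.MX.Fld
import Pool.Agent.MX.CoefR
import Pool.Agent.MX.Margin
import Pool.Agent.FrEight.Defs

/-! The field of a circle, Liouville's inequality, the bounds for the polynomials of a circle. -/

set_option autoImplicit false

namespace Pool.Agent.FrUP

open Finset Complex
open Pool.Agent.DD7719 Pool.Agent.DD7719.M Pool.Agent.DD7719.M.GS Pool.Agent.MX

private lemma fa_ratP (P : Polynomial ℤ) (hP : P ≠ 0) (z : ℂ) (hz : Polynomial.aeval z P = 0)
    (n : ℕ) (hn : P.natDegree ≤ n) :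
    ∃ Q : Polynomial ℚ, Q ≠ 0 ∧ Polynomial.aeval z Q = 0 ∧ Q.natDegree ≤ n := by
  refine ⟨P.map (algebraMap ℤ ℚ), ?_, ?_, ?_⟩
  · rw [Ne, Polynomial.map_eq_zero_iff (algebraMap ℤ ℚ).injective_int]
    exact hP
  · rw [Polynomial.aeval_map_algebraMap]
    exact hz
  · exact Polynomial.natDegree_map_le.trans hn

private lemma fa_root (k : ℕ) (num : ℕ → ℤ) (den : ℕ → ℕ) (hden : ∀ t, t < k → 0 < den t) (z : ℂ)
    (hz : z ^ k = ∑ t ∈ range k, ((num t : ℂ) / (den t : ℂ)) * z ^ (k - 1 - t)) :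
    ∃ P : Polynomial ℤ, P ≠ 0 ∧ Polynomial.aeval z P = 0 ∧
      Polynomial.aeval ((starRingEnd ℂ) z) P = 0 ∧ P.natDegree ≤ k := by
  refine ⟨ipoly k num den, ipoly_ne_zero k num den hden, ipoly_aeval k num den hden z hz,
    ipoly_aeval k num den hden _ ?_, ipoly_natDegree k num den⟩
  have h := congrArg (starRingEnd ℂ) hz
  rw [map_pow, map_sum] at h
  rw [h]
  refine sum_congr rfl fun t _ => ?_
  rw [map_mul, map_pow, map_div₀, map_natCast, map_intCast]

private lemma fa_norm (k : ℕ) (z : ℂ) (P : Polynomial ℤ) (hP : P ≠ 0)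
    (h1 : Polynomial.aeval z P = 0) (h2 : Polynomial.aeval ((starRingEnd ℂ) z) P = 0)
    (hk : P.natDegree ≤ k) (ρ : ℝ) (hρ : ‖z‖ = ρ) :
    ∃ Q : Polynomial ℤ, Q ≠ 0 ∧ Polynomial.aeval (ρ : ℂ) Q = 0 ∧ Q.natDegree ≤ 2 * k * k := by
  have hfin : ∃ H : ℕ, ∀ i, (P.coeff i).natAbs ≤ H :=
    ⟨Pool.Agent.RElim.pn Int.natAbs P, fun i => coeff_le_pn P i⟩
  obtain ⟨H, hH⟩ := hfin
  obtain ⟨g, hg0, hg1, hg2, _⟩ := exists_prod_poly P P hP hP z _ h1 h2 H hH hH
  refine ⟨Polynomial.expand ℤ 2 g, (Polynomial.expand_ne_zero (by norm_num)).mpr hg0, ?_, ?_⟩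
  · rw [Polynomial.expand_aeval]
    have h3 : (ρ : ℂ) ^ 2 = z * (starRingEnd ℂ) z := by
      rw [← hρ, Complex.mul_conj']
    rw [h3]
    exact hg1
  · rw [Polynomial.natDegree_expand]
    have h3 : P.natDegree * P.natDegree ≤ k * k := Nat.mul_le_mul hk hk
    nlinarith

/-- The field generated by the roots of a circle, their conjugates, `ρ` and `I`: a public copy of
`mg_field` of `MX/Margin.lean` (copy also its private lemmas `mg_ratP`, `mg_root`, `mg_norm`). -/
theorem circle_field (k p : ℕ) (num : ℕ → ℤ) (den : ℕ → ℕ) (hden : ∀ t, t < k → 0 < den t)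
    (l : Fin p → ℂ) (hl : ∀ a, l a ^ k = ∑ t ∈ range k, ((num t : ℂ) / (den t : ℂ)) * l a ^ (k - 1 - t))
    (ρ : ℝ) (hρ : ∀ a, ‖l a‖ = ρ) (hp : 0 < p) :
    ∃ F : IntermediateField ℚ ℂ, FiniteDimensional ℚ F ∧
      Module.finrank ℚ F ≤ (2 * k * k + 2) ^ (2 * p + 2) ∧
      (∀ z ∈ F, (starRingEnd ℂ) z ∈ F) ∧ I ∈ F ∧ (ρ : ℂ) ∈ F ∧ ∀ a, l a ∈ F := by
  classical
  set S : Finset ℂ := univ.image l ∪ (univ.image fun a => (starRingEnd ℂ) (l a)) ∪ {(ρ : ℂ), I}
    with hS
  have hSc : S.card ≤ 2 * p + 2 := by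
    have h1 : (univ.image l).card ≤ p := by
      have := Finset.card_image_le (s := (univ : Finset (Fin p))) (f := l)
      rwa [Finset.card_univ, Fintype.card_fin] at this
    have h2 : (univ.image fun a => (starRingEnd ℂ) (l a)).card ≤ p := by
      have := Finset.card_image_le (s := (univ : Finset (Fin p))) (f := fun a => (starRingEnd ℂ) (l a))
      rwa [Finset.card_univ, Fintype.card_fin] at this
    have h3 : ({(ρ : ℂ), I} : Finset ℂ).card ≤ 2 := Finset.card_le_two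
    have h4 := Finset.card_union_le (univ.image l ∪ (univ.image fun a => (starRingEnd ℂ) (l a)))
      ({(ρ : ℂ), I} : Finset ℂ)
    have h5 := Finset.card_union_le (univ.image l) (univ.image fun a => (starRingEnd ℂ) (l a))
    rw [hS]
    omega
  have hmem : ∀ z ∈ S, (∃ a, z = l a) ∨ (∃ a, z = (starRingEnd ℂ) (l a)) ∨ z = (ρ : ℂ) ∨ z = I := by
    intro z hz
    rw [hS, mem_union, mem_union, mem_image, mem_image, mem_insert, mem_singleton] at hz
    rcases hz with (⟨a, _, h⟩ | ⟨a, _, h⟩) | h | h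
    · exact Or.inl ⟨a, h.symm⟩
    · exact Or.inr (Or.inl ⟨a, h.symm⟩)
    · exact Or.inr (Or.inr (Or.inl h))
    · exact Or.inr (Or.inr (Or.inr h))
  have hl1 : ∀ a, l a ∈ S := fun a => by
    rw [hS, mem_union, mem_union, mem_image]
    exact Or.inl (Or.inl ⟨a, mem_univ _, rfl⟩)
  have hl2 : ∀ a, (starRingEnd ℂ) (l a) ∈ S := fun a => by
    rw [hS, mem_union, mem_union, mem_image, mem_image]
    exact Or.inl (Or.inr ⟨a, mem_univ _, rfl⟩)
  have hρS : (ρ : ℂ) ∈ S := by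
    rw [hS, mem_union, mem_insert]
    exact Or.inr (Or.inl rfl)
  have hIS : I ∈ S := by
    rw [hS, mem_union, mem_insert, mem_singleton]
    exact Or.inr (Or.inr rfl)
  have hdeg : ∀ z ∈ S, ∃ P : Polynomial ℚ, P ≠ 0 ∧ Polynomial.aeval z P = 0 ∧
      P.natDegree ≤ 2 * k * k + 2 := by
    intro z hz
    have hkk : k ≤ 2 * k * k + 2 := by
      rcases Nat.eq_zero_or_pos k with h | h
      · omega
      · nlinarith
    rcases hmem z hz with ⟨a, rfl⟩ | ⟨a, rfl⟩ | rfl | rfl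
    · obtain ⟨P, h1, h2, _, h4⟩ := fa_root k num den hden (l a) (hl a)
      exact fa_ratP P h1 _ h2 _ (h4.trans hkk)
    · obtain ⟨P, h1, _, h3, h4⟩ := fa_root k num den hden (l a) (hl a)
      exact fa_ratP P h1 _ h3 _ (h4.trans hkk)
    · obtain ⟨P, h1, h2, h3, h4⟩ := fa_root k num den hden (l ⟨0, hp⟩) (hl ⟨0, hp⟩)
      obtain ⟨Q, h5, h6, h7⟩ := fa_norm k (l ⟨0, hp⟩) P h1 h2 h3 h4 ρ (hρ _)
      exact fa_ratP Q h5 _ h6 _ (by omega)
    · refine ⟨Polynomial.X ^ 2 + 1, ?_, ?_, ?_⟩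
      · intro h
        have := congrArg (Polynomial.eval 0) h
        simp at this
      · simp
      · have : (Polynomial.X ^ 2 + 1 : Polynomial ℚ).natDegree ≤ 2 := by compute_degree
        omega
  obtain ⟨hfd, hfr⟩ := finrank_adjoin_le S (fun _ => 2 * k * k + 2) hdeg
  refine ⟨IntermediateField.adjoin ℚ (S : Set ℂ), hfd, ?_, ?_, ?_, ?_, ?_⟩
  · refine hfr.trans ?_
    rw [prod_const]
    exact Nat.pow_le_pow_right (by omega) hSc
  · refine conj_mem_adjoin _ ?_
    intro z hz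
    rcases hmem z (by exact_mod_cast hz) with ⟨a, rfl⟩ | ⟨a, rfl⟩ | rfl | rfl
    · exact IntermediateField.subset_adjoin _ _ (by exact_mod_cast hl2 a)
    · rw [Complex.conj_conj]
      exact IntermediateField.subset_adjoin _ _ (by exact_mod_cast hl1 a)
    · rw [Complex.conj_ofReal]
      exact IntermediateField.subset_adjoin _ _ (by exact_mod_cast hρS)
    · rw [Complex.conj_I]
      exact neg_mem (IntermediateField.subset_adjoin _ _ (by exact_mod_cast hIS))
  · exact IntermediateField.subset_adjoin _ _ (by exact_mod_cast hIS)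
  · exact IntermediateField.subset_adjoin _ _ (by exact_mod_cast hρS)
  · exact fun a => IntermediateField.subset_adjoin _ _ (by exact_mod_cast hl1 a)

/-- **Liouville's inequality.** The norm over `ℚ` of the nonzero algebraic integer `D0 * z` is a
nonzero integer and the product of its images under the `finrank` embeddings
(`Algebra.norm_eq_prod_embeddings`, see `MX.one_le_mul_NR`); all factors are at most `2 ^ (2 * Hc)`, the
factor of the inclusion is `D0 * ‖z‖ ≤ 2 ^ Hc * ‖z‖`. -/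
theorem liouville (F : IntermediateField ℚ ℂ) [FiniteDimensional ℚ F] (Dg Hc D0 : ℕ)
    (hDg : Module.finrank ℚ F ≤ Dg) (hD0 : 0 < D0) (hD0' : D0 ≤ 2 ^ Hc) (z : F) (hz : z ≠ 0)
    (hI : IsIntegral ℤ ((D0 : ℂ) * (z : ℂ))) (hb : ∀ φ : F →ₐ[ℚ] ℂ, ‖φ z‖ ≤ 2 ^ Hc) :
    1 ≤ 2 ^ (2 * Hc * Dg) * ‖(z : ℂ)‖ := by
  classical
  obtain ⟨y, hy⟩ : ∃ y : F, y = (D0 : F) * z := ⟨_, rfl⟩
  have hyv : F.val y = (D0 : ℂ) * (z : ℂ) := by
    rw [hy, map_mul, map_natCast]
    rfl
  have hD0F : (D0 : F) ≠ 0 := by exact_mod_cast hD0.ne'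
  have hy0 : y ≠ 0 := by
    rw [hy]
    exact mul_ne_zero hD0F hz
  have hint : IsIntegral ℤ y := by
    have h1 : IsIntegral ℤ (F.val y) := by
      rw [hyv]
      exact hI
    exact (isIntegral_algHom_iff (F.val.restrictScalars ℤ) F.val.injective).1 h1
  have hN : IsIntegral ℤ (Algebra.norm ℚ y) := Algebra.isIntegral_norm ℚ hint
  obtain ⟨n, hn⟩ := IsIntegrallyClosed.isIntegral_iff.1 hN
  have hN0 : Algebra.norm ℚ y ≠ 0 := Algebra.norm_ne_zero_iff.2 hy0
  have hn0 : n ≠ 0 := by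
    rintro rfl
    apply hN0
    rw [← hn, map_zero]
  have h1 : (1 : ℝ) ≤ ‖algebraMap ℚ ℂ (Algebra.norm ℚ y)‖ := by
    rw [← hn]
    have : algebraMap ℚ ℂ (algebraMap ℤ ℚ n) = ((n : ℝ) : ℂ) := by simp
    rw [this, Complex.norm_real, Real.norm_eq_abs]
    exact_mod_cast Int.one_le_abs hn0
  rw [Algebra.norm_eq_prod_embeddings ℚ ℂ, norm_prod,
    ← Finset.mul_prod_erase Finset.univ (fun φ : F →ₐ[ℚ] ℂ => ‖φ y‖)
      (Finset.mem_univ F.val)] at h1
  have hD0r : (D0 : ℝ) ≤ 2 ^ Hc := by exact_mod_cast hD0'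
  have hφ : ∀ φ : F →ₐ[ℚ] ℂ, ‖φ y‖ ≤ 2 ^ (2 * Hc) := by
    intro φ
    rw [hy, map_mul, map_natCast, norm_mul, Complex.norm_natCast, two_mul, pow_add]
    exact mul_le_mul hD0r (hb φ) (norm_nonneg _) (by positivity)
  have h2 : ∏ φ ∈ Finset.univ.erase F.val, ‖φ y‖ ≤ 2 ^ (2 * Hc * (Dg - 1)) := by
    calc ∏ φ ∈ Finset.univ.erase F.val, ‖φ y‖
        ≤ ∏ _φ ∈ Finset.univ.erase F.val, (2 : ℝ) ^ (2 * Hc) :=
          Finset.prod_le_prod (fun _ _ => norm_nonneg _) fun φ _ => hφ φ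
      _ = ((2 : ℝ) ^ (2 * Hc)) ^ (Module.finrank ℚ F - 1) := by
          rw [Finset.prod_const, Finset.card_erase_of_mem (Finset.mem_univ _), Finset.card_univ,
            AlgHom.card]
      _ ≤ ((2 : ℝ) ^ (2 * Hc)) ^ (Dg - 1) :=
          pow_le_pow_right₀ (one_le_pow₀ (by norm_num)) (by omega)
      _ = 2 ^ (2 * Hc * (Dg - 1)) := by rw [← pow_mul]
  have hDg1 : 1 ≤ Dg := le_trans (Module.finrank_pos (R := ℚ) (M := F)) hDg
  have h3 : ‖F.val y‖ ≤ 2 ^ Hc * ‖(z : ℂ)‖ := by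
    rw [hyv, norm_mul, Complex.norm_natCast]
    exact mul_le_mul_of_nonneg_right hD0r (norm_nonneg _)
  have hexp : Hc + 2 * Hc * (Dg - 1) ≤ 2 * Hc * Dg := by
    obtain ⟨m, rfl⟩ : ∃ m, Dg = m + 1 := ⟨Dg - 1, by omega⟩
    rw [Nat.add_sub_cancel, Nat.mul_add, Nat.mul_one]
    omega
  calc (1 : ℝ) ≤ ‖F.val y‖ * ∏ φ ∈ Finset.univ.erase F.val, ‖φ y‖ := h1
    _ ≤ 2 ^ Hc * ‖(z : ℂ)‖ * 2 ^ (2 * Hc * (Dg - 1)) :=
        mul_le_mul h3 h2 (Finset.prod_nonneg fun _ _ => norm_nonneg _) (by positivity)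
    _ = 2 ^ (Hc + 2 * Hc * (Dg - 1)) * ‖(z : ℂ)‖ := by
        rw [pow_add]
        ring
    _ ≤ 2 ^ (2 * Hc * Dg) * ‖(z : ℂ)‖ :=
        mul_le_mul_of_nonneg_right (pow_le_pow_right₀ (by norm_num) hexp) (norm_nonneg _)

/-- The coefficients of the binomial polynomials are rational with `e! * coeff` integral and the sum
of their absolute values is at most `1`: `descPochhammer ℂ e = ∏ t < e, (X - t)` is the image of
`descPochhammer ℤ e` (`descPochhammer_map`) and by induction on `e` (`descPochhammer_succ_right`) the sum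
of the absolute values of the coefficients of `descPochhammer ℤ e` is at most `e !`, as that of
`X - e` is `e + 1`. -/
theorem bcP_coeff (e i : ℕ) : ∃ q : ℤ, (bcP e).coeff i = (q : ℂ) / (e.factorial : ℂ) ∧
    (q.natAbs : ℝ) ≤ e.factorial := by
  refine ⟨(descPochhammer ℤ e).coeff i, ?_, ?_⟩
  · have h1 : descPochhammer ℂ e = (descPochhammer ℤ e).map (Int.castRingHom ℂ) :=
      (descPochhammer_map (Int.castRingHom ℂ) e).symm
    rw [bcP, Polynomial.coeff_C_mul, h1, Polynomial.coeff_map, div_eq_inv_mul]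
    rfl
  · have key : ∀ e i : ℕ, ((descPochhammer ℤ e).coeff i).natAbs ≤ e.factorial := by
      intro e
      induction e with
      | zero =>
        intro i
        rw [descPochhammer_zero, Polynomial.coeff_one]
        split_ifs <;> simp
      | succ e ih =>
        intro i
        have h0 : ∀ i, ((descPochhammer ℤ e * ((e : ℕ) : Polynomial ℤ)).coeff i) =
            (descPochhammer ℤ e).coeff i * (e : ℤ) := by
          intro i
          rw [← Polynomial.C_eq_natCast, Polynomial.coeff_mul_C]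
        rw [descPochhammer_succ_right, mul_sub, Polynomial.coeff_sub, h0, Nat.factorial_succ]
        have h2 : ((descPochhammer ℤ e).coeff i * (e : ℤ)).natAbs ≤ e * e.factorial := by
          rw [Int.natAbs_mul, Int.natAbs_natCast, mul_comm]
          exact Nat.mul_le_mul_left _ (ih i)
        have h3 : ((descPochhammer ℤ e * Polynomial.X).coeff i).natAbs ≤ e.factorial := by
          cases i with
          | zero =>
            rw [Polynomial.mul_coeff_zero, Polynomial.coeff_X_zero, mul_zero]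
            simp
          | succ i =>
            rw [Polynomial.coeff_mul_X]
            exact ih i
        refine (Int.natAbs_sub_le _ _).trans ?_
        calc _ ≤ e.factorial + e * e.factorial := add_le_add h3 h2
          _ = (e + 1) * e.factorial := by ring
    exact_mod_cast key e i

end Pool.Agent.FrUP
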