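import Pool.Agent.MX.Fld
import Pool.Agent.MX.CoefR
import Pool.Agent.MX.Margin
import Pool.Agent.FrEight.FieldA

/-! The polynomials of a circle: conjugates. -/

set_option autoImplicit false

namespace Pool.Agent.FrUP

open Finset Complex
open Pool.Agent.DD7719 Pool.Agent.DD7719.M Pool.Agent.DD7719.M.GS Pool.Agent.MX

section
variable (k L : ℕ) (hkL : k ≤ L) (num numu : ℕ → ℤ) (den denu : ℕ → ℕ)
    (hden0 : ∀ t, t < k → 0 < den t) (hdenu0 : ∀ t, t < k → 0 < denu t)
    (hnum : ∀ t, t < k → (num t).natAbs ≤ 2 ^ L) (hden : ∀ t, t < k → den t ≤ 2 ^ L)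
    (hnumu : ∀ t, t < k → (numu t).natAbs ≤ 2 ^ L) (hdenu : ∀ t, t < k → denu t ≤ 2 ^ L)
    (a u : ℕ → ℝ) (ha : ∀ t, t < k → a t = (num t : ℝ) / (den t : ℝ))
    (hu : ∀ t, t < k → u t = (numu t : ℝ) / (denu t : ℝ))
    (l c : ℕ → ℂ) (ex : ℕ → ℕ) (hrd : RootData k a u l c ex)

include hkL hden0 hdenu0 hnum hden hnumu hdenu ha hu hrd in
/-- **The coefficients of a circle in a field containing the root.** `pc (l i) e` is a sum over the
`i'` with `l i' = l i` of `c i' * (l i) ^ (k - ex i') * coeff`; by `coef_field` (`F` contains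
`l i' = l i`; its hypotheses on `a`, `u` as in `level_margin`) `c i' ∈ F` and `φ (c i')` is some
`c i''`, of norm at most `2 ^ pcf L` (`coef_bound`); `φ (l i)` is again a root of the characteristic
equation (apply `φ` to it), so of norm at most `2 ^ (2 * L)` (`root_norm_le`); the coefficients are
rational of absolute value at most `1` (`bcP_coeff`). At most `k` terms:
`k * 2 ^ pcf L * 2 ^ (2 * L * k) ≤ 2 ^ pcx L`. -/
theorem pc_field (i : Fin k) (F : IntermediateField ℚ ℂ) (hF : l i ∈ F) (e : ℕ) :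
    ∃ h : pc (fun i : Fin k => l i) (fun i => c i) (fun i => ex i) (l i) e ∈ F,
      ∀ φ : F →ₐ[ℚ] ℂ, ‖φ ⟨_, h⟩‖ ≤ 2 ^ pcx L := by
  classical
  have haq : ∀ t, t < k → ∃ q : ℚ, a t = q := fun t ht =>
    ⟨(num t : ℚ) / (den t : ℚ), by rw [ha t ht]; push_cast; rfl⟩
  have huq : ∀ t, t < k → ∃ q : ℚ, u t = q := fun t ht =>
    ⟨(numu t : ℚ) / (denu t : ℚ), by rw [hu t ht]; push_cast; rfl⟩
  have hcf : ∀ i' : Fin k, l i' = l i → ∃ h : c i' ∈ F, ∀ φ : F →ₐ[ℚ] ℂ,
      ∃ j, j < k ∧ φ ⟨c i', h⟩ = c j :=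
    fun i' hi' => coef_field k a u haq huq l c ex hrd i' i'.2 F (by rw [hi']; exact hF)
  choose hcm hcφ using hcf
  choose q hq1 hq2 using fun i' : Fin k => bcP_coeff (ex i') e
  obtain ⟨hcb, -⟩ := coef_bound k L hkL num numu den denu hden0 hdenu0 hnum hden
    hnumu hdenu a u ha hu l c ex hrd
  let w : Fin k → F := fun i' => if h : l i' = l i then
    (⟨c i', hcm i' h⟩ : F) * (⟨l i, hF⟩ : F) ^ (k - ex i') *
      ((q i' : F) / ((ex i').factorial : F)) else 0
  have hsum : pc (fun i : Fin k => l i) (fun i => c i) (fun i => ex i) (l i) e =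
      ((∑ i' : Fin k, w i' : F) : ℂ) := by
    unfold pc
    rw [Finset.sum_filter]
    push_cast
    refine Finset.sum_congr rfl fun i' _ => ?_
    by_cases h : l i' = l i
    · rw [if_pos h]
      simp only [w, dif_pos h]
      push_cast
      rw [hq1]
    · rw [if_neg h]
      simp only [w, dif_neg h]
      rfl
  have hmem : pc (fun i : Fin k => l i) (fun i => c i) (fun i => ex i) (l i) e ∈ F := by
    rw [hsum]
    exact (∑ i' : Fin k, w i').2
  refine ⟨hmem, fun φ => ?_⟩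
  have hval : (⟨_, hmem⟩ : F) = ∑ i' : Fin k, w i' := Subtype.ext hsum
  rw [hval, map_sum]
  -- the conjugates of the root
  have hrt : (l i) ^ k = ∑ t ∈ Finset.range k, ((num t : ℂ) / (den t : ℂ)) * (l i) ^ (k - 1 - t) := by
    have h0 := hrd.2.2.1 i i.2 0 (Nat.zero_le _)
    simp only [Nat.choose_zero_right, Nat.cast_one, one_mul, mul_one, Nat.sub_zero] at h0
    rw [h0]
    apply Finset.sum_congr rfl
    intro t ht
    rw [ha t (Finset.mem_range.1 ht)]
    push_cast
    rfl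
  have hrF : (⟨l i, hF⟩ : F) ^ k =
      ∑ t ∈ Finset.range k, ((num t : F) / (den t : F)) * (⟨l i, hF⟩ : F) ^ (k - 1 - t) := by
    apply Subtype.ext
    push_cast
    exact hrt
  have hz : ‖φ ⟨l i, hF⟩‖ ≤ 2 ^ (2 * L) := by
    refine root_norm_le k num den L hkL hden0 hnum _ ?_
    have h1 := congrArg φ hrF
    rw [map_pow, map_sum] at h1
    rw [h1]
    refine Finset.sum_congr rfl fun t _ => ?_
    rw [map_mul, map_div₀, map_pow, map_intCast, map_natCast]
  have hterm : ∀ i' : Fin k, ‖φ (w i')‖ ≤ 2 ^ pcf L * (2 ^ (2 * L)) ^ k := by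
    intro i'
    by_cases h : l i' = l i
    · simp only [w, dif_pos h]
      rw [map_mul, map_mul, map_pow, map_div₀, map_intCast, map_natCast, norm_mul, norm_mul,
        norm_pow]
      obtain ⟨j, hj, hφ⟩ := hcφ i' h φ
      rw [hφ]
      have h1 : ‖φ ⟨l i, hF⟩‖ ^ (k - ex i') ≤ (2 ^ (2 * L)) ^ k := by
        refine (pow_le_pow_left₀ (norm_nonneg _) hz _).trans ?_
        exact pow_le_pow_right₀ (one_le_pow₀ (by norm_num)) (Nat.sub_le _ _)
      have hf : (0 : ℝ) < ((ex i').factorial : ℝ) := by exact_mod_cast Nat.factorial_pos _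
      have h2 : ‖((q i' : ℂ) / ((ex i').factorial : ℂ))‖ ≤ 1 := by
        rw [norm_div, Complex.norm_natCast, div_le_one hf, Complex.norm_intCast]
        have h3 := hq2 i'
        rw [Nat.cast_natAbs] at h3
        push_cast at h3
        exact h3
      calc ‖c j‖ * ‖φ ⟨l i, hF⟩‖ ^ (k - ex i') * ‖((q i' : ℂ) / ((ex i').factorial : ℂ))‖
          ≤ (2 ^ pcf L * (2 ^ (2 * L)) ^ k) * 1 := by
            refine mul_le_mul ?_ h2 (norm_nonneg _) (by positivity)
            exact mul_le_mul (hcb j hj) h1 (by positivity) (by positivity)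
        _ = _ := mul_one _
    · simp only [w, dif_neg h]
      rw [map_zero, norm_zero]
      positivity
  have hk2 : (k : ℝ) ≤ 2 ^ L := by
    have h1 : k ≤ 2 ^ L := hkL.trans Nat.lt_two_pow_self.le
    exact_mod_cast h1
  calc ‖∑ i' : Fin k, φ (w i')‖ ≤ ∑ i' : Fin k, ‖φ (w i')‖ := norm_sum_le _ _
    _ ≤ ∑ _i' : Fin k, 2 ^ pcf L * (2 ^ (2 * L)) ^ k := Finset.sum_le_sum fun i' _ => hterm i'
    _ = (k : ℝ) * (2 ^ pcf L * (2 ^ (2 * L)) ^ k) := by
        rw [Finset.sum_const, Finset.card_univ, Fintype.card_fin, nsmul_eq_mul]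
    _ ≤ 2 ^ L * (2 ^ pcf L * (2 ^ (2 * L)) ^ k) :=
        mul_le_mul_of_nonneg_right hk2 (by positivity)
    _ = 2 ^ (L + (pcf L + 2 * L * k)) := by
        rw [← pow_mul, ← pow_add, ← pow_add]
    _ ≤ 2 ^ pcx L := by
        refine pow_le_pow_right₀ (by norm_num) ?_
        unfold pcx
        have h1 : 2 * L * k ≤ 2 * L * L := Nat.mul_le_mul_left _ hkL
        have h2 : L + 2 * L * L ≤ 6 * (L + 1) ^ 4 := by
          have h3 : (L + 1) ^ 2 ≤ (L + 1) ^ 4 := Nat.pow_le_pow_right (by omega) (by norm_num)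
          nlinarith [h3]
        omega

end

end Pool.Agent.FrUP
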