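import Pool.Agent.FrEight.PcA
import Pool.Agent.FrEight.PcB

/-! The field and the polynomials of a circle. -/
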