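import Pool.Agent.FrEight.Cos
import Pool.Agent.FrEight.Field

/-! A polynomial threshold for the nonnegativity of the level functions of the frozen sequences, and
for the roots of the coefficient polynomials. -/

set_option autoImplicit false

namespace Pool.Agent.FrUP

open Finset Complex Polynomial
open Pool.Agent.DD7719 Pool.Agent.DD7719.M Pool.Agent.DD7719.M.GS Pool.Agent.MX

private lemma rb_exp (s : ℕ) : ∃ E : ℕ, ∀ L : ℕ,
    2 * (pcx L + s) * (2 * L * L + 2) ^ (2 * s + 2) + (pcx L + s) + 1 ≤ (2 + L) ^ E := by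
  refine ⟨(12 + s) + 3 * (2 * s + 2), fun L => ?_⟩
  set N := 2 + L with hN
  have hN2 : 2 ≤ N := by omega
  have hpow : ∀ i j : ℕ, i ≤ j → N ^ i ≤ N ^ j := fun i j h => Nat.pow_le_pow_right (by omega) h
  have h1 : pcx L ≤ N ^ 9 := by
    have h5 : (L + 1) ^ 4 ≤ N ^ 4 := Nat.pow_le_pow_left (by omega) _
    have h6 : 26 ≤ N ^ 5 := by
      calc 26 ≤ 2 ^ 5 := by norm_num
        _ ≤ N ^ 5 := Nat.pow_le_pow_left hN2 _
    calc pcx L = 26 * (L + 1) ^ 4 := by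
          unfold pcx pcf
          ring
      _ ≤ N ^ 5 * N ^ 4 := Nat.mul_le_mul h6 h5
      _ = N ^ 9 := by rw [← pow_add]
  have h2 : s ≤ N ^ s := Nat.lt_two_pow_self.le.trans (Nat.pow_le_pow_left hN2 _)
  have h3 : pcx L + s ≤ N ^ (10 + s) := by
    calc pcx L + s ≤ N ^ (9 + s) + N ^ (9 + s) :=
          add_le_add (h1.trans (hpow _ _ (by omega))) (h2.trans (hpow _ _ (by omega)))
      _ = 2 * N ^ (9 + s) := by ring
      _ ≤ N * N ^ (9 + s) := Nat.mul_le_mul_right _ hN2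
      _ = N ^ (10 + s) := by ring
  have h4 : (2 * L * L + 2) ^ (2 * s + 2) ≤ N ^ (3 * (2 * s + 2)) := by
    have h4 : 2 * L * L + 2 ≤ N ^ 3 := by
      have h5 : 2 * L * L + 2 ≤ 2 * N ^ 2 := by rw [hN]; nlinarith
      calc 2 * L * L + 2 ≤ 2 * N ^ 2 := h5
        _ ≤ N * N ^ 2 := Nat.mul_le_mul_right _ hN2
        _ = N ^ 3 := by ring
    calc (2 * L * L + 2) ^ (2 * s + 2) ≤ (N ^ 3) ^ (2 * s + 2) := Nat.pow_le_pow_left h4 _
      _ = N ^ (3 * (2 * s + 2)) := by rw [← pow_mul]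
  have h5 : 1 ≤ N ^ (10 + s) := Nat.one_le_pow _ _ (by omega)
  have h6 : 1 ≤ N ^ (3 * (2 * s + 2)) := Nat.one_le_pow _ _ (by omega)
  have h7 : 4 ≤ N ^ 2 := by nlinarith
  have h8 : N ^ (10 + s) ≤ N ^ (10 + s) * N ^ (3 * (2 * s + 2)) := Nat.le_mul_of_pos_right _ h6
  have h9 : 1 ≤ N ^ (10 + s) * N ^ (3 * (2 * s + 2)) := h5.trans h8
  calc 2 * (pcx L + s) * (2 * L * L + 2) ^ (2 * s + 2) + (pcx L + s) + 1
      ≤ 2 * N ^ (10 + s) * N ^ (3 * (2 * s + 2)) + N ^ (10 + s) + 1 := by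
        have h10 : 2 * (pcx L + s) * (2 * L * L + 2) ^ (2 * s + 2) ≤
            2 * N ^ (10 + s) * N ^ (3 * (2 * s + 2)) :=
          Nat.mul_le_mul (Nat.mul_le_mul_left _ h3) h4
        omega
    _ ≤ 4 * (N ^ (10 + s) * N ^ (3 * (2 * s + 2))) := by
        rw [mul_assoc]
        omega
    _ ≤ N ^ 2 * (N ^ (10 + s) * N ^ (3 * (2 * s + 2))) := Nat.mul_le_mul_right _ h7
    _ = N ^ (12 + s + 3 * (2 * s + 2)) := by
        rw [← pow_add, ← pow_add]
        congr 1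
        omega

private lemma rb_dg (k L p s : ℕ) (hkL : k ≤ L) (hp : p ≤ s) :
    (2 * k * k + 2) ^ (2 * p + 2) ≤ (2 * L * L + 2) ^ (2 * s + 2) := by
  have h : k * k ≤ L * L := Nat.mul_le_mul hkL hkL
  calc (2 * k * k + 2) ^ (2 * p + 2) ≤ (2 * L * L + 2) ^ (2 * p + 2) := by
        refine Nat.pow_le_pow_left ?_ _
        nlinarith
    _ ≤ (2 * L * L + 2) ^ (2 * s + 2) := Nat.pow_le_pow_right (by omega) (by omega)

open scoped Classical in
private lemma rb_coeff {k p : ℕ} (l c : Fin k → ℂ) (ex : Fin k → ℕ) (hex : ∀ i, ex i < k)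
    (n0 j : ℕ) (hn0 : 0 < n0) (hj : k ≤ j) (ρ : ℝ) (r : Fin p → Fin k) (hr : Reps l ρ r)
    (i : Fin k) (hi : ‖l i‖ = ρ) (e : ℕ) :
    (gP l c ex n0 j (l i ^ n0)).coeff e =
      ∑ b with l (r b) ^ n0 = l i ^ n0, l (r b) ^ (j - k) * pc l c ex (l (r b)) e := by
  have h1 : (gP l c ex n0 j (l i ^ n0)).coeff e =
      ∑ i' with l i' ^ n0 = l i ^ n0, c i' * l i' ^ (j - ex i') * (bcP (ex i')).coeff e := by
    rw [gP, Polynomial.finsetSum_coeff]
    refine Finset.sum_congr rfl fun i' _ => ?_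
    rw [Polynomial.coeff_C_mul]
  rw [h1]
  have h2 : ∀ b : Fin p, l (r b) ^ (j - k) * pc l c ex (l (r b)) e =
      ∑ i' with l i' = l (r b), c i' * l i' ^ (j - ex i') * (bcP (ex i')).coeff e := by
    intro b
    unfold pc
    rw [Finset.mul_sum]
    refine Finset.sum_congr rfl fun i' hi' => ?_
    have h3 : l i' = l (r b) := (Finset.mem_filter.1 hi').2
    have h4 : j - ex i' = (k - ex i') + (j - k) := by
      have := hex i'
      omega
    rw [h3, h4, pow_add]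
    ring
  rw [Finset.sum_congr rfl fun b _ => h2 b]
  rw [Finset.sum_comm' (t' := univ.filter fun i' => l i' ^ n0 = l i ^ n0)
    (s' := fun i' => univ.filter fun b => l (r b) = l i')]
  · refine Finset.sum_congr rfl fun i' hi' => ?_
    have h3 : l i' ^ n0 = l i ^ n0 := (Finset.mem_filter.1 hi').2
    have h4 : ‖l i'‖ = ρ := by rw [← hi]; exact norm_eq_of_pow_eq hn0 h3
    obtain ⟨b, hb⟩ := hr.sur i' h4
    have h5 : (univ.filter fun b => l (r b) = l i') = {b} := by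
      ext b'
      simp only [Finset.mem_filter, Finset.mem_univ, true_and, Finset.mem_singleton]
      constructor
      · intro h
        exact hr.inj _ _ (h.trans hb.symm)
      · rintro rfl
        exact hb
    rw [h5, Finset.sum_singleton]
  · intro b i'
    simp only [Finset.mem_filter, Finset.mem_univ, true_and]
    constructor
    · rintro ⟨h3, h4⟩
      exact ⟨h4.symm, by rw [h4]; exact h3⟩
    · rintro ⟨h3, h4⟩
      exact ⟨by rw [h3]; exact h4, h3.symm⟩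

private lemma rb_root (P : ℂ[X]) (hP : P ≠ 0) (K : ℝ) (hK : 0 ≤ K)
    (h : ∀ e, ‖P.coeff e‖ ≤ K * ‖P.leadingCoeff‖) (x : ℝ) (hx : K + 1 < x) :
    P.eval (x : ℂ) ≠ 0 := by
  intro h0
  have hl : 0 < ‖P.leadingCoeff‖ := norm_pos_iff.2 (Polynomial.leadingCoeff_ne_zero.2 hP)
  have h1 := Polynomial.IsRoot.norm_lt_cauchyBound hP h0
  have h2 : (P.cauchyBound : ℝ) ≤ K + 1 := by
    lift K to NNReal using hK
    have h3 : (Finset.sup (Finset.range P.natDegree) (fun i => ‖P.coeff i‖₊)) ≤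
        K * ‖P.leadingCoeff‖₊ := by
      refine Finset.sup_le fun e _ => ?_
      rw [← NNReal.coe_le_coe]
      push_cast
      exact h e
    have h4 : P.cauchyBound ≤ K + 1 := by
      unfold Polynomial.cauchyBound
      refine add_le_add ?_ le_rfl
      rw [div_le_iff₀ (by rw [← NNReal.coe_pos]; exact_mod_cast hl)]
      exact h3
    have h5 := NNReal.coe_le_coe.2 h4
    exact h5
  have h3 : ‖(x : ℂ)‖ = |x| := Complex.norm_real x
  have h4 : x ≤ ‖(x : ℂ)‖ := by rw [h3]; exact le_abs_self x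
  have h5 : ‖(x : ℂ)‖ < P.cauchyBound := by exact_mod_cast h1
  linarith

/-- **Threshold for the roots of the coefficient polynomials.**

Proof. Put `ρ = ‖l i‖ > 0`, `r`, `p ≤ s`, `F` as in `early` (`p > 0`, as `i` is on the circle).
By `sum_circle`-like grouping (`gP_eval`, `bcP`): with `B0` the set of `b` with
`l (r b) ^ n0 = l i ^ n0`, `b0 ∈ B0` and `ω b = (l (r b) / l (r b0)) ^ (j - k) ∈ F`, a root of unity
(`(l (r b) / l (r b0)) ^ n0 = 1`),
`(gP … (l i ^ n0)).eval y = l (r b0) ^ (j - k) * ∑ e < k, q e * y ^ e`, `q e = ∑ b ∈ B0, pc (l (r b)) e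
* ω b ∈ F`. The polynomial is not zero, so some `q e ≠ 0`; let `d` be the largest such `e`. `D1 * q e`
is integral (`pc_integral`; roots of unity are integral) and `‖φ (q e)‖ ≤ s * 2 ^ pcx L ≤
2 ^ (pcx L + s)` for all `φ` (`pc_field`; `φ (ω b)` is a root of unity), so `liouville` with
`Hc = pcx L + s`, `Dg = (2 * L * L + 2) ^ (2 * s + 2)` gives `1 ≤ 2 ^ (2 * Hc * Dg) * ‖q d‖`. For
`x > 2 ^ (2 * Hc * Dg + Hc + L)` we get `‖∑ e < d, q e * x ^ e‖ ≤ d * 2 ^ Hc * x ^ (d - 1) <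
‖q d‖ * x ^ d` (`x ≥ 1`, `d ≤ L ≤ 2 ^ L`; for `d = 0` the sum is empty), so the value at `x` is not
zero. The exponent is at most `(2 + L) ^ E`. -/
theorem root_bound (s : ℕ) : ∃ E : ℕ, ∀ (k L : ℕ) (_ : k ≤ L) (num numu : ℕ → ℤ)
    (den denu : ℕ → ℕ) (_ : ∀ t, t < k → 0 < den t) (_ : ∀ t, t < k → 0 < denu t)
    (_ : ∀ t, t < k → (num t).natAbs ≤ 2 ^ L) (_ : ∀ t, t < k → den t ≤ 2 ^ L)
    (_ : ∀ t, t < k → (numu t).natAbs ≤ 2 ^ L) (_ : ∀ t, t < k → denu t ≤ 2 ^ L)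
    (a u : ℕ → ℝ) (_ : ∀ t, t < k → a t = (num t : ℝ) / (den t : ℝ))
    (_ : ∀ t, t < k → u t = (numu t : ℝ) / (denu t : ℝ))
    (l c : ℕ → ℂ) (ex : ℕ → ℕ) (_ : RootData k a u l c ex)
    (n0 j : ℕ) (_ : 0 < n0) (_ : k ≤ j) (i : Fin k) (_ : l i ≠ 0)
    (_ : ({z | z ∈ Set.range (fun i : Fin k => l i) ∧ ‖z‖ = ‖l i‖}).ncard ≤ s)
    (_ : gP (fun i : Fin k => l i) (fun i => c i) (fun i => ex i) n0 j (l i ^ n0) ≠ 0)
    (x : ℝ) (_ : 2 ^ ((2 + L) ^ E) < x),
    (gP (fun i : Fin k => l i) (fun i => c i) (fun i => ex i) n0 j (l i ^ n0)).eval (x : ℂ) ≠ 0 := by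
  obtain ⟨E, hE⟩ := rb_exp s
  refine ⟨E, ?_⟩
  intro k L hkL num numu den denu hden0 hdenu0 hnum hden hnumu hdenu a u ha hu l c ex hrd
    n0 j hn0 hkj i hli hcard hP x hx
  classical
  set lF : Fin k → ℂ := fun i : Fin k => l i with hlF
  set ρ : ℝ := ‖l i‖ with hρ
  have hρ0 : 0 < ρ := norm_pos_iff.2 hli
  obtain ⟨p, r, hps, hr⟩ := exists_reps lF ρ s hcard
  obtain ⟨b0, hb0⟩ := hr.sur i rfl
  have hp : 0 < p := lt_of_le_of_lt (Nat.zero_le _) b0.2
  have hex : ∀ i : Fin k, ex i < k := fun i => hrd.1 i i.2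
  have hrt : ∀ i : Fin k, (l i) ^ k =
      ∑ t ∈ Finset.range k, ((num t : ℂ) / (den t : ℂ)) * (l i) ^ (k - 1 - t) := by
    intro i
    have h0 := hrd.2.2.1 i i.2 0 (Nat.zero_le _)
    simp only [Nat.choose_zero_right, Nat.cast_one, one_mul, mul_one, Nat.sub_zero] at h0
    rw [h0]
    apply Finset.sum_congr rfl
    intro t ht
    rw [ha t (Finset.mem_range.1 ht)]
    push_cast
    rfl
  obtain ⟨F, hfd, hfr, -, -, -, hlmem⟩ := circle_field k p num den hden0 (fun b => lF (r b))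
    (fun b => hrt (r b)) ρ (fun b => hr.nrm b) hp
  have := hfd
  -- the coefficients of the circle
  obtain ⟨D1, hD10, hD1, hD1i⟩ := pc_integral k L hkL num numu den denu hden0 hdenu0 hnum hden
    hnumu hdenu a u ha hu l c ex hrd
  have hpcf := fun (b : Fin p) (e : ℕ) => pc_field k L hkL num numu den denu hden0 hdenu0 hnum
    hden hnumu hdenu a u ha hu l c ex hrd (r b) F (hlmem b) e
  choose hpm hpφ using hpcf
  -- the roots of unity
  have hl0 : lF (r b0) ≠ 0 := by rw [hb0]; exact hli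
  set B0 : Finset (Fin p) := Finset.univ.filter fun b => lF (r b) ^ n0 = lF i ^ n0 with hB0
  let ω : Fin p → F := fun b => ((⟨lF (r b), hlmem b⟩ : F) / (⟨lF (r b0), hlmem b0⟩ : F)) ^ (j - k)
  have hωv : ∀ b, ((ω b : F) : ℂ) = (lF (r b) / lF (r b0)) ^ (j - k) := by
    intro b
    simp only [ω]
    push_cast
    rfl
  have hω1 : ∀ b ∈ B0, (ω b : F) ^ n0 = 1 := by
    intro b hb
    have h1 : lF (r b) ^ n0 = lF i ^ n0 := (Finset.mem_filter.1 hb).2
    apply Subtype.ext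
    push_cast
    rw [hωv, ← pow_mul, mul_comm, pow_mul, div_pow, h1, hb0, div_self, one_pow]
    exact pow_ne_zero _ hli
  let qF : ℕ → F := fun e => ∑ b ∈ B0, ω b * (⟨_, hpm b e⟩ : F)
  have hqv : ∀ e, (gP lF (fun i => c i) (fun i => ex i) n0 j (lF i ^ n0)).coeff e =
      lF (r b0) ^ (j - k) * ((qF e : F) : ℂ) := by
    intro e
    rw [rb_coeff lF (fun i => c i) (fun i => ex i) hex n0 j hn0 hkj ρ r hr i rfl e]
    simp only [qF]
    push_cast
    rw [Finset.mul_sum]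
    refine Finset.sum_congr rfl fun b _ => ?_
    rw [hωv, ← mul_assoc, ← mul_pow, mul_div_cancel₀ _ hl0]
  set P := gP lF (fun i => c i) (fun i => ex i) n0 j (lF i ^ n0) with hPdef
  have hP' : P ≠ 0 := hP
  have hnr : ‖lF (r b0) ^ (j - k)‖ = ρ ^ (j - k) := by rw [norm_pow, hr.nrm]
  set Hc := pcx L + s with hHc
  set Dg := (2 * L * L + 2) ^ (2 * s + 2) with hDg
  have hφ : ∀ e, ∀ φ : F →ₐ[ℚ] ℂ, ‖φ (qF e)‖ ≤ 2 ^ Hc := by
    intro e φ
    simp only [qF]
    rw [map_sum]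
    have h1 : ∀ b ∈ B0, ‖φ (ω b * (⟨_, hpm b e⟩ : F))‖ ≤ 2 ^ pcx L := by
      intro b hb
      have h2 : ‖φ (ω b)‖ = 1 := by
        refine Complex.norm_eq_one_of_pow_eq_one (n := n0) ?_ hn0.ne'
        rw [← map_pow, hω1 b hb, map_one]
      rw [map_mul, norm_mul, h2, one_mul]
      exact hpφ b e φ
    calc ‖∑ b ∈ B0, φ (ω b * (⟨_, hpm b e⟩ : F))‖
        ≤ ∑ b ∈ B0, ‖φ (ω b * (⟨_, hpm b e⟩ : F))‖ := norm_sum_le _ _
      _ ≤ ∑ b ∈ B0, (2 : ℝ) ^ pcx L := Finset.sum_le_sum h1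
      _ = (B0.card : ℝ) * 2 ^ pcx L := by rw [Finset.sum_const, nsmul_eq_mul]
      _ ≤ 2 ^ s * 2 ^ pcx L := by
          refine mul_le_mul_of_nonneg_right ?_ (by positivity)
          have h3 : B0.card ≤ 2 ^ s := by
            have h4 : B0.card ≤ p := by
              have := Finset.card_le_univ B0
              rwa [Fintype.card_fin] at this
            exact (h4.trans hps).trans Nat.lt_two_pow_self.le
          exact_mod_cast h3
      _ = 2 ^ Hc := by rw [← pow_add, hHc, add_comm]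
  have hint : ∀ e, IsIntegral ℤ ((D1 : ℂ) * ((qF e : F) : ℂ)) := by
    intro e
    simp only [qF]
    push_cast
    rw [Finset.mul_sum]
    refine IsIntegral.sum _ fun b hb => ?_
    have h1 : (D1 : ℂ) * (((ω b : F) : ℂ) * pc lF (fun i => c i) (fun i => ex i) (lF (r b)) e) =
        ((ω b : F) : ℂ) * ((D1 : ℂ) * pc lF (fun i => c i) (fun i => ex i) (lF (r b)) e) := by
      ring
    have h2 : IsIntegral ℤ ((ω b : F) : ℂ) := by
      refine IsIntegral.of_pow hn0 ?_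
      have h3 : ((ω b : F) : ℂ) ^ n0 = 1 := by
        have h4 := congrArg (fun z : F => (z : ℂ)) (hω1 b hb)
        push_cast at h4
        exact h4
      rw [h3]
      exact isIntegral_one
    have h5 := h2.mul (hD1i (r b) e)
    rw [← h1] at h5
    exact h5
  have hlead : P.leadingCoeff = lF (r b0) ^ (j - k) * ((qF P.natDegree : F) : ℂ) := hqv _
  have hq0 : qF P.natDegree ≠ 0 := by
    intro h
    have h1 := Polynomial.leadingCoeff_ne_zero.2 hP'
    rw [hlead, h] at h1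
    exact h1 (by simp)
  have hliou := liouville F Dg Hc D1 (hfr.trans (rb_dg k L p s hkL hps)) hD10
    (hD1.trans (Nat.pow_le_pow_right (by norm_num) (by omega))) (qF P.natDegree) hq0
    (hint _) (hφ _)
  have hid : ∀ e, ‖((qF e : F) : ℂ)‖ ≤ 2 ^ Hc := fun e => hφ e F.val
  refine rb_root P hP' (2 ^ (2 * Hc * Dg + Hc)) (by positivity) (fun e => ?_) x ?_
  · rw [hlead, hqv e, norm_mul, norm_mul, hnr]
    have h1 : ‖((qF e : F) : ℂ)‖ ≤ 2 ^ (2 * Hc * Dg + Hc) * ‖((qF P.natDegree : F) : ℂ)‖ := by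
      calc ‖((qF e : F) : ℂ)‖ ≤ 2 ^ Hc * 1 := by rw [mul_one]; exact hid e
        _ ≤ 2 ^ Hc * (2 ^ (2 * Hc * Dg) * ‖((qF P.natDegree : F) : ℂ)‖) :=
            mul_le_mul_of_nonneg_left hliou (by positivity)
        _ = _ := by rw [pow_add]; ring
    calc ρ ^ (j - k) * ‖((qF e : F) : ℂ)‖ ≤
        ρ ^ (j - k) * (2 ^ (2 * Hc * Dg + Hc) * ‖((qF P.natDegree : F) : ℂ)‖) :=
          mul_le_mul_of_nonneg_left h1 (by positivity)
      _ = _ := by ring
  · have h1 : (2 : ℝ) ^ (2 * Hc * Dg + Hc) + 1 ≤ 2 ^ ((2 + L) ^ E) := by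
      calc (2 : ℝ) ^ (2 * Hc * Dg + Hc) + 1 ≤
          2 ^ (2 * Hc * Dg + Hc) + 2 ^ (2 * Hc * Dg + Hc) := by
            have : (1 : ℝ) ≤ 2 ^ (2 * Hc * Dg + Hc) := one_le_pow₀ (by norm_num)
            linarith
        _ = 2 ^ (2 * Hc * Dg + Hc + 1) := by rw [pow_succ]; ring
        _ ≤ 2 ^ ((2 + L) ^ E) := pow_le_pow_right₀ (by norm_num) (hE L)
    exact lt_of_le_of_lt h1 hx

end Pool.Agent.FrUP
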