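import Pool.Agent.DD7719.N3Nar

/-! At most eight roots on each circle, nonnegative level functions. -/

set_option autoImplicit false

namespace Pool.Agent.FrUP

open Complex Filter Topology Pool.Agent.DD7719.M Pool.Agent.DD7719.M.GS Pool.Agent.DD7719.M3

variable {k : ℕ}

/-- **Zeros of the level function, at most eight roots on each circle.** The proof of
`M.zeros_eight` (`DD7719/N3Nar.lean`), where positivity of `v` is only used to get `hFnn` (here the
hypothesis `hF`): copy the proof, leaving out `hupos`. -/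
theorem zeros_eight_nn (l c : Fin k → ℂ) (ex : Fin k → ℕ) (R M Nb : ℕ) (ε δ : ℝ) (v : ℕ → ℝ)
    (hg : GoodD k l c ex R M ε δ v)
    (hconj : ∀ i, ∃ i', l i' = (starRingEnd ℂ) (l i))
    (hU : ∀ r : ℝ, ({z | z ∈ Set.range l ∧ ‖z‖ = r}).ncard ≤ 8)
    (n0 j : ℕ) (A H : Fin k → Fin k → ℤ) (D : ℤ) (s : ℕ) (w : Fin k → Fin k → ℝ)
    (τ : Fin k → ℝ) (ρ : ℝ) (hbase : BaseF k l c ex M Nb ε δ n0 j A H D s w τ ρ 0) (hρ : 0 < ρ)
    (z' : Fin k → ℂ) (hz' : ∀ t, ‖z' t‖ = 1) (hne : (LevF l c ex A s j 0 ρ z').re ≠ 0)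
    (hF : ∀ z : Fin k → ℂ, (∀ t, ‖z t‖ = 1) → 0 ≤ (LevF l c ex A s j 0 ρ z).re) :
    (∀ z : Fin k → ℂ, (∀ t, ‖z t‖ = 1) → 0 < (LevF l c ex A s j 0 ρ z).re) ∨
      ∃ i i', ‖l i‖ = ‖l i'‖ ∧ l i ^ n0 ≠ l i' ^ n0 ∧
        ((fun z : Fin k → ℂ => (l i / l i') ^ j * (Wt A s z i / Wt A s z i')) ''
        {z | (∀ t, ‖z t‖ = 1) ∧ (LevF l c ex A s j 0 ρ z).re = 0}).Finite := by
  classical
  obtain ⟨u, -, -, happ⟩ := nar_core l c ex R M Nb ε δ hg.hk hg.hex hg.hdc hg.hR hg.hM hg.hrb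
    hg.hε hg.hδ v hg.hv n0 j A H D s w τ ρ 0 hbase hρ 2 two_pos
  have hFnn : ∀ z : Fin k → ℂ, (∀ t, ‖z t‖ = 1) → 0 ≤ (LevF l c ex A s j 0 ρ z).re := hF
  clear hF
  -- real roots
  have hreal : ∀ i, (l i).im = 0 → ∀ z : Fin k → ℂ, (∀ t, ‖z t‖ = 1) → Wt A s z i = 1 := by
    intro i hi z hz
    refine (eq_of_forall_dist_le fun κ hκ => ?_).symm
    obtain ⟨n, -, -, h1⟩ := happ z hz κ hκ 0
    have h2 := h1 i
    have e1 : nz (l i) ^ (n0 * (2 * n)) = 1 := by
      rw [show n0 * (2 * n) = 2 * (n0 * n) by ring, pow_mul, nz_sq_of_real _ hi, one_pow]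
    rw [e1] at h2
    rw [dist_eq_norm]
    exact h2
  -- conjugate roots
  have hcj : ∀ i i', l i' = (starRingEnd ℂ) (l i) → ∀ z : Fin k → ℂ, (∀ t, ‖z t‖ = 1) →
      Wt A s z i' = (starRingEnd ℂ) (Wt A s z i) := by
    intro i i' hi z hz
    refine eq_of_forall_dist_le fun κ hκ => ?_
    obtain ⟨n, -, -, h1⟩ := happ z hz (κ / 2) (half_pos hκ) 0
    have h2 := h1 i
    have h3 := h1 i'
    rw [hi, nz_conj, ← map_pow] at h3
    have h4 : ‖(starRingEnd ℂ) (nz (l i) ^ (n0 * (2 * n))) - (starRingEnd ℂ) (Wt A s z i)‖ ≤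
        κ / 2 := by
      rw [← map_sub, norm_conj]
      exact h2
    rw [dist_eq_norm]
    have h5 : Wt A s z i' - (starRingEnd ℂ) (Wt A s z i) =
        ((starRingEnd ℂ) (nz (l i) ^ (n0 * (2 * n))) - (starRingEnd ℂ) (Wt A s z i)) -
        ((starRingEnd ℂ) (nz (l i) ^ (n0 * (2 * n))) - Wt A s z i') := by ring
    rw [h5]
    refine (norm_sub_le _ _).trans ?_
    linarith
  -- equal powers
  have heq : ∀ i i', nz (l i) ^ n0 = nz (l i') ^ n0 → ∀ z : Fin k → ℂ, (∀ t, ‖z t‖ = 1) →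
      Wt A s z i = Wt A s z i' := by
    intro i i' hi z hz
    refine eq_of_forall_dist_le fun κ hκ => ?_
    obtain ⟨n, -, -, h1⟩ := happ z hz (κ / 2) (half_pos hκ) 0
    have h2 := h1 i
    have h3 := h1 i'
    rw [pow_mul, ← hi, ← pow_mul] at h3
    rw [dist_eq_norm]
    have h5 : Wt A s z i - Wt A s z i' =
        (nz (l i) ^ (n0 * (2 * n)) - Wt A s z i') - (nz (l i) ^ (n0 * (2 * n)) - Wt A s z i) := by
      ring
    rw [h5]
    refine (norm_sub_le _ _).trans ?_
    linarith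
  -- frequencies
  have hfrq : ∀ (g : Fin k → ℤ), (∀ y, exp ((ph g y : ℂ) * I) = 1) → g = 0 := by
    intro g h
    funext t
    rw [Pi.zero_apply]
    by_contra ht
    have h1 := h (Function.update (fun _ => (0 : ℝ)) t (0 + Real.pi / g t))
    have h2 : ph g (Function.update (fun _ => (0 : ℝ)) t (0 + Real.pi / g t)) = Real.pi := by
      have h3 := ph_update g (fun _ => 0) t (Real.pi / g t)
      rw [h3]
      have h4 : ph g (fun _ => 0) = 0 := by
        unfold ph
        simp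
      have h5 : (g t : ℝ) ≠ 0 := by exact_mod_cast ht
      rw [h4]
      field_simp
      ring
    rw [h2, exp_pi_mul_I] at h1
    norm_num at h1
  have hph_sub : ∀ (g g' : Fin k → ℤ) y, ph (g - g') y = ph g y - ph g' y := by
    intro g g' y
    unfold ph
    rw [← Finset.sum_sub_distrib]
    refine Finset.sum_congr rfl fun t _ => ?_
    rw [Pi.sub_apply]
    push_cast
    ring
  have hfrq2 : ∀ (g g' : Fin k → ℤ), (∀ y, exp ((ph g y : ℂ) * I) = exp ((ph g' y : ℂ) * I)) →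
      g = g' := by
    intro g g' h
    have h1 := hfrq (g - g') (fun y => by
      rw [hph_sub]
      push_cast
      rw [sub_mul, exp_sub, h y, div_self (exp_ne_zero _)])
    rwa [sub_eq_zero] at h1
  have hχ_conj : ∀ i i', l i' = (starRingEnd ℂ) (l i) → frq A s i' = -frq A s i := by
    intro i i' hi
    apply hfrq2
    intro y
    rw [← Wt_tor, hcj i i' hi (tor y) (norm_tor y), Wt_tor, ← exp_conj, ph_neg]
    congr 1
    simp only [map_mul, conj_ofReal, conj_I]
    push_cast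
    ring
  have hχ_eq : ∀ i i', l i = l i' → frq A s i = frq A s i' := by
    intro i i' hi
    apply hfrq2
    intro y
    rw [← Wt_tor, ← Wt_tor]
    exact heq i i' (by rw [hi]) (tor y) (norm_tor y)
  -- the representation
  set F : (Fin k → ℝ) → ℝ := fun y => (LevF l c ex A s j 0 ρ (tor y)).re with hF
  set T0 : Finset (Fin k) := Finset.univ.filter fun i => (‖l i‖ = ρ ∧ ex i = 0) ∧ (l i).im ≠ 0
    with hT0
  have hrepF : ∀ y, F y = (∑ i, (if (‖l i‖ = ρ ∧ ex i = 0) ∧ (l i).im = 0 then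
      (c i * l i ^ (j - 0)).re else 0)) + ∑ i ∈ T0, wre (c i * l i ^ (j - 0)) (ph (frq A s i) y) := by
    intro y
    rw [hT0, Finset.sum_filter, ← Finset.sum_add_distrib]
    simp only [hF]
    unfold LevF
    rw [re_sum]
    refine Finset.sum_congr rfl fun i _ => ?_
    have h1 : (∏ t : Fin k, (if (t : ℕ) < s then tor y t ^ A t i else 1)) = Wt A s (tor y) i := rfl
    rw [h1]
    by_cases h2 : ‖l i‖ = ρ ∧ ex i = 0
    · by_cases h3 : (l i).im = 0
      · rw [if_pos h2, if_pos ⟨h2, h3⟩, if_neg (fun h => h.2 h3), hreal i h3 _ (norm_tor y),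
          mul_one, add_zero]
      · rw [if_pos h2, if_neg (fun h => h3 h.2), if_pos ⟨h2, h3⟩, zero_add, Wt_tor, wre_eq]
    · rw [if_neg h2, if_neg (fun h => h2 h.1), if_neg (fun h => h2 h.1)]
      simp
  have hrep : RepT F (frq A s) T0 := ⟨_, _, hrepF⟩
  have hFne : ∃ y, F y ≠ 0 := by
    obtain ⟨y, hy⟩ := exists_tor z' hz'
    exact ⟨y, by simp only [hF]; rw [hy]; exact hne⟩
  -- the roots on the circle
  set S : Set ℂ := {z | z ∈ Set.range l ∧ ‖z‖ = ρ} with hS
  have hSfin : S.Finite := (Set.finite_range l).subset fun z hz => hz.1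
  have hSconj : ∀ z ∈ S, (starRingEnd ℂ) z ∈ S := by
    rintro _ ⟨⟨i, rfl⟩, hi⟩
    obtain ⟨i', hi'⟩ := hconj i
    exact ⟨⟨i', hi'⟩, by rw [norm_conj]; exact hi⟩
  have hScard := upper_card S hSfin hSconj
  have hS8 : S.ncard ≤ 8 := hU ρ
  set U : Set ℂ := {z | z ∈ S ∧ 0 < z.im} with hUdef
  have hUfin : U.Finite := hSfin.subset fun z hz => hz.1
  set g : Fin k → ℂ := fun i => if 0 < (l i).im then l i else (starRingEnd ℂ) (l i) with hgdef
  have hgU : ∀ i ∈ T0, g i ∈ U := by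
    intro i hi
    rw [hT0, Finset.mem_filter] at hi
    obtain ⟨-, ⟨h3, -⟩, h4⟩ := hi
    simp only [hgdef]
    split_ifs with h5
    · exact ⟨⟨⟨i, rfl⟩, h3⟩, h5⟩
    · obtain ⟨i', hi'⟩ := hconj i
      refine ⟨⟨⟨i', hi'⟩, by rw [norm_conj, h3]⟩, ?_⟩
      rw [conj_im]
      rcases lt_or_gt_of_ne h4 with h6 | h6
      · linarith
      · exact absurd h6 h5
  have hgg : ∀ i i', g i = g i' → frq A s i = frq A s i' ∨ frq A s i = -frq A s i' := by
    intro i i' hgg
    simp only [hgdef] at hgg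
    split_ifs at hgg with h4 h5 h5
    · exact Or.inl (hχ_eq i i' hgg)
    · exact Or.inr (hχ_conj i' i hgg)
    · right
      have h6 := hχ_conj i i' hgg.symm
      rw [h6, neg_neg]
    · left
      refine hχ_eq i i' ?_
      have := congrArg (starRingEnd ℂ) hgg
      simpa using this
  have hcard : ∀ T ⊆ T0, (∀ i ∈ T, frq A s i ≠ 0) → (∀ i ∈ T, ∀ i' ∈ T, i ≠ i' →
      frq A s i ≠ frq A s i' ∧ frq A s i ≠ -frq A s i') → T.card ≤ 3 := by
    intro T hT hχ0 hχ
    have hinj : Set.InjOn g (T : Set (Fin k)) := by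
      intro i hi i' hi' hg'
      by_contra hne'
      obtain ⟨h2, h3⟩ := hχ i hi i' hi' hne'
      rcases hgg i i' hg' with h | h
      · exact h2 h
      · exact h3 h
    have hTc : ∀ U' : Set ℂ, U'.Finite → (∀ i ∈ T, g i ∈ U') → T.card ≤ U'.ncard := by
      intro U' hU' h1
      have h2 := Set.ncard_le_ncard_of_injOn g (s := (T : Set (Fin k))) (t := U')
        (fun i hi => h1 i hi) hinj hU'
      rwa [Set.ncard_coe_finset] at h2
    have hRfin : ({z | z ∈ S ∧ z.im = 0}).Finite := hSfin.subset fun z hz => hz.1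
    rcases Nat.eq_zero_or_pos ({z | z ∈ S ∧ z.im = 0}).ncard with hR | hR
    · -- no real roots on the circle
      rw [Set.ncard_eq_zero hRfin] at hR
      have hC0 : ∑ i, (if (‖l i‖ = ρ ∧ ex i = 0) ∧ (l i).im = 0 then
          (c i * l i ^ (j - 0)).re else 0) = 0 := by
        apply Finset.sum_eq_zero
        intro i _
        rw [if_neg]
        rintro ⟨⟨h1, -⟩, h2⟩
        have h3 : l i ∈ ({z | z ∈ S ∧ z.im = 0} : Set ℂ) := ⟨⟨⟨i, rfl⟩, h1⟩, h2⟩
        rw [hR] at h3
        exact h3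
      obtain ⟨i1, hi1, hχ1⟩ : ∃ i ∈ T0, frq A s i = 0 := by
        by_contra hcon
        push Not at hcon
        obtain ⟨y, hy⟩ := hFne
        apply hy
        refine mean_zeroT F (frq A s) T0 (fun i => c i * l i ^ (j - 0)) (fun y => ?_) hcon
          (fun y => hFnn _ (norm_tor y)) y
        rw [hrepF y, hC0, zero_add]
      have h1 := hTc (U \ {g i1}) (hUfin.sdiff) (fun i hi => by
        refine ⟨hgU i (hT hi), ?_⟩
        rw [Set.mem_singleton_iff]
        intro h2
        rcases hgg i i1 h2 with h | h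
        · exact hχ0 i hi (h.trans hχ1)
        · exact hχ0 i hi (by rw [h, hχ1, neg_zero]))
      have h2 := Set.ncard_sdiff_singleton_add_one (hgU i1 hi1) hUfin
      omega
    · have h1 := hTc U hUfin (fun i hi => hgU i (hT hi))
      omega
  rcases exists_finite_frq F (frq A s) T0 hrep (fun y => hFnn _ (norm_tor y)) hFne hcard with
    h1 | ⟨i, hi, hχi, hfin⟩
  · left
    intro z hz
    obtain ⟨y, hy⟩ := exists_tor z hz
    rw [← hy]
    exact h1 y
  · right
    obtain ⟨i', hi'⟩ := hconj i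
    refine ⟨i, i', by rw [hi', norm_conj], ?_, ?_⟩
    · intro h2
      have h3 : nz (l i) ^ n0 = nz (l i') ^ n0 := by
        have hi0 : l i ≠ 0 := by
          intro h0
          rw [hT0, Finset.mem_filter] at hi
          apply hi.2.2
          rw [h0, zero_im]
        have hi0' : l i' ≠ 0 := by
          rw [hi']
          simpa using hi0
        unfold nz
        rw [if_neg hi0, if_neg hi0', div_pow, div_pow, h2, hi', norm_conj]
      apply hχi
      have h4 := hχ_conj i i' hi'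
      have h5 : frq A s i = frq A s i' := hfrq2 _ _ fun y => by
        rw [← Wt_tor, ← Wt_tor]
        exact heq i i' h3 _ (norm_tor y)
      rw [h4] at h5
      funext t
      have h6 := congrFun h5 t
      rw [Pi.neg_apply] at h6
      rw [Pi.zero_apply]
      omega
    · refine (hfin.image (fun w => (l i / l i') ^ j * w ^ 2)).subset ?_
      rintro _ ⟨z, ⟨hz, h0⟩, rfl⟩
      obtain ⟨y, rfl⟩ := exists_tor z hz
      refine ⟨exp ((ph (frq A s i) y : ℂ) * I), ⟨y, h0, rfl⟩, ?_⟩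
      simp only
      rw [hcj i i' hi' _ hz, ← Wt_tor]
      congr 1
      have h2 : Wt A s (tor y) i * (starRingEnd ℂ) (Wt A s (tor y) i) = 1 := by
        rw [mul_conj, normSq_eq_norm_sq, norm_Wt A s _ hz]
        simp
      have h3 : (starRingEnd ℂ) (Wt A s (tor y) i) ≠ 0 := right_ne_zero_of_mul_eq_one h2
      rw [eq_div_iff h3, sq, mul_assoc, h2, mul_one]

end Pool.Agent.FrUP
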