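import Pool.Agent.FrEight.Orbit
import Pool.Agent.FrEight.Early
import Pool.Agent.FrEight.Eight

/-! The class data of the frozen sequences of an instance beyond a polynomial threshold. -/

set_option autoImplicit false

namespace Pool.Agent.UltPos

open Pool.Agent.PT Pool.Agent.AllR Pool.Agent.DD7719.M Pool.Agent.DD7719 Finset Pool.Agent.FrUP

/-- `2 ^ ((2 + L) ^ E)` is a threshold for the nonnegativity of the level functions of the frozen
sequences of frozen positive instances with at most eight roots on each circle, and for the roots of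
their coefficient polynomials. -/
def Thr8 (E : ℕ) : Prop := ∀ (I : Inst) (L : ℕ) (_ : I.k ≤ L)
    (_ : ∀ i, (I.aNum i).natAbs ≤ 2 ^ L ∧ I.aDen i ≤ 2 ^ L)
    (_ : ∀ i, (I.uNum i).natAbs ≤ 2 ^ L ∧ I.uDen i ≤ 2 ^ L) (aR uR : ℕ → ℝ)
    (_ : ∀ t (h : t < I.k), aR t = (I.a ⟨t, h⟩ : ℝ))
    (_ : ∀ t (h : t < I.k), uR t = (I.u ⟨t, h⟩ : ℝ))
    (v : ℕ → ℚ) (_ : I.IsSeq v) (_ : I.FrozenPositive) (_ : I.EightPerCircle)
    (l c : ℕ → ℂ) (ex : ℕ → ℕ) (_ : RootData I.k aR uR l c ex) (n0 j : ℕ) (_ : 0 < n0)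
    (_ : I.k ≤ j) (x : ℝ) (_ : 2 ^ ((2 + L) ^ E) < x),
    (∀ ρ : ℝ, 0 < ρ → (∀ i : Fin I.k, ρ < ‖l i‖ →
        gP (fun i : Fin I.k => l i) (fun i => c i) (fun i => ex i) n0 j (l i ^ n0) = 0) →
      ∀ (M Nb : ℕ) (A H : Fin I.k → Fin I.k → ℤ) (D : ℤ) (s : ℕ) (w : Fin I.k → Fin I.k → ℝ)
        (τ : Fin I.k → ℝ) (d : ℕ), 1 ≤ M → M ≤ 2 ^ pbm L →
      BaseF I.k (fun i => l i) (fun i => c i) (fun i => ex i) M Nb (2 / ((2 ^ pq L : ℕ) : ℝ))
        (1 / 2 ^ pdl L) n0 j A H D s w τ ρ d →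
      ∀ z : Fin I.k → ℂ, (∀ t, ‖z t‖ = 1) →
        0 ≤ (LevX (fun i : Fin I.k => l i) (fun i => c i) (fun i => ex i) A s j ρ x z).re) ∧
    ∀ i : Fin I.k, (gP (fun i : Fin I.k => l i) (fun i => c i) (fun i => ex i) n0 j
        (l i ^ n0)).eval (x : ℂ) = 0 →
      gP (fun i : Fin I.k => l i) (fun i => c i) (fun i => ex i) n0 j (l i ^ n0) = 0

section
variable (I : Inst) (L : ℕ) (hkL : I.k ≤ L)
    (hb : ∀ i, (I.aNum i).natAbs ≤ 2 ^ L ∧ I.aDen i ≤ 2 ^ L)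
    (hbu : ∀ i, (I.uNum i).natAbs ≤ 2 ^ L ∧ I.uDen i ≤ 2 ^ L) (aR uR : ℕ → ℝ)
    (ha : ∀ t (h : t < I.k), aR t = (I.a ⟨t, h⟩ : ℝ)) (hu : ∀ t (h : t < I.k), uR t = (I.u ⟨t, h⟩ : ℝ))
    (v : ℕ → ℚ) (hv : I.IsSeq v)

include ha in
/-- As `hU` in `Inst.nar_of_eight` (`DD7719/N3Inst.lean`), with `hrange` there. -/
theorem Inst.ncard_le_eight (h8 : I.EightPerCircle) {l c : ℕ → ℂ} {ex : ℕ → ℕ}
    (hrd : RootData I.k aR uR l c ex) (r : ℝ) :
    ({z | z ∈ Set.range (fun i : Fin I.k => l i) ∧ ‖z‖ = r}).ncard ≤ 8 := by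
  have hrange : Set.range (fun i : Fin I.k => l i) = I.rootSet := by
    ext z
    constructor
    · rintro ⟨i, rfl⟩
      exact I.root_mem aR uR ha hrd i
    · intro hz
      obtain ⟨i, hi⟩ := I.root_surj aR uR ha hrd z hz
      exact ⟨i, hi⟩
  rw [hrange]
  have h4 := h8 r
  have h5 : ({z | z ∈ I.rootSet ∧ ‖z‖ = r}).Finite := by
    rw [← hrange]
    exact (Set.finite_range _).subset fun z hz => hz.1
  rw [← h5.cast_ncard_eq] at h4
  exact_mod_cast h4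

include ha in
/-- As `hconj` in `Inst.nar_of_eight`: `Inst.root_surj`, `Inst.conj_mem`, `Inst.root_mem`. -/
theorem Inst.exists_conj {l c : ℕ → ℂ} {ex : ℕ → ℕ} (hrd : RootData I.k aR uR l c ex)
    (i : Fin I.k) : ∃ i' : Fin I.k, l i' = (starRingEnd ℂ) (l i) := by
  apply I.root_surj aR uR ha hrd
  have hz := I.root_mem aR uR ha hrd i
  rw [I.mem_rootSet_iff aR ha] at hz ⊢
  have h1 := congrArg (starRingEnd ℂ) hz
  rw [map_pow, map_sum] at h1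
  rw [h1]
  apply Finset.sum_congr rfl
  intro t _
  rw [map_mul, map_pow, Complex.conj_ofReal]

include hkL hb hbu ha hu in
/-- `k * 2 ^ pcf L ≤ 2 ^ 2 ^ (pcf L + L)`, from `coef_bound` (hypotheses as in `exists_thr8`). -/
theorem Inst.sum_coef_le {l c : ℕ → ℂ} {ex : ℕ → ℕ} (hrd : RootData I.k aR uR l c ex) :
    ∑ i : Fin I.k, ‖c i‖ ≤ 2 ^ 2 ^ (pcf L + L) := by
  have hnumu : ∀ t, t < I.k → ((if h : t < I.k then I.uNum ⟨t, h⟩ else 0 : ℤ)).natAbs ≤ 2 ^ L := by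
    intro t ht
    simp only [ht, dif_pos]
    exact (hbu _).1
  have hdenu : ∀ t, t < I.k → (if h : t < I.k then I.uDen ⟨t, h⟩ else 1 : ℕ) ≤ 2 ^ L := by
    intro t ht
    simp only [ht, dif_pos]
    exact (hbu _).2
  have hdenu0 : ∀ t, t < I.k → 0 < (if h : t < I.k then I.uDen ⟨t, h⟩ else 1 : ℕ) := by
    intro t ht
    simp only [ht, dif_pos]
    exact I.uDen_pos _
  obtain ⟨h1, -⟩ := Pool.Agent.MX.coef_bound I.k L hkL I.num
    (fun t => if h : t < I.k then I.uNum ⟨t, h⟩ else 0) I.den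
    (fun t => if h : t < I.k then I.uDen ⟨t, h⟩ else 1) I.den_pos' hdenu0
    (I.num_le' L hb) (I.den_le' L hb) hnumu hdenu aR uR
    (by
      intro t ht
      rw [ha t ht]
      simp only [Inst.num, Inst.den, ht, dif_pos, Inst.a]
      push_cast
      rfl)
    (by
      intro t ht
      rw [hu t ht]
      simp only [ht, dif_pos, Inst.u]
      push_cast
      rfl) l c ex hrd
  have hk2 : (I.k : ℝ) ≤ 2 ^ L := by
    have h2 : I.k ≤ 2 ^ L := hkL.trans Nat.lt_two_pow_self.le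
    exact_mod_cast h2
  calc ∑ i : Fin I.k, ‖c i‖ ≤ ∑ _i : Fin I.k, (2 : ℝ) ^ pcf L :=
        Finset.sum_le_sum fun i _ => h1 i i.2
    _ = (I.k : ℝ) * 2 ^ pcf L := by
        rw [Finset.sum_const, Finset.card_univ, Fintype.card_fin, nsmul_eq_mul]
    _ ≤ 2 ^ L * 2 ^ pcf L := mul_le_mul_of_nonneg_right hk2 (by positivity)
    _ = 2 ^ (pcf L + L) := by rw [pow_add, mul_comm]
    _ ≤ 2 ^ 2 ^ (pcf L + L) :=
        pow_le_pow_right₀ (by norm_num) Nat.lt_two_pow_self.le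

end

end Pool.Agent.UltPos
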