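import Pool.Agent.FrEight.ClsA
import Pool.Agent.MX.Poly2

/-! The thresholds for instances exist. -/

set_option autoImplicit false

namespace Pool.Agent.UltPos

open Pool.Agent.PT Pool.Agent.AllR Pool.Agent.DD7719.M Pool.Agent.DD7719 Finset Pool.Agent.FrUP

/-- **The thresholds exist.** `E = E1 + E2` for the exponents of `early 8` and `root_bound 8`
(`(2 + L) ^ E1 ≤ (2 + L) ^ E`). Hypotheses for the data of an instance: `num = I.num`, `den = I.den`,
and the corresponding functions for the initial values, as in the application of `level_margin` in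
`MX/Poly2.lean` (`Inst.regularWith_of_perCircle` and its auxiliary lemmas); `GoodD` from `I.goodD`
and `GoodD.mono`; `ncard ≤ 8` from `Inst.ncard_le_eight`. The number `X` of `early` is the `τ` of
`I.frozenPositive_iff v hv _ _ _ _ (I.all' aR uR ha hu v hv hrd)`, and its hypothesis is
`orbit_nonneg` (`X ≤ x`). In the second part, `gP = 0` for `l i = 0` (all terms of `gP_eval` vanish as
`j - ex i > 0`, or directly from the definition), otherwise `root_bound` (contraposition). -/
theorem exists_thr8 : ∃ E : ℕ, Thr8 E := by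
  classical
  obtain ⟨E1, hE1⟩ := early 8
  obtain ⟨E2, hE2⟩ := root_bound 8
  refine ⟨E1 + E2, ?_⟩
  intro I L hkL hb hbu aR uR ha hu v hv hfp h8 l c ex hrd n0 j hn0 hj x hx
  have hx1 : (2 : ℝ) ^ ((2 + L) ^ E1) < x := lt_of_le_of_lt
    (pow_le_pow_right₀ (by norm_num) (Nat.pow_le_pow_right (by omega) (by omega))) hx
  have hx2 : (2 : ℝ) ^ ((2 + L) ^ E2) < x := lt_of_le_of_lt
    (pow_le_pow_right₀ (by norm_num) (Nat.pow_le_pow_right (by omega) (by omega))) hx
  have hnumu : ∀ t, t < I.k →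
      ((if h : t < I.k then I.uNum ⟨t, h⟩ else 0 : ℤ)).natAbs ≤ 2 ^ L := by
    intro t ht
    simp only [ht, dif_pos]
    exact (hbu _).1
  have hdenu : ∀ t, t < I.k → (if h : t < I.k then I.uDen ⟨t, h⟩ else 1 : ℕ) ≤ 2 ^ L := by
    intro t ht
    simp only [ht, dif_pos]
    exact (hbu _).2
  have hdenu0 : ∀ t, t < I.k → 0 < (if h : t < I.k then I.uDen ⟨t, h⟩ else 1 : ℕ) := by
    intro t ht
    simp only [ht, dif_pos]
    exact I.uDen_pos _
  have hA : ∀ t, t < I.k → aR t = (I.num t : ℝ) / (I.den t : ℝ) := by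
    intro t ht
    rw [ha t ht]
    simp only [Inst.num, Inst.den, ht, dif_pos, Inst.a]
    push_cast
    rfl
  have hU : ∀ t, t < I.k → uR t = ((if h : t < I.k then I.uNum ⟨t, h⟩ else 0 : ℤ) : ℝ) /
      ((if h : t < I.k then I.uDen ⟨t, h⟩ else 1 : ℕ) : ℝ) := by
    intro t ht
    rw [hu t ht]
    simp only [ht, dif_pos, Inst.u]
    push_cast
    rfl
  have hgood := I.goodD L hkL hb aR uR ha hu v hv hrd
  constructor
  · intro ρ hρ hgP M Nb A H D s w τ d hM1 hM2 hbase z hz
    have hg := hgood.mono (M' := M) hM1 hM2 (by positivity)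
    obtain ⟨X, hX⟩ := (I.frozenPositive_iff v hv (fun i : Fin I.k => l i) (fun i => c i)
      (fun i => ex i) (fun i => hrd.1 i i.2) (I.all' aR uR ha hu v hv hrd)).1 hfp
    exact hE1 I.k L hkL I.num (fun t => if h : t < I.k then I.uNum ⟨t, h⟩ else 0) I.den
      (fun t => if h : t < I.k then I.uDen ⟨t, h⟩ else 1) I.den_pos' hdenu0
      (I.num_le' L hb) (I.den_le' L hb) hnumu hdenu aR uR hA hU l c ex hrd (2 ^ pr L) M Nb
      (2 / ((2 ^ pq L : ℕ) : ℝ)) (1 / 2 ^ pdl L) (fun n => ((v n : ℚ) : ℝ)) hg n0 j hn0 hj ρ hρ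
      (I.ncard_le_eight aR uR ha h8 hrd ρ) (X : ℝ)
      (fun y hy m => orbit_nonneg (fun i : Fin I.k => l i) (fun i => c i) (fun i => ex i)
        hgood.hk (fun i => hrd.1 i i.2) (fun n => ((v n : ℚ) : ℝ))
        (I.all' aR uR ha hu v hv hrd) X hX n0 j hn0 hj ρ hρ hgP y hy m)
      A H D s w τ d hbase x hx1 z hz
  · intro i hev
    by_contra hne
    by_cases hli : l i = 0
    · apply hne
      rw [gP]
      refine Finset.sum_eq_zero fun i' hi' => ?_
      have h1 : l i' ^ n0 = l i ^ n0 := (Finset.mem_filter.1 hi').2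
      rw [hli, zero_pow hn0.ne'] at h1
      have h2 : l i' = 0 := pow_eq_zero_iff hn0.ne' |>.1 h1
      have h3 := hrd.1 i' i'.2
      rw [h2, zero_pow (by omega), mul_zero, Polynomial.C_0, zero_mul]
    · exact hE2 I.k L hkL I.num (fun t => if h : t < I.k then I.uNum ⟨t, h⟩ else 0) I.den
        (fun t => if h : t < I.k then I.uDen ⟨t, h⟩ else 1) I.den_pos' hdenu0
        (I.num_le' L hb) (I.den_le' L hb) hnumu hdenu aR uR hA hU l c ex hrd n0 j hn0 hj i hli
        (I.ncard_le_eight aR uR ha h8 hrd _) hne x hx2 hev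

end Pool.Agent.UltPos
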