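import Pool.Agent.FrEight.Frz
import Pool.Agent.MX.Coset

/-! The circle sums. -/

set_option autoImplicit false

namespace Pool.Agent.FrUP

open Finset Polynomial Filter Topology
open Pool.Agent.DD7719.M Pool.Agent.DD7719.M.GS Pool.Agent.MX

variable {k p : ℕ}

/-- **The circle sum in terms of the polynomials of the distinct roots.** Group the indices `i` with
`‖l i‖ = ρ` by the value `l i = l (r b)` (`Finset.sum_fiberwise`-style, `hr.sur`, `hr.inj`), use
`bc (ex i) x = (bcP (ex i)).eval x = ∑ e < k + 1, coeff e * x ^ e` (`bcP_eval_real`,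
`Polynomial.eval_eq_sum_range'`, degree `ex i < k`) and
`l i ^ (j - ex i) = l i ^ (k - ex i) * l i ^ (j - k)`, `l i ^ (j - k) = ρ ^ (j - k) * bpt`. -/
theorem sum_circle (l c : Fin k → ℂ) (ex : Fin k → ℕ) (hex : ∀ i, ex i < k) (j : ℕ) (hj : k ≤ j)
    (ρ : ℝ) (hρ : 0 < ρ) (r : Fin p → Fin k) (hr : Reps l ρ r) (x : ℝ) (T : Fin k → ℂ)
    (hT : ∀ i i', l i = l i' → T i = T i') :
    (open scoped Classical in ∑ i, (if ‖l i‖ = ρ then
      c i * ((bc (ex i) x : ℝ) : ℂ) * l i ^ (j - ex i) * T i else 0)) =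
    (ρ : ℂ) ^ (j - k) * ∑ b : Fin p, (∑ e ∈ Finset.range (k + 1), pc l c ex (l (r b)) e *
      (x : ℂ) ^ e) * (bpt l ρ (j - k) r b * T (r b)) := by
  classical
  have hρc : (ρ : ℂ) ≠ 0 := by exact_mod_cast hρ.ne'
  have hbc : ∀ i, ((bc (ex i) x : ℝ) : ℂ) =
      ∑ e ∈ Finset.range (k + 1), (bcP (ex i)).coeff e * (x : ℂ) ^ e := by
    intro i
    rw [← bcP_eval_real]
    refine Polynomial.eval_eq_sum_range' ?_ _
    have h1 : (bcP (ex i)).natDegree ≤ ex i := by
      rw [bcP]
      refine (Polynomial.natDegree_C_mul_le _ _).trans ?_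
      rw [descPochhammer_natDegree]
    have := hex i
    omega
  have hsplit : ∀ i, (if ‖l i‖ = ρ then
      c i * ((bc (ex i) x : ℝ) : ℂ) * l i ^ (j - ex i) * T i else 0) =
      ∑ b : Fin p, (if l i = l (r b) then
        c i * ((bc (ex i) x : ℝ) : ℂ) * l i ^ (j - ex i) * T i else 0) := by
    intro i
    by_cases h : ‖l i‖ = ρ
    · obtain ⟨b, hb⟩ := hr.sur i h
      rw [if_pos h, Finset.sum_eq_single b]
      · rw [if_pos hb.symm]
      · intro b' _ hb'
        refine if_neg fun h' => hb' ?_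
        exact hr.inj b' b (by rw [← h', hb])
      · intro h'
        exact absurd (Finset.mem_univ b) h'
    · rw [if_neg h]
      symm
      refine Finset.sum_eq_zero fun b _ => ?_
      refine if_neg fun h' => h ?_
      rw [h', hr.nrm b]
  rw [Finset.sum_congr rfl fun i _ => hsplit i, Finset.sum_comm, Finset.mul_sum]
  refine Finset.sum_congr rfl fun b _ => ?_
  rw [← Finset.sum_filter]
  have hR : (∑ e ∈ Finset.range (k + 1), pc l c ex (l (r b)) e * (x : ℂ) ^ e) =
      ∑ i with l i = l (r b), c i * l (r b) ^ (k - ex i) * ((bc (ex i) x : ℝ) : ℂ) := by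
    unfold pc
    rw [Finset.sum_congr rfl fun e _ => Finset.sum_mul _ _ _, Finset.sum_comm]
    refine Finset.sum_congr rfl fun i _ => ?_
    rw [hbc i, Finset.mul_sum]
    refine Finset.sum_congr rfl fun e _ => ?_
    ring
  rw [hR, Finset.sum_mul, Finset.mul_sum]
  refine Finset.sum_congr rfl fun i hi => ?_
  have hi' : l i = l (r b) := (Finset.mem_filter.mp hi).2
  have h1 : l (r b) ^ (j - ex i) = l (r b) ^ (k - ex i) * l (r b) ^ (j - k) := by
    rw [← pow_add]
    congr 1
    have := hex i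
    omega
  have h2 : l (r b) ^ (j - k) = (ρ : ℂ) ^ (j - k) * bpt l ρ (j - k) r b := by
    rw [bpt, ← mul_pow, mul_div_cancel₀ _ hρc]
  rw [hT i (r b) hi', hi', h1, h2]
  ring

end Pool.Agent.FrUP
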