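import Pool.Agent.FrEight.Frz
import Pool.Agent.MX.Coset

/-! The coset of a circle and the orbit. -/

set_option autoImplicit false

namespace Pool.Agent.FrUP

open Finset Polynomial Filter Topology
open Pool.Agent.DD7719.M Pool.Agent.DD7719.M.GS Pool.Agent.MX

variable {k p : ℕ}

/-- Points of the coset are limits of the orbit: the proof of `MX.coset_limit`, without the
representation by `orb`. -/
theorem coset_limit0 (l : Fin k → ℂ) (n0 : ℕ) (hn0 : 0 < n0) (ρ : ℝ) (hρ : 0 < ρ)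
    (r : Fin p → Fin k) (hr : ∀ a, ‖l (r a)‖ = ρ) (q : ℕ) (x : Fin p → ℂ) (hx : ∀ a, ‖x a‖ = 1)
    (hrel : ∀ g : Fin p → ℤ, Tors (fun a => l (r a)) g →
      ∏ a, x a ^ g a = ∏ a, bpt l ρ q r a ^ g a) (η : ℝ) (hη : 0 < η) :
    ∃ m : ℕ, ∀ a, ‖bpt l ρ q r a * (nz (l (r a)) ^ n0) ^ m - x a‖ < η := by
  have hb : ∀ a, ‖bpt l ρ q r a‖ = 1 := fun a => by
    rw [bpt_eq l ρ hρ q r hr a, norm_pow, norm_nz, one_pow]
  have hb0 : ∀ a, bpt l ρ q r a ≠ 0 := fun a => by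
    rw [← norm_pos_iff, hb a]
    exact one_pos
  obtain ⟨n, _, hn⟩ := Pool.Agent.DD7719.kronecker (fun a => nz (l (r a)))
    (fun a => x a * (bpt l ρ q r a)⁻¹)
    (fun a => norm_nz _)
    (fun a => by rw [norm_mul, norm_inv, hb, hx, inv_one, mul_one])
    (fun g hg => by
      have h1 : ∏ a, (x a * (bpt l ρ q r a)⁻¹) ^ g a =
          (∏ a, x a ^ g a) * (∏ a, bpt l ρ q r a ^ g a)⁻¹ := by
        rw [← Finset.prod_inv_distrib, ← Finset.prod_mul_distrib]
        apply Finset.prod_congr rfl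
        intro a _
        rw [mul_zpow, inv_zpow]
      rw [h1, hrel g hg]
      refine mul_inv_cancel₀ ?_
      exact Finset.prod_ne_zero_iff.mpr fun a _ => zpow_ne_zero _ (hb0 a))
    n0 hn0 0 η hη
  refine ⟨n, fun a => ?_⟩
  have h1 : bpt l ρ q r a * (nz (l (r a)) ^ n0) ^ n - x a =
      bpt l ρ q r a * (nz (l (r a)) ^ (n0 * n) - x a * (bpt l ρ q r a)⁻¹) := by
    rw [← pow_mul, mul_sub, mul_left_comm, mul_inv_cancel₀ (hb0 a), mul_one]
  rw [h1, norm_mul, hb a, one_mul]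
  exact hn a

/-- The characters of equal roots agree on the certified torus: `MX.coset_mem` with `p = 2`, `r =
![i, i']`, `g = ![1, -1]`, `q = 0`, for `ρ = ‖l i‖`: `l i ≠ 0` case; `Tors` with `n = 1`. (`hbase`
is changed to the radius `‖l i‖` only through its torus conditions: `coset_mem` uses the radius of
`hbase` only formally; if this is an obstacle repeat its proof, i.e. `cert_torus_rel`, or use
`cert_limit` as in `heq` of `N3Nar.zeros_eight`, where `l i = 0` is also allowed.) -/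
theorem Wt_eq_of_eq (l c : Fin k → ℂ) (ex : Fin k → ℕ) (R M Nb : ℕ) (ε δ : ℝ) (v : ℕ → ℝ)
    (hg : GoodD k l c ex R M ε δ v)
    (n0 j : ℕ) (A H : Fin k → Fin k → ℤ) (D : ℤ) (s : ℕ) (w : Fin k → Fin k → ℝ)
    (τ : Fin k → ℝ) (ρ : ℝ) (d : ℕ)
    (hbase : BaseF k l c ex M Nb ε δ n0 j A H D s w τ ρ d)
    (z : Fin k → ℂ) (hz : ∀ t, ‖z t‖ = 1) (i i' : Fin k) (h : l i = l i') :
    Wt A s z i = Wt A s z i' := by
  classical
  obtain ⟨_, _, _, _, _, hD, _, hHA, hA, hH, hδ', hw, hwε, _, _, _⟩ := hbase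
  have hWt0 : ∀ t, Wt A s z t ≠ 0 := fun t => by
    rw [← norm_pos_iff, norm_Wt A s z hz]
    exact one_pos
  have h1 := cert_torus_rel l R M n0 hg.hR hg.hM hg.hrb A H D s w τ ε δ hD hHA hA hH hδ' hw
    hwε hg.hε hg.hδ z hz (fun t => ∑ a with (![i, i'] : Fin 2 → Fin k) a = t,
      (![1, -1] : Fin 2 → ℤ) a) (by
      refine ⟨1, one_pos, ?_⟩
      rw [prod_push ![i, i'] ![1, -1] (fun t => nz (l t)) (fun t => nz_ne_zero2 _), pow_one,
        Fin.prod_univ_two]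
      show nz (l i) ^ (1 : ℤ) * nz (l i') ^ (-1 : ℤ) = 1
      rw [h, zpow_one, zpow_neg_one, mul_inv_cancel₀ (nz_ne_zero2 _)])
  have h2 := prod_push ![i, i'] ![1, -1] (fun t => Wt A s z t) hWt0
  have h3 : ∏ a : Fin 2, Wt A s z ((![i, i'] : Fin 2 → Fin k) a) ^
      (![1, -1] : Fin 2 → ℤ) a = 1 := h2.symm.trans h1
  rw [Fin.prod_univ_two] at h3
  have h4 : Wt A s z i ^ (1 : ℤ) * Wt A s z i' ^ (-1 : ℤ) = 1 := h3
  rw [zpow_one, zpow_neg_one] at h4
  exact (mul_inv_eq_one₀ (hWt0 i')).1 h4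

/-- Representatives exist: the finset `univ.image l` filtered by `‖z‖ = ρ` has `ncard` elements;
take an equivalence with `Fin` and choose preimages. -/
theorem exists_reps (l : Fin k → ℂ) (ρ : ℝ) (s : ℕ)
    (hs : ({z | z ∈ Set.range l ∧ ‖z‖ = ρ}).ncard ≤ s) :
    ∃ (p : ℕ) (r : Fin p → Fin k), p ≤ s ∧ Reps l ρ r := by
  classical
  have hfin : ({z | z ∈ Set.range l ∧ ‖z‖ = ρ}).Finite :=
    (Set.finite_range l).subset fun z hz => hz.1
  have hmem : ∀ z, z ∈ hfin.toFinset ↔ z ∈ Set.range l ∧ ‖z‖ = ρ := fun z =>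
    hfin.mem_toFinset
  have hex : ∀ a : Fin hfin.toFinset.card, ∃ i, l i = (hfin.toFinset.equivFin.symm a : ℂ) :=
    fun a => ((hmem _).1 (hfin.toFinset.equivFin.symm a).2).1
  choose r hr using hex
  refine ⟨hfin.toFinset.card, r, ?_, ?_, ?_, ?_⟩
  · rwa [Set.ncard_eq_toFinset_card _ hfin] at hs
  · intro a b hab
    rw [hr a, hr b] at hab
    exact hfin.toFinset.equivFin.symm.injective (Subtype.ext hab)
  · intro a
    rw [hr a]
    exact ((hmem _).1 (hfin.toFinset.equivFin.symm a).2).2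
  · intro i hi
    refine ⟨hfin.toFinset.equivFin ⟨l i, (hmem _).2 ⟨⟨i, rfl⟩, hi⟩⟩, ?_⟩
    rw [hr, Equiv.symm_apply_apply]

end Pool.Agent.FrUP
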