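import Pool.Agent.FrEight.Cos
import Pool.Agent.FrEight.Field
import Pool.Agent.FixRec.ElimSup
import Pool.Agent.FixRec.Bd

/-! A polynomial threshold for the nonnegativity of the level functions of the frozen sequences, and
for the roots of the coefficient polynomials. -/

set_option autoImplicit false

namespace Pool.Agent.FrUP

open Finset Complex Polynomial
open Pool.Agent.DD7719 Pool.Agent.DD7719.M Pool.Agent.DD7719.M.GS Pool.Agent.MX

private lemma EarlyA_exp (s C C' : ℕ) : ∃ E : ℕ, ∀ L k : ℕ, k ≤ L →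
    (2 + (2 + L) ^ C + k + (2 * L * L + 2) ^ (2 * s + 2) + pcx L) ^ C' ≤ (2 + L) ^ E := by
  refine ⟨((C + 3 * (2 * s + 2) + 10) + 3) * C', fun L k hk => ?_⟩
  set N := 2 + L with hN
  have hN2 : 2 ≤ N := by omega
  have hpow : ∀ i j : ℕ, i ≤ j → N ^ i ≤ N ^ j := fun i j h => Nat.pow_le_pow_right (by omega) h
  set K := C + 3 * (2 * s + 2) + 10 with hK
  have h0 : 2 ≤ N ^ K := by
    calc 2 ≤ N := hN2
      _ ≤ N ^ K := Nat.le_self_pow (by omega) N
  have h1 : k ≤ N ^ K := by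
    calc k ≤ N := by omega
      _ ≤ N ^ K := Nat.le_self_pow (by omega) N
  have h2 : N ^ C ≤ N ^ K := hpow _ _ (by omega)
  have h3 : (2 * L * L + 2) ^ (2 * s + 2) ≤ N ^ K := by
    have h4 : 2 * L * L + 2 ≤ N ^ 3 := by
      have h5 : 2 * L * L + 2 ≤ 2 * N ^ 2 := by rw [hN]; nlinarith
      calc 2 * L * L + 2 ≤ 2 * N ^ 2 := h5
        _ ≤ N * N ^ 2 := Nat.mul_le_mul_right _ hN2
        _ = N ^ 3 := by ring
    calc (2 * L * L + 2) ^ (2 * s + 2) ≤ (N ^ 3) ^ (2 * s + 2) := Nat.pow_le_pow_left h4 _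
      _ = N ^ (3 * (2 * s + 2)) := by rw [← pow_mul]
      _ ≤ N ^ K := hpow _ _ (by omega)
  have h4 : pcx L ≤ N ^ K := by
    have h5 : (L + 1) ^ 4 ≤ N ^ 4 := Nat.pow_le_pow_left (by omega) _
    have h6 : 26 ≤ N ^ 5 := by
      calc 26 ≤ 2 ^ 5 := by norm_num
        _ ≤ N ^ 5 := Nat.pow_le_pow_left hN2 _
    calc pcx L = 26 * (L + 1) ^ 4 := by
          unfold pcx pcf
          ring
      _ ≤ N ^ 5 * N ^ 4 := Nat.mul_le_mul h6 h5
      _ = N ^ 9 := by rw [← pow_add]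
      _ ≤ N ^ K := hpow _ _ (by omega)
  have h5 : 2 + N ^ C + k + (2 * L * L + 2) ^ (2 * s + 2) + pcx L ≤ N ^ (K + 3) := by
    have h8 : 8 ≤ N ^ 3 := by
      calc 8 = 2 ^ 3 := by norm_num
        _ ≤ N ^ 3 := Nat.pow_le_pow_left hN2 _
    have h6 : 8 * N ^ K ≤ N ^ 3 * N ^ K := Nat.mul_le_mul_right _ h8
    have h7 : N ^ (K + 3) = N ^ 3 * N ^ K := by rw [pow_add, mul_comm]
    rw [h7]
    omega
  calc (2 + N ^ C + k + (2 * L * L + 2) ^ (2 * s + 2) + pcx L) ^ C'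
      ≤ (N ^ (K + 3)) ^ C' := Nat.pow_le_pow_left h5 _
    _ = N ^ ((K + 3) * C') := by rw [← pow_mul]

private lemma EarlyA_dg (k L p s : ℕ) (hkL : k ≤ L) (hp : p ≤ s) :
    (2 * k * k + 2) ^ (2 * p + 2) ≤ (2 * L * L + 2) ^ (2 * s + 2) := by
  have h : k * k ≤ L * L := Nat.mul_le_mul hkL hkL
  calc (2 * k * k + 2) ^ (2 * p + 2) ≤ (2 * L * L + 2) ^ (2 * p + 2) := by
        refine Nat.pow_le_pow_left ?_ _
        nlinarith
    _ ≤ (2 * L * L + 2) ^ (2 * s + 2) := Nat.pow_le_pow_right (by omega) (by omega)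

/-- **Threshold for the nonnegativity of the level functions.**

Proof (adapt `MX.level_margin`). Let `r : Fin p → Fin k`, `p ≤ s`, be representatives of the distinct
roots on the circle (`exists_reps`; for `p = 0` the function `LevX` is `0`), `F` the field of
`circle_field` for `l (r b)`, `c b e = pc (l (r b)) e ∈ F` with `E = k`
(`pc_field`, `pc_integral`), `S` the torsion relations of the `l (r b)` with entries at most
`(2 + L) ^ C` (`rel_small s`) and `ζ g = ∏ b, (l (r b) / ρ) ^ (j - k)) ^ g b` (root of unity for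
`g ∈ S`), as in `level_margin` with `j - d` replaced by `j - k`.

For `x ≥ X` and `z` in the coset (`‖z b‖ = 1`, `∏ z b ^ g b = ζ g` for `g ∈ S`, hence by
`rel_of_closure` and `rel_small` for all `g` with `Tors`) the real part of
`f(x, z) = ∑ b, (∑ e, c b e * x ^ e) * z b` is nonnegative: by `coset_limit0` with `q = j - k`
points `bpt b * (nz (l (r b)) ^ n0) ^ m` come arbitrarily close to `z`, and at these points
`ρ ^ (j - k) * f = SX l c ex n0 j ρ x m` by `sum_circle` with `T i = (nz (l i) ^ n0) ^ m`, whose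
real part is nonnegative by `hS`. So `FixRec.elim_sup` (with `B = (2 + L) ^ C`,
`Dg = (2 * L * L + 2) ^ (2 * s + 2)`, `Hc = pcx L`) gives `0 ≤ (f(x, z)).re` for all `z` in the coset
and `x > 2 ^ ((2 + B + E + Dg + Hc) ^ C')` (`FixRec.bd_poly s`), and the exponent is at most
`(2 + L) ^ E'` (as `mg_exp`; `E = k ≤ L`). Finally for `z` in the torus of `hbase` the point `bpt b * Wt A s' z (r b)` is in the
coset (`coset_mem`, used with any level of `hbase`: see the remark at `Wt_eq_of_eq`; apply it to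
`hbase'`, the data `hbase` with radius `ρ`: only the torus conditions matter) and `ρ ^ (j - k) * f`
at it is `LevX l c ex A s' j ρ x z` by `sum_circle` with `T = Wt A s' z` (`Wt_eq_of_eq`). -/
theorem early (s : ℕ) : ∃ E : ℕ, ∀ (k L : ℕ) (_ : k ≤ L) (num numu : ℕ → ℤ)
    (den denu : ℕ → ℕ) (_ : ∀ t, t < k → 0 < den t) (_ : ∀ t, t < k → 0 < denu t)
    (_ : ∀ t, t < k → (num t).natAbs ≤ 2 ^ L) (_ : ∀ t, t < k → den t ≤ 2 ^ L)
    (_ : ∀ t, t < k → (numu t).natAbs ≤ 2 ^ L) (_ : ∀ t, t < k → denu t ≤ 2 ^ L)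
    (a u : ℕ → ℝ) (_ : ∀ t, t < k → a t = (num t : ℝ) / (den t : ℝ))
    (_ : ∀ t, t < k → u t = (numu t : ℝ) / (denu t : ℝ))
    (l c : ℕ → ℂ) (ex : ℕ → ℕ) (_ : RootData k a u l c ex)
    (R M Nb : ℕ) (ε δ : ℝ) (v : ℕ → ℝ)
    (_ : GoodD k (fun i => l i) (fun i => c i) (fun i => ex i) R M ε δ v)
    (n0 j : ℕ) (_ : 0 < n0) (_ : k ≤ j) (ρ : ℝ) (_ : 0 < ρ)
    (_ : ({z | z ∈ Set.range (fun i : Fin k => l i) ∧ ‖z‖ = ρ}).ncard ≤ s)
    (X : ℝ) (_ : ∀ x : ℝ, X ≤ x → ∀ m : ℕ,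
      0 ≤ (SX (fun i : Fin k => l i) (fun i => c i) (fun i => ex i) n0 j ρ x m).re)
    (A H : Fin k → Fin k → ℤ) (D : ℤ) (s' : ℕ) (w : Fin k → Fin k → ℝ)
    (τ : Fin k → ℝ) (d : ℕ)
    (_ : BaseF k (fun i => l i) (fun i => c i) (fun i => ex i) M Nb ε δ n0 j A H D s' w τ ρ d)
    (x : ℝ) (_ : 2 ^ ((2 + L) ^ E) < x) (z : Fin k → ℂ) (_ : ∀ t, ‖z t‖ = 1),
    0 ≤ (LevX (fun i : Fin k => l i) (fun i => c i) (fun i => ex i) A s' j ρ x z).re := by
  obtain ⟨C, hC⟩ := rel_small s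
  obtain ⟨C', hC'⟩ := FixRec.bd_poly s
  obtain ⟨E, hE⟩ := EarlyA_exp s C C'
  refine ⟨E, ?_⟩
  intro k L hkL num numu den denu hden0 hdenu0 hnum hden hnumu hdenu a u ha hu l c ex hrd R M Nb ε δ v
    hgd n0 j hn0 hkj ρ hρ hcard X hX A H D s' w τ d hbase x hx z hz
  set lF : Fin k → ℂ := fun i => l i with hlF
  set cF : Fin k → ℂ := fun i => c i with hcF
  set eF : Fin k → ℕ := fun i => ex i with heF
  obtain ⟨p, r, hps, hR⟩ := exists_reps lF ρ s hcard
  have hr : ∀ b, ‖lF (r b)‖ = ρ := hR.nrm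
  have hρ0 : (ρ : ℂ) ≠ 0 := by exact_mod_cast hρ.ne'
  -- the level function
  have hlev : LevX lF cF eF A s' j ρ x z = (ρ : ℂ) ^ (j - k) * ∑ b : Fin p,
      (∑ e ∈ Finset.range (k + 1), pc lF cF eF (lF (r b)) e * (x : ℂ) ^ e) *
        (bpt lF ρ (j - k) r b * Wt A s' z (r b)) := by
    have h1 := sum_circle lF cF eF hgd.hex j hkj ρ hρ r hR x (Wt A s' z)
      (fun i i' h => Wt_eq_of_eq lF cF eF R M Nb ε δ v hgd n0 j A H D s' w τ ρ d hbase z hz i i' h)
    unfold LevX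
    exact h1
  rcases Nat.eq_zero_or_pos p with hp0 | hp0
  · subst hp0
    rw [hlev]
    simp
  -- the roots
  have hrt : ∀ i : Fin k, (l i) ^ k =
      ∑ t ∈ Finset.range k, ((num t : ℂ) / (den t : ℂ)) * (l i) ^ (k - 1 - t) := by
    intro i
    have h0 := hrd.2.2.1 i i.2 0 (Nat.zero_le _)
    simp only [Nat.choose_zero_right, Nat.cast_one, one_mul, mul_one, Nat.sub_zero] at h0
    rw [h0]
    apply Finset.sum_congr rfl
    intro t ht
    rw [ha t (Finset.mem_range.mp ht)]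
    push_cast
    rfl
  obtain ⟨F, hfd, hfr, hconj, hIF, hρF, hlmem⟩ := circle_field k p num den hden0
    (fun b => lF (r b)) (fun b => hrt (r b)) ρ hr hp0
  obtain ⟨D1, hD1, hD1le, hD1i⟩ := pc_integral k L hkL num numu den denu hden0 hdenu0 hnum hden
    hnumu hdenu a u ha hu l c ex hrd
  have hpf : ∀ (b : Fin p) (e : ℕ), ∃ h : pc lF cF eF (lF (r b)) e ∈ F,
      ∀ φ : F →ₐ[ℚ] ℂ, ‖φ ⟨_, h⟩‖ ≤ 2 ^ pcx L := fun b e =>
    pc_field k L hkL num numu den denu hden0 hdenu0 hnum hden hnumu hdenu a u ha hu l c ex hrd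
      (r b) F (hlmem b) e
  choose hpm hpφ using hpf
  have hbu : ∀ b, ‖bpt lF ρ (j - k) r b‖ = 1 := by
    intro b
    unfold bpt
    rw [norm_pow, norm_div, hr b, Complex.norm_real, Real.norm_eq_abs, abs_of_pos hρ,
      div_self hρ.ne', one_pow]
  have hb0 : ∀ b, bpt lF ρ (j - k) r b ≠ 0 := fun b h => by
    have := hbu b
    rw [h, norm_zero] at this
    exact zero_ne_one this
  have hl0 : ∀ b, lF (r b) ≠ 0 := by
    intro b h
    have := hr b
    rw [h, norm_zero] at this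
    exact hρ.ne this
  have hbnz : ∀ b, bpt lF ρ (j - k) r b = nz (lF (r b)) ^ (j - k) := by
    intro b
    unfold bpt nz
    rw [if_neg (hl0 b), hr b]
  set S : Set (Fin p → ℤ) := {h : Fin p → ℤ | (∀ i, |h i| ≤ ((2 + L) ^ C : ℕ)) ∧
    Tors (fun b => lF (r b)) h} with hS
  let ζ : (Fin p → ℤ) → F := fun g =>
    ∏ b, ((⟨lF (r b), hlmem b⟩ / ⟨(ρ : ℂ), hρF⟩ : F) ^ (j - k)) ^ g b
  have hζ : ∀ g, ((ζ g : F) : ℂ) = ∏ b, bpt lF ρ (j - k) r b ^ g b := by
    intro g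
    simp only [ζ, bpt]
    push_cast
    rfl
  -- nonnegativity on the coset for large points
  have hlarge : ∃ X : ℝ, ∀ t : ℝ, X < t → ∀ y : Fin p → ℂ, (∀ i, ‖y i‖ = 1) →
      (∀ g ∈ S, ∏ i, y i ^ g i = (ζ g : ℂ)) →
      0 ≤ (∑ i, (∑ e ∈ Finset.range (k + 1),
        ((⟨pc lF cF eF (lF (r i)) e, hpm i e⟩ : F) : ℂ) * (t : ℂ) ^ e) * y i).re := by
    refine ⟨X, fun t ht y hy hyS => ?_⟩
    have hrely : ∀ g : Fin p → ℤ, Tors (fun b => lF (r b)) g →
        ∏ b, y b ^ g b = ∏ b, bpt lF ρ (j - k) r b ^ g b := by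
      intro g hgt
      have hcl := hC k num den L hkL hden0 hnum hden p hps (fun b => lF (r b))
        (fun b => hrt (r b)) hl0 g hgt
      refine rel_of_closure y _ (fun b h => ?_) hb0 S ?_ g hcl
      · have := hy b
        rw [h, norm_zero] at this
        exact zero_ne_one this
      · intro g' hg'
        rw [hyS g' hg', hζ]
    set P : Fin p → ℂ := fun b => ∑ e ∈ Finset.range (k + 1),
      pc lF cF eF (lF (r b)) e * (t : ℂ) ^ e with hP
    have key : 0 ≤ (∑ b, P b * y b).re := by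
      refine le_of_forall_pos_le_add fun η hη => ?_
      set Cs : ℝ := ∑ b : Fin p, ‖P b‖ + 1 with hCs
      have hCs0 : 0 < Cs := by
        have : 0 ≤ ∑ b : Fin p, ‖P b‖ := sum_nonneg fun _ _ => norm_nonneg _
        linarith
      obtain ⟨m, hm⟩ := coset_limit0 lF n0 hn0 ρ hρ r hr (j - k) y hy hrely (η / Cs)
        (div_pos hη hCs0)
      have h1 := hX t ht.le m
      have h1' : SX lF cF eF n0 j ρ t m = (ρ : ℂ) ^ (j - k) * ∑ b : Fin p, P b *
          (bpt lF ρ (j - k) r b * (nz (lF (r b)) ^ n0) ^ m) :=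
        sum_circle lF cF eF hgd.hex j hkj ρ hρ r hR t (fun i => (nz (lF i) ^ n0) ^ m)
          (fun i i' h => by rw [h])
      have h1'' : 0 ≤ (SX lF cF eF n0 j ρ t m).re := h1
      rw [h1', ← Complex.ofReal_pow, Complex.re_ofReal_mul] at h1''
      have h3 : 0 ≤ (∑ b : Fin p, P b *
          (bpt lF ρ (j - k) r b * (nz (lF (r b)) ^ n0) ^ m)).re :=
        nonneg_of_mul_nonneg_right h1'' (pow_pos hρ _)
      have h4 : (∑ b : Fin p, P b *
          (bpt lF ρ (j - k) r b * (nz (lF (r b)) ^ n0) ^ m)).re -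
          (∑ i, P i * y i).re ≤ η := by
        rw [← Complex.sub_re, ← sum_sub_distrib]
        refine (Complex.re_le_norm _).trans ((norm_sum_le _ _).trans ?_)
        calc ∑ b : Fin p, ‖P b * (bpt lF ρ (j - k) r b * (nz (lF (r b)) ^ n0) ^ m) -
              P b * y b‖ ≤ ∑ b : Fin p, ‖P b‖ * (η / Cs) := by
              refine sum_le_sum fun b _ => ?_
              rw [← mul_sub, norm_mul]
              exact mul_le_mul_of_nonneg_left (hm b).le (norm_nonneg _)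
          _ = (∑ b : Fin p, ‖P b‖) * (η / Cs) := by rw [sum_mul]
          _ ≤ Cs * (η / Cs) := by
              refine mul_le_mul_of_nonneg_right ?_ (div_pos hη hCs0).le
              rw [hCs]
              linarith
          _ = η := mul_div_cancel₀ _ hCs0.ne'
      linarith
    exact key
  have hDg : Module.finrank ℚ F ≤ (2 * L * L + 2) ^ (2 * s + 2) :=
    hfr.trans (EarlyA_dg k L p s hkL hps)
  have hxb : (BdD (4 * (p * (2 + L) ^ C + k + 2)) (2 * p + 2)
      (2 ^ (20 * (p + 1) * ((2 + L) ^ C + 1) + 4 * pcx L + 2 * k)) : ℝ) ^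
        ((2 * L * L + 2) ^ (2 * s + 2)) < x := by
    refine lt_of_le_of_lt ?_ hx
    have h1 := hC' p ((2 + L) ^ C) k ((2 * L * L + 2) ^ (2 * s + 2)) (pcx L) hps
    have h2 := h1.trans (Nat.pow_le_pow_right (by norm_num) (hE L k hkL))
    exact_mod_cast h2
  have hmain := FixRec.elim_sup F hconj hIF p ((2 + L) ^ C) k ((2 * L * L + 2) ^ (2 * s + 2))
    (pcx L) D1 hDg hD1 hD1le (fun b e => ⟨pc lF cF eF (lF (r b)) e, hpm b e⟩)
    (fun b e _ => hD1i (r b) e) (fun b e _ φ => hpφ b e φ) S (fun g hg => hg.1) ζ (by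
      intro g hg
      obtain ⟨n, hn, h⟩ := hg.2
      refine ⟨n, hn, ?_⟩
      apply Subtype.ext
      push_cast
      rw [hζ]
      have h1 : ∏ b, bpt lF ρ (j - k) r b ^ g b = (∏ b, nz (lF (r b)) ^ g b) ^ (j - k) := by
        rw [← prod_pow_zpow]
        exact prod_congr rfl fun b _ => by rw [hbnz b]
      rw [h1, ← pow_mul, mul_comm, pow_mul, h, one_pow]) hlarge x hxb
    (fun b => bpt lF ρ (j - k) r b * Wt A s' z (r b)) (by
      intro b
      rw [norm_mul, hbu b, norm_Wt A s' z hz, one_mul]) (by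
      intro g hg
      rw [hζ]
      exact coset_mem lF cF eF R M Nb ε δ v hgd n0 j A H D s' w τ ρ d hbase hρ r hr z hz g hg.2
        (j - k))
  rw [hlev, ← Complex.ofReal_pow, Complex.re_ofReal_mul]
  exact mul_nonneg (pow_nonneg hρ.le _) hmain

end Pool.Agent.FrUP
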