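import Pool.Agent.FrozenUP.Example
import Pool.Agent.UltPos.Positive

/-! The critical frozen positive example is positive. -/

set_option autoImplicit false

namespace Pool.Agent.UltPos

theorem exI_positive : exI.Positive := by
  intro v hv n
  obtain ⟨v', -, hu⟩ := exI.exists_unique_seq
  rw [hu v hv, ← hu vq isSeq_vq]
  have h1 : (0 : ℝ) ≤ 2 - ((tq n : ℚ) : ℝ) := by
    rw [← norm_sub_sq]
    positivity
  have h2 : (0 : ℚ) ≤ 2 - tq n := by exact_mod_cast h1
  unfold vq
  have h3 : (0 : ℚ) ≤ n * (2 - tq n) := mul_nonneg (Nat.cast_nonneg n) h2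
  linarith

end Pool.Agent.UltPos
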