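import Pool.Agent.FrEight.Defs

/-! The frozen data, second part. -/

set_option autoImplicit false

namespace Pool.Agent.FrUP

open Finset Polynomial
open Pool.Agent.DD7719.M Pool.Agent.DD7719.M.GS Pool.Agent.UltPos

variable {k : ℕ}

/-- As `hbase` in `frozen_complete`: `sum_eq_zero_of_gP` and `above_iff`. -/
theorem base_unfrz (l c : Fin k → ℂ) (ex : Fin k → ℕ) (hk : 0 < k) (hex : ∀ i, ex i < k)
    (M Nb : ℕ) (ε δ : ℝ) (n0 j : ℕ)
    (A H : Fin k → Fin k → ℤ) (D : ℤ) (s : ℕ) (w : Fin k → Fin k → ℝ) (τ : Fin k → ℝ) (ρ x : ℝ)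
    (h : BaseF k l (fc l c ex x) (fun _ => 0) M Nb ε δ n0 j A H D s w τ ρ 0)
    (hgP : ∀ i, ρ < ‖l i‖ → gP l c ex n0 j (l i ^ n0) = 0) :
    BaseF k l c ex M Nb ε δ n0 j A H D s w τ ρ (k - 1) := by
  classical
  obtain ⟨h1, h2, h3, h4, h5, h6, h7, h8, h9, h10, h11, h12, h13, hρ, _, _⟩ := h
  refine ⟨h1, h2, h3, h4, h5, h6, h7, h8, h9, h10, h11, h12, h13, hρ, by omega, ?_⟩
  intro m _
  have hexj : ∀ i, ex i ≤ j := fun i => (hex i).le.trans h3
  have e1 := sum_eq_zero_of_gP l c ex n0 j hexj (fun i => ρ < ‖l i‖) (by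
    intro i i' h h'
    rwa [← norm_eq_of_pow_eq h1 h]) hgP m
  refine Eq.trans (Finset.sum_congr rfl fun i _ => ?_) e1
  have e2 : Above ρ (k - 1) (l i) (ex i) ↔ ρ < ‖l i‖ := above_iff (by omega) (hex i)
  simp only [e2]

/-- `fc_mul_pow` with exponent `n` and `bc_nat`; for `l i = 0` both terms vanish as
`ex i < k ≤ n`. -/
theorem fs_diag8 (l c : Fin k → ℂ) (ex : Fin k → ℕ) (hex : ∀ i, ex i < k) (n : ℕ) (hn : k ≤ n) :
    fs l c ex (n : ℝ) n = ∑ i, c i * (n.choose (ex i) : ℂ) * l i ^ (n - ex i) := by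
  unfold fs
  refine Finset.sum_congr rfl fun i _ => ?_
  have h1 := hex i
  by_cases h : l i = 0
  · rw [h, zero_pow (by omega), zero_pow (by omega), mul_zero, mul_zero]
  · rw [fc_mul_pow l c ex (n : ℝ) n i (by omega) h, bc_nat]
    push_cast
    rfl

/-- The frozen sequences do not depend on the root data: `frozen_rp`, `frozen_unique` and
`isExpansion_rp`. -/
theorem fs_indep (v : ℕ → ℚ) (l c l' c' : Fin k → ℂ) (ex ex' : Fin k → ℕ) (hex : ∀ i, ex i < k)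
    (hex' : ∀ i, ex' i < k)
    (hv : ∀ n, ∑ i, c i * (n.choose (ex i) : ℂ) * l i ^ (n - ex i) = (((v n : ℚ) : ℝ) : ℂ))
    (hv' : ∀ n, ∑ i, c' i * (n.choose (ex' i) : ℂ) * l' i ^ (n - ex' i) = (((v n : ℚ) : ℝ) : ℂ))
    (x : ℝ) (n : ℕ) : (fs l c ex x n).re = (fs l' c' ex' x n).re := by
  rw [← frozen_rp, ← frozen_rp]
  unfold frozen
  rw [frozen_unique (isExpansion_rp l c ex hex v hv) (isExpansion_rp l' c' ex' hex' v hv')]

/-- `SX` is the level sum of the frozen data (`ρ > 0`): termwise by `fc_mul_pow`. -/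
theorem levelSum_frz (l c : Fin k → ℂ) (ex : Fin k → ℕ) (n0 j : ℕ) (hexj : ∀ i, ex i ≤ j) (ρ : ℝ)
    (hρ : 0 < ρ) (x : ℝ) (m : ℕ) :
    levelSum l (fc l c ex x) (fun _ => 0) n0 j ρ 0 m = SX l c ex n0 j ρ x m := by
  classical
  unfold levelSum SX
  refine Finset.sum_congr rfl fun i _ => ?_
  by_cases h : ‖l i‖ = ρ
  · have h1 : l i ≠ 0 := by
      rintro h0
      rw [h0, norm_zero] at h
      exact hρ.ne h
    rw [if_pos ⟨h, rfl⟩, if_pos h, Nat.sub_zero, fc_mul_pow l c ex x j i (hexj i) h1]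
  · rw [if_neg (fun h' => h h'.1), if_neg h]

end Pool.Agent.FrUP
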