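import Pool.Agent.FrEight.Defs

/-! The frozen data `(l, fc l c ex x, 0)` are simple data of the frozen sequence. -/

set_option autoImplicit false

namespace Pool.Agent.FrUP

open Finset Polynomial
open Pool.Agent.DD7719.M Pool.Agent.DD7719.M.GS Pool.Agent.UltPos

variable {k : ℕ}

/-- Fields of `GoodD` are those of `hg`, except `hex` (`0 < k`), `hdc` (no `e < 0`) and `hv`: the
sum is `fs l c ex x n` (`Nat.choose_zero_right`, `Nat.sub_zero`), real by `fs_real l c ex hg.hk hg.hex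
v hg.hv x n`. -/
theorem goodD_frz (l c : Fin k → ℂ) (ex : Fin k → ℕ) (R M : ℕ) (ε δ : ℝ) (v : ℕ → ℝ)
    (hg : GoodD k l c ex R M ε δ v) (x : ℝ) :
    GoodD k l (fc l c ex x) (fun _ => 0) R M ε δ (fun n => (fs l c ex x n).re) := by
  refine ⟨hg.hk, fun _ => hg.hk, fun _ e he => absurd he (Nat.not_lt_zero e), hg.hR, hg.hM,
    hg.hrb, hg.hε, hg.hδ, fun n => ?_⟩
  refine Eq.trans ?_ (fs_real l c ex hg.hk hg.hex v hg.hv x n)
  unfold fs
  refine Finset.sum_congr rfl fun i _ => ?_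
  rw [Nat.choose_zero_right, Nat.sub_zero, Nat.cast_one, mul_one]

/-- termwise: `ex' = 0 = d`, `fc_mul_pow` with exponent `j` (`l i ≠ 0` as `‖l i‖ = ρ > 0`); see the
end of the proof of `frozen_complete`. -/
theorem levF_frz (l c : Fin k → ℂ) (ex : Fin k → ℕ) (A : Fin k → Fin k → ℤ) (s j : ℕ)
    (hexj : ∀ i, ex i ≤ j) (ρ : ℝ) (hρ : 0 < ρ) (x : ℝ) (z : Fin k → ℂ) :
    LevF l (fc l c ex x) (fun _ => 0) A s j 0 ρ z = LevX l c ex A s j ρ x z := by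
  unfold LevF LevX Wt
  refine Finset.sum_congr rfl fun i _ => ?_
  by_cases h : ‖l i‖ = ρ
  · have h3 : l i ≠ 0 := norm_pos_iff.mp (by rw [h]; exact hρ)
    rw [if_pos ⟨h, rfl⟩, if_pos h, Nat.sub_zero, fc_mul_pow l c ex x j i (hexj i) h3]
  · rw [if_neg (fun h' => h h'.1), if_neg h]

open scoped Classical in
/-- vanishing above `ρ` for the frozen data: `Above ρ 0 (l i) 0 ↔ ρ < ‖l i‖`, then `fc_mul_pow`,
`bcP_eval_real` and `sum_eq_zero_of_gP'` with `y = x`, `T X = X ^ m` as in `certX_sound_at`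
(there with exponent `j + n0 * m`: `l i ^ (j + n0 * m) = l i ^ j * (l i ^ n0) ^ m`). -/
theorem van_frz (l c : Fin k → ℂ) (ex : Fin k → ℕ) (n0 j : ℕ) (hn0 : 0 < n0)
    (hexj : ∀ i, ex i ≤ j) (ρ : ℝ) (hρ : 0 ≤ ρ)
    (hgP : ∀ i, ρ < ‖l i‖ → gP l c ex n0 j (l i ^ n0) = 0) (x : ℝ) (m : ℕ) :
    ∑ i, (if Above ρ 0 (l i) ((fun _ : Fin k => 0) i) then
      fc l c ex x i * ((j + n0 * m).choose ((fun _ : Fin k => 0) i) : ℂ) *
        l i ^ (j + n0 * m - (fun _ : Fin k => 0) i) else 0) = 0 := by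
  have hab : ∀ i, Above ρ 0 (l i) ((fun _ : Fin k => 0) i) ↔ ρ < ‖l i‖ := by
    intro i
    unfold Above
    constructor
    · rintro (h | ⟨_, _, h⟩)
      · exact h
      · exact absurd h (lt_irrefl _)
    · exact Or.inl
  have hinv : ∀ i i', l i ^ n0 = l i' ^ n0 → ρ < ‖l i‖ → ρ < ‖l i'‖ := by
    intro i i' h h1
    rwa [← norm_eq_of_pow_eq hn0 h]
  have h1 := sum_eq_zero_of_gP' l c ex n0 j (fun i => ρ < ‖l i‖) hinv hgP (x : ℂ)
    (fun X => X ^ m)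
  refine Eq.trans (Finset.sum_congr rfl fun i _ => ?_) h1
  by_cases h : ρ < ‖l i‖
  · have h3 : l i ≠ 0 := norm_pos_iff.mp (hρ.trans_lt h)
    rw [if_pos ((hab i).2 h), if_pos h, Nat.choose_zero_right, Nat.cast_one, mul_one,
      Nat.sub_zero, pow_add, ← mul_assoc, fc_mul_pow l c ex x j i (hexj i) h3, bcP_eval_real,
      pow_mul]
  · rw [if_neg (fun h' => h ((hab i).1 h')), if_neg h]

/-- From the vanishing condition of `h` (extended to all `m` by `vanish_gen`) and `above_iff`,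
`gP_eq_zero` gives the second part as in `certX_sound_at`; the first part replaces the last clauses of
`h` (`0 ≤ ρ`, `0 < k` and `van_frz`). -/
theorem base_frz (l c : Fin k → ℂ) (ex : Fin k → ℕ) (hex : ∀ i, ex i < k)
    (hdc : ∀ i, ∀ e, e < ex i → ∃ i', l i' = l i ∧ ex i' = e) (M Nb : ℕ) (ε δ : ℝ) (n0 j : ℕ)
    (A H : Fin k → Fin k → ℤ) (D : ℤ) (s : ℕ) (w : Fin k → Fin k → ℝ) (τ : Fin k → ℝ) (ρ : ℝ)
    (d : ℕ) (hd : d + 1 = k) (h : BaseF k l c ex M Nb ε δ n0 j A H D s w τ ρ d) (x : ℝ) :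
    BaseF k l (fc l c ex x) (fun _ => 0) M Nb ε δ n0 j A H D s w τ ρ 0 ∧
      ∀ i, ρ < ‖l i‖ → gP l c ex n0 j (l i ^ n0) = 0 := by
  classical
  obtain ⟨hn0, hn0N, hj, hjk, hs, hD, hDM, hHA, hA, hH, hδ', hw, hwε, hρ, hdk, hvan⟩ := h
  have hexj : ∀ i, ex i ≤ j := fun i => ((hex i).le.trans hj)
  have hvan' := vanish_gen l c ex hdc (fun i => Above ρ d (l i) (ex i)) j n0 hvan
  have hab : ∀ i, Above ρ d (l i) (ex i) ↔ ρ < ‖l i‖ := fun i => above_iff hd (hex i)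
  have hinv : ∀ i i', l i ^ n0 = l i' ^ n0 → ρ < ‖l i‖ → ρ < ‖l i'‖ := by
    intro i i' h h1
    rwa [← norm_eq_of_pow_eq hn0 h]
  have hg : ∀ i, ρ < ‖l i‖ → gP l c ex n0 j (l i ^ n0) = 0 := by
    intro i hi
    refine gP_eq_zero l c ex n0 j hn0 hexj (fun i => ρ < ‖l i‖) hinv
      (fun i hi => norm_pos_iff.mp (hρ.trans_lt hi)) (fun m => ?_) i hi
    refine Eq.trans (Finset.sum_congr rfl fun i _ => ?_) (hvan' m)
    simp only [hab]
  exact ⟨⟨hn0, hn0N, hj, hjk, hs, hD, hDM, hHA, hA, hH, hδ', hw, hwε, hρ, by omega,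
    fun m _ => van_frz l c ex n0 j hn0 hexj ρ hρ hg x m⟩, hg⟩

end Pool.Agent.FrUP
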