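import Pool.Agent.FrEight.Par5B

/-! Existential real conditions with two real parameters and five pinned integer parameters, whose
size is independent of the size of the condition. -/

set_option autoImplicit false

namespace Pool.Agent.RElim.Par

open Finset MvPolynomial Pool.Agent.PT Pool.Agent.AllR

variable {Γ : Type}

/-- **Elimination with a parameter and five pinned integers of unrelated size.** The proof of
`exists_bound_param` with `core5`, `WW x = … + 15` and `P x = PE5 (WW x) + nn x + 9`: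
`(nn + 2 * b + 9) * 2 ^ PE5 (WW x) ≤ (b + 1) * (nn + 9) * 2 ^ PE5 (WW x) ≤ (b + 1) * 2 ^ P x`. -/
theorem exists_bound_param5 {R : List Γ → ℝ → ℝ → ℝ → ℝ → ℝ → ℝ → ℝ → Prop}
    (hR : RE (fun x _ α => R x (α 0) (α 1) (α 2) (α 3) (α 4) (α 5) (α 6))) :
    ∃ P : List Γ → ℕ, UF (fun x _ => P x) ∧ ∀ (x : List Γ) (b P' : ℕ),
      (b + 1) * 2 ^ P x ≤ 2 ^ P' → ∀ (p0 p1 p2 p3 p4 : ℕ), p0 ≤ 2 ^ b → p1 ≤ 2 ^ b →
      p2 ≤ 2 ^ b → p3 ≤ 2 ^ b → p4 ≤ 2 ^ b →
      ∃ q : Polynomial ℤ, q ≠ 0 ∧ q.natDegree ≤ 2 ^ P' ∧ (∀ i, |q.coeff i| ≤ 2 ^ 2 ^ P') ∧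
        ∀ y : ℝ, |y| ≤ 2 → (∃ X : ℝ, ∀ t, R x t y p0 p1 p2 p3 p4 → t ≤ X) →
          ∀ t, R x t y p0 p1 p2 p3 p4 → |Polynomial.aeval y q| * t ≤ 2 ^ 2 ^ P' := by
  classical
  obtain ⟨S, hS⟩ := hR
  let nn : List Γ → ℕ := fun x => S.n x (fun _ => 0)
  let V : ℕ → List Γ → ℕ → ℕ := fun j x c => S.V j x (cons c (fun _ => 0))
  let WW : List Γ → ℕ := fun x => (∑ c ∈ range (nn x), (V 0 x c + V 1 x c + V 2 x c + V 3 x c)) + 15
  have hnn : UF (fun x (_ : ℕ → ℕ) => nn x) := UF.app S.hn (fun _ => UF.const 0)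
  have hV : ∀ j, UF (fun x (e : ℕ → ℕ) => V j x (e 0)) := fun j =>
    UF.app (S.hV j) (UE.cons (UF.var 0) (fun _ => UF.const 0))
  have hWW : UF (fun x (_ : ℕ → ℕ) => WW x) := by
    refine UF.add ?_ (UF.const 15)
    show UF (fun x (_ : ℕ → ℕ) => ∑ c ∈ range (nn x), (V 0 x c + V 1 x c + V 2 x c + V 3 x c))
    refine UF.sum hnn ?_
    exact (((hV 0).add (hV 1)).add (hV 2)).add (hV 3)
  have hWle : ∀ x c, c < nn x → V 0 x c < WW x ∧ V 1 x c < WW x ∧ V 2 x c < WW x ∧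
      V 3 x c < WW x := by
    intro x c hc
    have h1 := Finset.single_le_sum (f := fun c => V 0 x c + V 1 x c + V 2 x c + V 3 x c)
      (fun _ _ => Nat.zero_le _) (Finset.mem_range.2 hc)
    change V 0 x c + V 1 x c + V 2 x c + V 3 x c ≤ _ at h1
    simp only [WW]
    omega
  have hW3 : ∀ x, 15 ≤ WW x := fun x => by simp only [WW]; omega
  refine ⟨fun x => PE5 (WW x) + nn x + 9, ?_, ?_⟩
  · show UF (fun x (_ : ℕ → ℕ) => 8 * WW x + 6 + nn x + 9)
    exact ((((UF.const 8).mul hWW).add (UF.const 6)).add hnn).add (UF.const 9)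
  · intro x b P' hP' p0 p1 p2 p3 p4 hp0 hp1 hp2 hp3 hp4
    have hkey : (nn x + 2 * b + 9) * 2 ^ PE5 (WW x) ≤ 2 ^ P' := by
      refine le_trans ?_ hP'
      have e1 : nn x + 2 * b + 9 ≤ (b + 1) * (nn x + 9) := by
        have : (b + 1) * (nn x + 9) = b * nn x + 9 * b + nn x + 9 := by ring
        have h0 : 0 ≤ b * nn x := Nat.zero_le _
        omega
      have e2 : nn x + 9 ≤ 2 ^ (nn x + 9) := (Nat.lt_two_pow_self).le
      calc (nn x + 2 * b + 9) * 2 ^ PE5 (WW x)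
          ≤ ((b + 1) * 2 ^ (nn x + 9)) * 2 ^ PE5 (WW x) :=
            Nat.mul_le_mul_right _ (e1.trans (Nat.mul_le_mul_left _ e2))
        _ = (b + 1) * 2 ^ (PE5 (WW x) + nn x + 9) := by
            rw [mul_assoc, ← pow_add]
            congr 2
            ring
    refine core5 (WW x) (nn x) b P' (fun j c => V j x c) (hW3 x) hkey ?_ (R x) ?_ p0 p1 p2 p3 p4
      hp0 hp1 hp2 hp3 hp4
    · intro c hc j hj
      obtain ⟨g0, g1, g2, g3⟩ := hWle x c hc
      have hj' : j = 0 ∨ j = 1 ∨ j = 2 ∨ j = 3 := by omega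
      rcases hj' with rfl | rfl | rfl | rfl
      · exact g0
      · exact g1
      · exact g2
      · exact g3
    · intro α
      exact hS x (fun _ => 0) α

end Pool.Agent.RElim.Par
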