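import Pool.Agent.FrEight.Pos
import Pool.Agent.FrEight.Par5
import Pool.Agent.DD7719.NLang
import Pool.Agent.MX.Lang2
import Pool.Agent.MX.Iff

/-! Positive, frozen positive, at most eight roots on each circle: in `∀ℝ`. -/

set_option autoImplicit false

namespace Pool.Agent.UltPos

open Pool.Agent.PT Pool.Agent.AllR Pool.Agent.DD7719.M Pool.Agent.DD7719 Finset Pool.Agent.FrUP

/-- **Positivity of frozen positive recurrences with at most eight roots on each circle.** -/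
theorem inForallR_frozen_eight :
    InForallR {w : List ISym | ∃ I : Inst, w = I.enc ∧ I.Positive ∧ I.FrozenPositive ∧
      I.EightPerCircle} := by
  obtain ⟨C, hC⟩ := Pool.Agent.BakerGap.gap
  obtain ⟨E, hE⟩ := exists_thr8
  obtain ⟨kk, sg, nb, db, hkk, hsg, hnb, hdb, hI⟩ := exists_parser
  have h2 : RF (Γ := ISym) (fun _ _ _ => (2 : ℝ)) :=
    (RF.nat (UF.const 2)).congr fun _ _ _ => by norm_num
  have hε : RF (Γ := ISym) (fun x _ _ => (2 : ℝ) / ((2 ^ pq x.length : ℕ) : ℝ)) :=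
    (h2.div (h2.pow (uf_pq UF.len))).congr fun x e α => by push_cast; rfl
  have hδ : RF (Γ := ISym) (fun x _ _ => (1 : ℝ) / 2 ^ pdl x.length) :=
    RF.one.div (h2.pow (uf_pdl UF.len))
  have hfa : ∀ (I : Inst) (t : ℕ) (ht : t < I.k), fieldR sg nb db 0 I.enc t = (I.a ⟨t, ht⟩ : ℝ) := by
    intro I t ht
    obtain ⟨e1, e2, e3, e4, e5, e6, e7⟩ := hI I
    rw [Inst.a, fieldR]
    push_cast
    have h3 := congrArg (fun z : ℤ => (z : ℝ)) (e3 ⟨t, ht⟩)
    have h4 := congrArg (fun z : ℤ => (z : ℝ)) (e4 ⟨t, ht⟩)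
    simp only at h3 h4
    push_cast at h3 h4
    rw [h3, h4]
  have hfu : ∀ (I : Inst) (t : ℕ) (ht : t < I.k), fieldR sg nb db 1 I.enc t = (I.u ⟨t, ht⟩ : ℝ) := by
    intro I t ht
    obtain ⟨e1, e2, e3, e4, e5, e6, e7⟩ := hI I
    rw [Inst.u, fieldR]
    push_cast
    have h3 := congrArg (fun z : ℤ => (z : ℝ)) (e5 ⟨t, ht⟩)
    have h4 := congrArg (fun z : ℤ => (z : ℝ)) (e6 ⟨t, ht⟩)
    simp only at h3 h4
    push_cast at h3 h4
    rw [h3, h4]
  -- certificates against frozen positivity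
  have hX := re_certQ (fun x α => QX (kk x) (α 0)) kk
    (fun x => pbm x.length) (fun x => pbn x.length)
    (fieldR sg nb db 0) (fieldR sg nb db 1) _ _ hkk (uf_pbm UF.len) (uf_pbn UF.len)
    (rf_fieldR 0 hsg hnb hdb) (rf_fieldR 1 hsg hnb hdb) hε hδ (fun x α => qX_congr (kk x) (α 0))
    (re_QX kk (fun x => pbm x.length) (fun x => pbn x.length) hkk (uf_pbm UF.len)
      (uf_pbn UF.len))
  obtain ⟨P1, hP1, hB1⟩ := RElim.exists_bound
    (R := fun x t => ∃ (l c : ℕ → ℂ) (ex : ℕ → ℕ), RootData (kk x) (fieldR sg nb db 0 x)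
      (fieldR sg nb db 1 x) l c ex ∧ CertQN (kk x) l c ex (pbm x.length) (pbn x.length)
        (2 / ((2 ^ pq x.length : ℕ) : ℝ)) (1 / 2 ^ pdl x.length) (QX (kk x) t)) hX
  have hbig : RE (Γ := ISym) (fun x _ α => ∃ β : ℕ → ℝ, (2 : ℝ) ^ 2 ^ P1 x < β 0 ∧
      ∃ (l c : ℕ → ℂ) (ex : ℕ → ℕ), RootData (kk x) (fieldR sg nb db 0 x)
      (fieldR sg nb db 1 x) l c ex ∧ CertQN (kk x) l c ex (pbm x.length) (pbn x.length)
        (2 / ((2 ^ pq x.length : ℕ) : ℝ)) (1 / 2 ^ pdl x.length) (QX (kk x) (β 0))) := by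
    refine RE.exb (RE.and ?_ (RE.aff hX 2 1))
    exact RE.lt (RF.pow_two_pow h2 hP1) (RF.var (UF.const 1))
  -- the values along the fibres
  have hRR := re_certQ (fun x α => QRX (kk x) α) kk
    (fun x => pbm x.length) (fun x => pbn x.length)
    (fieldR sg nb db 0) (fieldR sg nb db 1) _ _ hkk (uf_pbm UF.len) (uf_pbn UF.len)
    (rf_fieldR 0 hsg hnb hdb) (rf_fieldR 1 hsg hnb hdb) hε hδ (fun x α => qRX_congr (kk x) α)
    (re_QRX kk (fun x => pbm x.length) (fun x => pbn x.length) hkk (uf_pbm UF.len)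
      (uf_pbn UF.len))
  obtain ⟨P, hP, hB⟩ := RElim.Par.exists_bound_param5
    (R := fun x t y p0 p1 p2 p3 p4 => ∃ (l c : ℕ → ℂ) (ex : ℕ → ℕ),
      RootData (kk x) (fieldR sg nb db 0 x)
      (fieldR sg nb db 1 x) l c ex ∧ CertQN (kk x) l c ex (pbm x.length) (pbn x.length)
        (2 / ((2 ^ pq x.length : ℕ) : ℝ)) (1 / 2 ^ pdl x.length)
        (QRX (kk x) (v7 t y p0 p1 p2 p3 p4))) hRR
  -- small indices
  have hsmall := re_small kk (fun x => pthX C E x.length (P x)) (fieldR sg nb db 0)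
    (fieldR sg nb db 1) hkk (uf_pthX C E UF.len hP)
    (rf_fieldR 0 hsg hnb hdb) (rf_fieldR 1 hsg hnb hdb)
  -- the circles
  have hmany := re_many (Γ := ISym) (8 + 1) kk (fieldR sg nb db 0) hkk (rf_fieldR 0 hsg hnb hdb)
  refine RE.inForallR (((RE.up up_valid.not).or hsmall).or (hbig.or hmany)) _ fun x => ?_
  constructor
  · rintro ⟨I, rfl, hpos, hfr, h8⟩ ⟨α, (h4 | h4) | (h4 | h4)⟩
    · exact h4 ⟨I, rfl⟩
    · obtain ⟨l, c, ex, hrd, n, hn, hle⟩ := h4
      obtain ⟨v, hv, -⟩ := I.exists_unique_seq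
      have hIk := (hI I).1
      rw [hIk] at hrd hle
      have h5 := I.all' _ _ (hfa I) (hfu I) v hv hrd n
      rw [← Finset.sum_range (fun i => c i * (n.choose (ex i) : ℂ) * l i ^ (n - ex i))] at h5
      rw [termN, h5, Complex.ofReal_re] at hle
      have h6 : 0 < ((v n : ℚ) : ℝ) := by exact_mod_cast hpos v hv n
      linarith
    · obtain ⟨e1, e2, e3, e4, e5, e6, e7⟩ := hI I
      obtain ⟨v, hv, -⟩ := I.exists_unique_seq
      obtain ⟨β, hβ, h5⟩ := h4
      obtain ⟨X, hX⟩ := I.bounded_FX I.enc.length e2 (fun i => ⟨(e7 i).1.le, (e7 i).2.1.le⟩) _ _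
        (hfa I) (hfu I) v hv hfr
      obtain ⟨t', ht', h6⟩ := hB1 I.enc ⟨β 0, hβ, h5⟩ X
      simp only [e1] at h6
      exact absurd (hX t' h6) (not_le.mpr ht')
    · rw [(hI I).1] at h4
      exact (I.perCircle_iff 8 _ (hfa I)).mp (I.eight_iff_perCircle.mp h8) h4
  · intro h
    have h1 : ∃ I : Inst, x = I.enc := by
      by_contra hcon
      exact h ⟨fun _ => 0, Or.inl (Or.inl hcon)⟩
    obtain ⟨I, rfl⟩ := h1
    obtain ⟨e1, e2, e3, e4, e5, e6, e7⟩ := hI I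
    obtain ⟨v, hv, hvu⟩ := I.exists_unique_seq
    have hbd : ∀ i, (I.aNum i).natAbs ≤ 2 ^ I.enc.length ∧ I.aDen i ≤ 2 ^ I.enc.length :=
      fun i => ⟨(e7 i).1.le, (e7 i).2.1.le⟩
    have hbu : ∀ i, (I.uNum i).natAbs ≤ 2 ^ I.enc.length ∧ I.uDen i ≤ 2 ^ I.enc.length :=
      fun i => ⟨(e7 i).2.2.1.le, (e7 i).2.2.2.le⟩
    have hfr : I.FrozenPositive := by
      refine I.frozenPositive_of_no I.enc.length e2 hbd _ _ (hfa I) (hfu I) v hv
        (2 ^ 2 ^ P1 I.enc) (fun t ht hcon => h ⟨fun _ => 0, Or.inr (Or.inl ⟨fun _ => t, ht, ?_⟩)⟩)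
      simp only [e1]
      exact hcon
    have h8 : I.EightPerCircle := by
      rw [I.eight_iff_perCircle, I.perCircle_iff 8 _ (hfa I)]
      intro hcon
      apply h
      refine ⟨fun _ => 0, Or.inr (Or.inr ?_)⟩
      rw [e1]
      exact hcon
    refine ⟨I, rfl, ?_, hfr, h8⟩
    have hthr := I.pos_of_frozen I.enc.length e2 hbd hbu _ _ (hfa I) (hfu I) v hv C hC E hE
      (P I.enc) hfr h8
      (by
        intro b P' hbP p0 p1 p2 p3 p4 h0 h1 h2 h3 h4
        have h5 := hB I.enc b P' hbP p0 p1 p2 p3 p4 h0 h1 h2 h3 h4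
        simp only [e1] at h5
        exact h5)
    intro w hw n
    rw [hvu w hw]
    by_contra hcon
    push Not at hcon
    rcases lt_or_ge n (2 ^ pthX C E I.enc.length (P I.enc)) with h5 | h5
    · apply h
      refine ⟨fun _ => 0, Or.inl (Or.inr ?_)⟩
      obtain ⟨l, c, ex, hrd⟩ := I.exists_rootData' _ _ (hfa I) (hfu I)
      refine ⟨l, c, ex, ?_, n, h5, ?_⟩
      · rw [e1]
        exact hrd
      · have h6 := I.all' _ _ (hfa I) (hfu I) v hv hrd n
        rw [← Finset.sum_range (fun i => c i * (n.choose (ex i) : ℂ) * l i ^ (n - ex i))] at h6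
        rw [e1, termN, h6, Complex.ofReal_re]
        exact_mod_cast hcon
    · exact absurd (hthr n h5) (not_lt.mpr hcon)

end Pool.Agent.UltPos
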