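import Pool.Agent.FrEight.Defs
import Pool.Agent.DD7719.NLang

/-! The certificate `QRX` as an existential real condition. -/

set_option autoImplicit false

namespace Pool.Agent.FrUP

open Finset
open Pool.Agent.DD7719.M Pool.Agent.DD7719.M.GS Pool.Agent.PT Pool.Agent.AllR

/-- as `qR_congr` (`LX` unfolded, `lev_congr`, `wtN_congr`) -/
theorem qRX_congr (k : ℕ) (α : ℕ → ℝ) : QCongr k (QRX k α) := by
  intro l c ex ex' n0 j A A' s d ρ z z' Z1 Z2 hex hA h
  unfold QRX LX at h ⊢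
  simp only [lev_congr hex hA]
  obtain ⟨h1, h2, h3, h4, h5, h6, i, hi, i', hi', h7, h8⟩ := h
  refine ⟨h1, h2, h3, h4, h5, h6, i, hi, i', hi', h7, ?_⟩
  rcases h8 with h8 | h8
  · exact Or.inl h8
  · right
    rw [wtN_congr hi hA, wtN_congr hi' hA]
    exact h8

section
variable {Γ : Type} (kk bm bn : List Γ → ℕ)
  (hk : UF (fun x _ => kk x)) (hbm : UF (fun x _ => bm x)) (hbn : UF (fun x _ => bn x))

/-- as `rf_bc` -/
theorem rf_bc_var (v : ℕ) : RF (Γ := Γ) (fun x e α => bc (e 0) (α v)) := by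
  unfold bc
  refine RF.div (RF.prod (b := fun _ e => e 0) (f := fun _ _ α i => α v - (i : ℝ)) (UF.var 0) ?_)
    (RF.prod (b := fun _ e => e 0) (f := fun _ _ _ i => (i : ℝ) + 1) (UF.var 0) ?_)
  · exact (RF.var (UF.const v)).sub (RF.nat (UF.var 0))
  · exact (RF.nat (UF.var 0)).add RF.one

include hk hbm hbn in
/-- As `re_QR` and `re_QX`: `LX` is `RF.sum hk` of `(rf_bc_var 12).mul (RF.aff hL.re 2 1)`, `hL` from
`cf_lev3` (for `z` and for `z'`), `α 6` is the variable `12`; the disjunction `i = i' ∨ …` is `RE.or`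
of `RE.up (UP.eq (UF.var 1) (UF.var 0))` and the condition of `re_QR`. -/
theorem re_QRX : RE (fun x e α => QRX (kk x) (fun v => α (2 * v)) (rl (fun v => α (2 * v + 1)))
      (rc (fun v => α (2 * v + 1))) (rex (kk x) (fun v => α (2 * v + 1)))
      (rn0 (bn x) (fun v => α (2 * v + 1))) (rj (bn x + kk x) (fun v => α (2 * v + 1)))
      (rA (bm x) (fun v => α (2 * v + 1))) (e 1) (e 0) (rρ (fun v => α (2 * v + 1)))
      (rz (fun v => α (2 * v + 1))) (rz' (fun v => α (2 * v + 1)))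
      (rz1 (fun v => α (2 * v + 1))) (rz2 (fun v => α (2 * v + 1)))) := by
  unfold QRX LX
  have hL := cf_lev3 kk bm bn hk hbm hbn (zr := rz) cf_rz
  have hL' := cf_lev3 kk bm bn hk hbm hbn (zr := rz') cf_rz'
  have hn0 : NF (Γ := Γ) (fun x e α => rn0 (bn x) α) := nf_rn0 hbn
  have hj : NF (Γ := Γ) (fun x e α => rj (bn x + kk x) α) := nf_rj (hbn.add hk)
  have hW := cf_wt2 kk bm hk hbm (zr := fun α _ t => rz α t) (fun _ hg => cf_rz hg)
  refine RE.and (RE.aff (RE.lt RF.zero rf_rρ) 2 1)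
    (RE.and (RE.up (UP.eq ((UF.var 0).add (UF.const 1)) hk))
    (RE.and (RE.ne (RF.sum hk ?_) RF.zero) (RE.and (RE.aff (re_sorted kk hk) 2 1)
    (RE.and (RE.and ?_ ?_) (RE.and (RE.le ((RF.var (UF.const 0)).mul (RF.sum hk ?_)) RF.one)
    (RE.bex hk (RE.bex hk (RE.and (RE.and ?_ ?_) (RE.or ?_ ?_)))))))))
  · exact (rf_bc_var 12).mul (RF.aff hL'.re 2 1)
  · exact RE.eq (RF.aff hn0.cast 2 1) (RF.var (UF.const 8))
  · exact RE.eq (RF.aff hj.cast 2 1) (RF.var (UF.const 10))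
  · exact (rf_bc_var 12).mul (RF.aff hL.re 2 1)
  · exact RE.eq (RF.nat (UF.var 1)) (RF.var (UF.const 4))
  · exact RE.eq (RF.nat (UF.var 0)) (RF.var (UF.const 6))
  · exact RE.up (UP.eq (UF.var 1) (UF.var 0))
  · exact RE.eq (RF.aff ((hW 1).div (hW 0)).re 2 1) (RF.var (UF.const 2))

end

/-- `LX` for `Fin`-indexed data: `levX_eq`, `lev_eq_levF` (`levF_ext` for the extensions). -/
theorem LX_ext {k : ℕ} (l c : ℕ → ℂ) (ex : ℕ → ℕ) (hex : ∀ i, i < k → ex i < k)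
    (A : Fin k → Fin k → ℤ) (s j : ℕ) (ρ x : ℝ) (z : Fin k → ℂ) (z0 : ℕ → ℂ)
    (hz : ∀ t : Fin k, z0 t = z t) :
    LX k s l c z0 ex (ext2 0 A) j ρ x =
      (LevX (fun i : Fin k => l i) (fun i => c i) (fun i => ex i) A s j ρ x z).re := by
  unfold LX
  rw [levX_eq _ _ _ (fun i => hex i i.2)]
  refine Finset.sum_congr rfl fun d _ => ?_
  rw [levF_ext l c ex A s j d ρ z z0 hz]

/-- `LX` for restrictions of `ℕ`-indexed data: `levX_eq`, `lev_eq_levF`. -/
theorem LX_eq {k : ℕ} (l c : ℕ → ℂ) (ex : ℕ → ℕ) (hex : ∀ i, i < k → ex i < k)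
    (A : ℕ → ℕ → ℤ) (s j : ℕ) (ρ x : ℝ) (z : ℕ → ℂ) :
    LX k s l c z ex A j ρ x = (LevX (fun i : Fin k => l i) (fun i => c i) (fun i => ex i)
      (fun i t => A i t) s j ρ x (fun t => z t)).re := by
  unfold LX
  rw [levX_eq _ _ _ (fun i => hex i i.2)]
  simp only [lev_eq_levF]

end Pool.Agent.FrUP
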