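import Pool.Agent.FrEight.ClsA
import Pool.Agent.FrEight.QRE

/-! Data from certificates. -/

set_option autoImplicit false
set_option linter.unusedSectionVars false

namespace Pool.Agent.UltPos

open Pool.Agent.PT Pool.Agent.AllR Pool.Agent.DD7719.M Pool.Agent.DD7719 Finset Pool.Agent.FrUP

section
variable (I : Inst) (L : ℕ) (hkL : I.k ≤ L)
    (hb : ∀ i, (I.aNum i).natAbs ≤ 2 ^ L ∧ I.aDen i ≤ 2 ^ L)
    (hbu : ∀ i, (I.uNum i).natAbs ≤ 2 ^ L ∧ I.uDen i ≤ 2 ^ L) (aR uR : ℕ → ℝ)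
    (ha : ∀ t (h : t < I.k), aR t = (I.a ⟨t, h⟩ : ℝ)) (hu : ∀ t (h : t < I.k), uR t = (I.u ⟨t, h⟩ : ℝ))
    (v : ℕ → ℚ) (hv : I.IsSeq v)

include hkL hb hbu ha hu hv in
/-- **Certificates with the pinned data.** If `RRX` holds with the values `v7 t y i i' n0 j x` then there
are coefficients `g` such that `(l, g, 0)` are data of the sequence frozen at `x` (defined with
`(l, c, ex)`), with base data for `n0`, `j` at a level `(ρ, 0)`, `ρ > 0`, whose level function is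
nonnegative and not zero, and `t` times its value at a point `z` is at most one; and `i = i'` or the
fibre condition holds at `z`.

Proof. Unfold `RRX`, `CertQN`, `QRX`: data `l1, c1, ex1, n1, j1, A1, …, ρ1, d1`. The equations between
casts give `n1 = n0`, `j1 = j`, `a = i`, `a' = i'` (as in `Inst.level_lower`), and
`fun i : Fin I.k => l1 i = fun i => l i` by `sorted_unique`; take
`g = fc (fun i : Fin I.k => l i) (fun i => c1 i) (fun i => ex1 i) x`. `GoodD` is `goodD_frz` of `I.goodD`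
(for `(l1, c1, ex1)`), with the sequence rewritten by `fs_indep`. `base_frz` (of `hb1.toF`) gives the
frozen base data and the vanishing of `gP` above `ρ1`; the first part of `hE` (for the root data
`(l1, c1, ex1)`, `M = 2 ^ pbm L`, `Nb = 2 ^ pbn L`) gives the nonnegativity. `LX_eq` and `levF_frz`
translate `LX`, `wtN_eq` the fibre condition. -/
theorem Inst.rrx_data (E : ℕ) (hE : Thr8 E) (hfr : I.FrozenPositive) (h8 : I.EightPerCircle)
    {l c : ℕ → ℂ} {ex : ℕ → ℕ} (hrd : RootData I.k aR uR l c ex) (hsort : Sorted I.k l) (x : ℝ)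
    (hx : 2 ^ ((2 + L) ^ E) < x) (i i' : Fin I.k) (n0 j : ℕ) (t y : ℝ)
    (h : I.RRX L aR uR (v7 t y (i : ℕ) (i' : ℕ) n0 j x)) :
    ∃ (g : Fin I.k → ℂ) (A H : Fin I.k → Fin I.k → ℤ) (D : ℤ) (s : ℕ)
      (w : Fin I.k → Fin I.k → ℝ) (τ : Fin I.k → ℝ) (ρ : ℝ) (z z' : Fin I.k → ℂ),
      GoodD I.k (fun i => l i) g (fun _ => 0) (2 ^ pr L) (2 ^ pbm L) (2 / ((2 ^ pq L : ℕ) : ℝ))
        (1 / 2 ^ pdl L)
        (fun n => (fs (fun i : Fin I.k => l i) (fun i => c i) (fun i => ex i) x n).re) ∧ 0 < ρ ∧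
      BaseF I.k (fun i => l i) g (fun _ => 0) (2 ^ pbm L) (2 ^ pbn L)
        (2 / ((2 ^ pq L : ℕ) : ℝ)) (1 / 2 ^ pdl L) n0 j A H D s w τ ρ 0 ∧
      (∀ t, ‖z t‖ = 1) ∧ (∀ t, ‖z' t‖ = 1) ∧
      (LevF (fun i : Fin I.k => l i) g (fun _ => 0) A s j 0 ρ z').re ≠ 0 ∧
      (∀ z : Fin I.k → ℂ, (∀ t, ‖z t‖ = 1) →
        0 ≤ (LevF (fun i : Fin I.k => l i) g (fun _ => 0) A s j 0 ρ z).re) ∧
      t * (LevF (fun i : Fin I.k => l i) g (fun _ => 0) A s j 0 ρ z).re ≤ 1 ∧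
      (i = i' ∨ (Wt A s z i / Wt A s z i').re = y) := by
  classical
  obtain ⟨l1, c1, ex1, hrd1, n1, j1, A1, H1, D1, s1, w1, τ1, z1, z1', Z1, Z2, ρ1, d1, hb1, hz1,
    hz1', hQ⟩ := h
  obtain ⟨g1, g2, g3, g4, ⟨g5, g6⟩, g7, a, haK, a', ha'K, ⟨g8, g9⟩, g10⟩ := hQ
  have e5 : n1 = n0 := by
    have : (n1 : ℝ) = (n0 : ℝ) := g5
    exact_mod_cast this
  have e6 : j1 = j := by
    have : (j1 : ℝ) = (j : ℝ) := g6
    exact_mod_cast this
  have e8 : a = i := by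
    have : (a : ℝ) = ((i : ℕ) : ℝ) := g8
    exact_mod_cast this
  have e9 : a' = i' := by
    have : (a' : ℝ) = ((i' : ℕ) : ℝ) := g9
    exact_mod_cast this
  subst e5 e6 e8 e9
  have hl1 : ∀ b, b < I.k → l1 b = l b := fun b hbk => sorted_unique hrd1 g4 hrd hsort b hbk
  have hlF : (fun i : Fin I.k => l1 i) = fun i : Fin I.k => l i := funext fun i => hl1 i i.2
  have hex1 : ∀ i, i < I.k → ex1 i < I.k := hrd1.1
  have hgood := goodD_frz _ _ _ _ _ _ _ _ (I.goodD L hkL hb aR uR ha hu v hv hrd1) x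
  have hb1F := hb1.toF
  have hn0 : 0 < n1 := hb1.1
  have hj : I.k ≤ j1 := hb1.2.2.1
  have hexj : ∀ i : Fin I.k, ex1 i ≤ j1 := fun i => ((hex1 i i.2).le.trans hj)
  obtain ⟨hbf, hgP⟩ := base_frz (fun i : Fin I.k => l1 i) (fun i => c1 i) (fun i => ex1 i)
    (fun i => hex1 i i.2) (fun i e he => hrd1.closed i e he) _ _ _ _ _ _ _ _ _ _ _ _ _ _ g2
    hb1F x
  have hthr := (hE I L hkL hb hbu aR uR ha hu v hv hfr h8 l1 c1 ex1 hrd1 n1 j1 hn0 hj x hx).1 ρ1 g1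
    hgP (2 ^ pbm L) (2 ^ pbn L) _ _ _ _ _ _ _ Nat.one_le_two_pow le_rfl hb1F
  have hfs : (fun n => (fs (fun i : Fin I.k => l1 i) (fun i => c1 i) (fun i => ex1 i) x n).re) =
      fun n => (fs (fun i : Fin I.k => l i) (fun i => c i) (fun i => ex i) x n).re :=
    funext fun n => fs_indep v _ _ _ _ _ _ (fun i => hex1 i i.2) (fun i => hrd.1 i i.2)
      (I.all' aR uR ha hu v hv hrd1) (I.all' aR uR ha hu v hv hrd) x n
  have hlev : ∀ z : Fin I.k → ℂ, LevX (fun i : Fin I.k => l1 i) (fun i => c1 i) (fun i => ex1 i)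
      (fun i t => A1 i t) s1 j1 ρ1 x z = LevF (fun i : Fin I.k => l1 i)
      (fc (fun i : Fin I.k => l1 i) (fun i => c1 i) (fun i => ex1 i) x) (fun _ => 0)
      (fun i t => A1 i t) s1 j1 0 ρ1 z := fun z => (levF_frz _ _ _ _ _ _ hexj ρ1 g1 x z).symm
  rw [LX_eq l1 c1 ex1 hex1] at g3 g7
  have g3' : (LevX (fun i : Fin I.k => l1 i) (fun i => c1 i) (fun i => ex1 i)
      (fun i t => A1 i t) s1 j1 ρ1 x (fun t => z1' t)).re ≠ 0 := g3
  have g7' : t * (LevX (fun i : Fin I.k => l1 i) (fun i => c1 i) (fun i => ex1 i)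
      (fun i t => A1 i t) s1 j1 ρ1 x (fun t => z1 t)).re ≤ 1 := g7
  rw [hlev] at g3' g7'
  simp only [hlev] at hthr
  rw [hfs] at hgood
  obtain ⟨g, hg⟩ : ∃ g, g = fc (fun i : Fin I.k => l1 i) (fun i => c1 i) (fun i => ex1 i) x :=
    ⟨_, rfl⟩
  rw [← hg] at g3' g7' hgood hbf
  simp only [← hg] at hthr
  rw [hlF] at g3' g7' hgood hbf
  simp only [hlF] at hthr
  refine ⟨g, _, _, D1, s1, _, _, ρ1, fun t => z1 t, fun t => z1' t, hgood, g1, hbf,
    fun t => hz1 t t.2, fun t => hz1' t t.2, g3', hthr, g7', ?_⟩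
  rcases g10 with g10 | g10
  · exact Or.inl (Fin.ext g10)
  · right
    have g10' := g10
    rw [wtN_eq I.k s1 A1 z1 i, wtN_eq I.k s1 A1 z1 i'] at g10'
    exact g10'

end

end Pool.Agent.UltPos
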