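import Pool.Agent.FrEight.LowA
import Pool.Agent.FrEight.LowB

/-! The lower bound for the level functions of the frozen sequences, case of contacts. -/

set_option autoImplicit false
set_option linter.unusedSectionVars false

namespace Pool.Agent.UltPos

open Pool.Agent.PT Pool.Agent.AllR Pool.Agent.DD7719.M Pool.Agent.DD7719 Finset Pool.Agent.FrUP

section
variable (I : Inst) (L : ℕ) (hkL : I.k ≤ L)
    (hb : ∀ i, (I.aNum i).natAbs ≤ 2 ^ L ∧ I.aDen i ≤ 2 ^ L)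
    (hbu : ∀ i, (I.uNum i).natAbs ≤ 2 ^ L ∧ I.uDen i ≤ 2 ^ L) (aR uR : ℕ → ℝ)
    (ha : ∀ t (h : t < I.k), aR t = (I.a ⟨t, h⟩ : ℝ)) (hu : ∀ t (h : t < I.k), uR t = (I.u ⟨t, h⟩ : ℝ))
    (v : ℕ → ℚ) (hv : I.IsSeq v)

include hkL hb hbu ha hu hv in
/-- **The lower bound for the level function along the sequence, case of contacts.**

Proof: as `Inst.level_lower` (`DD7719/NPos.lean`) for the data `(l, fc l c ex x, 0)` and the sequence
`fun n => (fs l c ex x n).re`: the hypothesis `hv` of `contact_subset`, `cls_bound` is `(goodD_frz …).hv`,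
vanishing above is `van_frz`; `hRR` there is `Inst.rrx_of_cls`; boundedness along the good fibres
(`hbdd`) is `ybound` with `R = 2 ^ pr L`, `M = 2 ^ pbm L`, … applied for `t` with `RRX` to the data of
`Inst.rrx_data` (`i ≠ i'` because of `hpne`). -/
theorem Inst.level_lowerX (C : ℕ) (hC : GapC C) (E : ℕ) (hE : Thr8 E) (P : ℕ)
    (hfr : I.FrozenPositive) (h8 : I.EightPerCircle)
    {l c : ℕ → ℂ} {ex : ℕ → ℕ} (hrd : RootData I.k aR uR l c ex) (hsort : Sorted I.k l) (xr : ℝ)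
    (hxr : 2 ^ ((2 + L) ^ E) < xr)
    (n0 j : ℕ) (hn0 : 0 < n0) (hj : I.k ≤ j)
    (A H : Fin I.k → Fin I.k → ℤ) (D : ℤ) (s : ℕ) (w : Fin I.k → Fin I.k → ℝ)
    (τ : Fin I.k → ℝ) (x : Fin I.k → ℝ) (i0 : Fin I.k)
    (hrep : Rep (fun i : Fin I.k => l i) n0 A s x)
    (hbase : BaseF I.k (fun i => l i) (fc (fun i : Fin I.k => l i) (fun i => c i)
      (fun i => ex i) xr) (fun _ => 0) (2 ^ pmh L) (2 ^ (1 + 2 * L * L + (pdl L + 3) * L))
      (2 / ((2 ^ pq L : ℕ) : ℝ)) (1 / 2 ^ pdl L) n0 j A H D s w τ ‖l i0‖ 0)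
    (hi0 : l i0 ≠ 0)
    (hgP : ∀ i : Fin I.k, ‖l i0‖ < ‖l i‖ →
      gP (fun i : Fin I.k => l i) (fun i => c i) (fun i => ex i) n0 j (l i ^ n0) = 0)
    (z' : Fin I.k → ℂ) (hz' : ∀ t, ‖z' t‖ = 1)
    (hne : (LevF (fun i : Fin I.k => l i) (fc (fun i : Fin I.k => l i) (fun i => c i)
      (fun i => ex i) xr) (fun _ => 0) A s j 0 ‖l i0‖ z').re ≠ 0)
    (hF : ∀ z : Fin I.k → ℂ, (∀ t, ‖z t‖ = 1) →
      0 ≤ (LevF (fun i : Fin I.k => l i) (fc (fun i : Fin I.k => l i) (fun i => c i)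
        (fun i => ex i) xr) (fun _ => 0) A s j 0 ‖l i0‖ z).re)
    (i i' : Fin I.k) (hii : ‖l i‖ = ‖l i'‖) (hpne : l i ^ n0 ≠ l i' ^ n0)
    (hnt : ∀ n : ℕ, 0 < n → l i ^ n ≠ l i' ^ n)
    (hfin : ((fun z : Fin I.k → ℂ => (l i / l i') ^ j * (Wt A s z i / Wt A s z i')) ''
        {z | (∀ t, ‖z t‖ = 1) ∧ (LevF (fun i : Fin I.k => l i) (fc (fun i : Fin I.k => l i)
          (fun i => c i) (fun i => ex i) xr) (fun _ => 0) A s j 0 ‖l i0‖ z).re = 0}).Finite)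
    (hP : ElimP P (fun t y => I.RRX L aR uR (v7 t y (i : ℕ) (i' : ℕ) n0 j xr))) (m : ℕ)
    (hm : (2 + pgd L + 2 ^ (P + 2) + 2 ^ (pg L + 1)) ^ C ≤ n0 * m) :
    Real.exp (-((n0 * m : ℕ) : ℝ) / ((2 ^ (pg L + 1) : ℕ) : ℝ)) / 2 ^ 2 ^ P / 2 ^ 2 ^ P ≤
      (LevF (fun i : Fin I.k => l i) (fc (fun i : Fin I.k => l i) (fun i => c i)
        (fun i => ex i) xr) (fun _ => 0) A s j 0 ‖l i0‖ (orb x m)).re := by
  classical
  have hρ : 0 < ‖l i0‖ := norm_pos_iff.mpr hi0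
  have hi' : l i' ≠ 0 := by
    intro h0
    rw [h0, norm_zero, norm_eq_zero] at hii
    apply hpne
    rw [hii, h0]
  have hine : i ≠ i' := by
    intro h0
    exact hpne (by rw [h0])
  have hγ : ‖l i / l i'‖ = 1 := unit_of_ratio _ _ hii hi'
  have hγnt : ∀ n : ℕ, 0 < n → (l i / l i') ^ n ≠ 1 := by
    intro n hn h1
    rw [div_pow, div_eq_one_iff_eq (pow_ne_zero _ hi')] at h1
    exact hnt n hn h1
  have hgd := I.goodD L hkL hb aR uR ha hu v hv hrd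
  have hfd := goodD_frz _ _ _ _ _ _ _ _ hgd xr
  have hexj : ∀ i : Fin I.k, ex i ≤ j := fun i => ((hrd.1 i i.2).le.trans hj)
  have hexj0 : ∀ i : Fin I.k, (fun _ : Fin I.k => 0) i ≤ j := fun _ => Nat.zero_le j
  have hvan := van_frz (fun i : Fin I.k => l i) (fun i => c i) (fun i => ex i) n0 j hn0 hexj
    ‖l i0‖ hρ.le hgP xr
  have hJ : j = j % n0 + n0 * (j / n0) := (Nat.mod_add_div j n0).symm
  -- finitely many contact values
  have hcf : (contact (fun n => (fs (fun i : Fin I.k => l i) (fun i => c i) (fun i => ex i)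
      xr n).re) n0 (j % n0) (‖l i0‖ ^ n0) (l i / l i')).Finite :=
    hfin.subset (contact_subset _ _ _ n0 j hn0 hexj0 _ hfd.hv ‖l i0‖ hρ hvan A s x hrep i i' hii
      hi' (j % n0) (j / n0) hJ)
  obtain ⟨B, hB⟩ := cls_bound _ _ _ n0 j hn0 hexj0 _ hfd.hv ‖l i0‖ hρ hvan (j % n0) (j / n0) hJ
  set Y : Set ℝ := (fun ζ : ℂ => (ζ / (l i / l i') ^ j).re) ''
    contact (fun n => (fs (fun i : Fin I.k => l i) (fun i => c i) (fun i => ex i) xr n).re) n0
      (j % n0) (‖l i0‖ ^ n0) (l i / l i') with hY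
  have hYf : Y.Finite := hcf.image _
  obtain ⟨q, hq0, hqd, hqc, hq⟩ := hP
  -- the specific certificate
  have hRR : ∀ (z : Fin I.k → ℂ), (∀ t, ‖z t‖ = 1) → ∀ t : ℝ,
      t * (LevF (fun i : Fin I.k => l i) (fc (fun i : Fin I.k => l i) (fun i => c i)
        (fun i => ex i) xr) (fun _ => 0) A s j 0 ‖l i0‖ z).re ≤ 1 →
      I.RRX L aR uR (v7 t (Wt A s z i / Wt A s z i').re (i : ℕ) (i' : ℕ) n0 j xr) := by
    intro z hz t ht
    exact I.rrx_of_cls L hkL hb hbu aR uR ha hu v hv hrd hsort xr n0 j hj A H D s w τ i0 hi0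
      hbase hgP z' hz' hne z hz i i' t _ ht (Or.inr rfl)
  -- boundedness along the good fibres
  have hbdd : ∀ y : ℝ, y ∉ Y → ∃ X : ℝ, ∀ t, I.RRX L aR uR (v7 t y (i : ℕ) (i' : ℕ) n0 j xr) →
      t ≤ X := by
    intro y hy
    obtain ⟨X, hX⟩ := ybound (k := I.k) (fun n => (fs (fun i : Fin I.k => l i) (fun i => c i)
      (fun i => ex i) xr n).re) (2 ^ pr L) (2 ^ pbm L)
      (2 ^ pbn L) (2 / ((2 ^ pq L : ℕ) : ℝ)) (1 / 2 ^ pdl L) n0 hn0 (‖l i0‖ ^ n0) (by positivity)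
      B n0 j hB (l i / l i') hγnt hcf y (fun ζ hζ he => hy ⟨ζ, hζ, he⟩)
    refine ⟨X, fun t ht => ?_⟩
    obtain ⟨g, A1, H1, D1, s1, w1, τ1, ρ1, z1, z1', hg1, hρ1, hb1, hz1, hz1', hne1, hF1, ht1,
      hy1⟩ := I.rrx_data L hkL hb hbu aR uR ha hu v hv E hE hfr h8 hrd hsort xr hxr i i' n0 j t y
        ht
    exact hX t (fun i : Fin I.k => l i) g (fun _ => 0) hg1 A1 H1 D1 s1 w1 τ1 ρ1 0 z1 z1' hb1 hρ1
      hz1 hz1' hne1 hF1 i i' rfl hii hi' (hy1.resolve_left hine) ht1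
  -- the inequality on the good fibres
  have hineq : ∀ z : Fin I.k → ℂ, (∀ t, ‖z t‖ = 1) → (Wt A s z i / Wt A s z i').re ∉ Y →
      |Polynomial.aeval (Wt A s z i / Wt A s z i').re q| ≤
        2 ^ 2 ^ P * (LevF (fun i : Fin I.k => l i) (fc (fun i : Fin I.k => l i) (fun i => c i)
        (fun i => ex i) xr) (fun _ => 0) A s j 0 ‖l i0‖ z).re := by
    intro z hz hy
    have hbd := hbdd _ hy
    have hyle : |(Wt A s z i / Wt A s z i').re| ≤ 2 := by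
      refine (Complex.abs_re_le_norm _).trans ?_
      rw [norm_div, norm_Wt A s z hz, norm_Wt A s z hz]
      norm_num
    have hpos : 0 < (LevF (fun i : Fin I.k => l i) (fc (fun i : Fin I.k => l i) (fun i => c i)
        (fun i => ex i) xr) (fun _ => 0) A s j 0 ‖l i0‖ z).re := by
      refine lt_of_le_of_ne (hF z hz) (fun h0 => ?_)
      obtain ⟨X, hX⟩ := hbd
      have := hX (X + 1) (hRR z hz (X + 1) (by rw [← h0]; simp))
      linarith
    have h1 := hq _ hyle hbd (1 / (LevF (fun i : Fin I.k => l i) (fc (fun i : Fin I.k => l i)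
        (fun i => c i) (fun i => ex i) xr) (fun _ => 0) A s j 0 ‖l i0‖ z).re)
      (hRR z hz _ (by rw [one_div, inv_mul_cancel₀ hpos.ne']))
    rw [mul_one_div, div_le_iff₀ hpos] at h1
    exact h1
  have hall := fibre_dense (fun i : Fin I.k => l i) (fc (fun i : Fin I.k => l i) (fun i => c i)
    (fun i => ex i) xr) (fun _ => 0) n0 j 0 ‖l i0‖ A s x hrep i i' hii hpne
    (fun y => |Polynomial.aeval y q|) (by fun_prop) (2 ^ 2 ^ P) Y hYf hineq (orb x m)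
    (norm_orb x m)
  rw [hrep.chi_orb m i i' hii hi'] at hall
  obtain ⟨g, hg0, hg, hgd, hgc⟩ := exists_ratio_poly I.k I.num I.den L hkL I.den_pos'
    (I.num_le' L hb) (I.den_le' L hb) (l i) (l i') (I.root_eq' aR uR ha hrd i)
    (I.root_eq' aR uR ha hrd i') hi'
  have hlow := trig_lower C hC P (pgd L) (2 ^ (pg L + 1)) (n0 * m) q hq0 hqd hqc (l i / l i') hγ
    hγnt g hg0 hg hgd hgc (by positivity) hm
  rw [div_le_iff₀ (by positivity)]
  exact hlow.trans (hall.trans_eq (mul_comm _ _))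

end

end Pool.Agent.UltPos
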