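import Pool.Agent.FrEight.LowA
import Pool.Agent.FrEight.LowB

/-! The lower bound for the level functions of the frozen sequences, case without zeros. -/

set_option autoImplicit false
set_option linter.unusedSectionVars false

namespace Pool.Agent.UltPos

open Pool.Agent.PT Pool.Agent.AllR Pool.Agent.DD7719.M Pool.Agent.DD7719 Finset Pool.Agent.FrUP

open Filter Topology in
/-- the lower bound of a class with positive values on the torus (as in `cls_liminf`) -/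
private theorem cls_low_LowD {k : ℕ} (l c : Fin k → ℂ) (ex : Fin k → ℕ) (n0 j : ℕ) (hn0 : 0 < n0)
    (hexj : ∀ i, ex i ≤ j) (v : ℕ → ℝ)
    (hv : ∀ n, ∑ i, c i * (n.choose (ex i) : ℂ) * l i ^ (n - ex i) = (v n : ℂ))
    (ρ : ℝ) (hρ : 0 < ρ) (hvan : open scoped Classical in ∀ m, ∑ i, (if Above ρ 0 (l i) (ex i)
        then c i * ((j + n0 * m).choose (ex i) : ℂ) * l i ^ (j + n0 * m - ex i) else 0) = 0)
    (A : Fin k → Fin k → ℤ) (s : ℕ) (x : Fin k → ℝ) (hrep : Rep l n0 A s x)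
    (hpos : ∀ z : Fin k → ℂ, (∀ t, ‖z t‖ = 1) → 0 < (LevF l c ex A s j 0 ρ z).re)
    (J q : ℕ) (hJ : j = J + n0 * q) :
    ∃ b : ℝ, 0 < b ∧ ∀ᶠ m : ℕ in atTop, b ≤ v (n0 * m + J) / (ρ ^ n0) ^ m := by
  classical
  obtain ⟨μ, hμ, hμb⟩ := exists_torus_bound l c ex A s j 0 ρ hpos
  have hlev := GS.level_asym l c ex n0 j hn0 hexj ρ 0 hρ hvan
  have hasym : Tendsto (fun M : ℕ => ((v (j + n0 * M) : ℝ) : ℂ) /
        ((ρ ^ (n0 * M) * (M : ℝ) ^ 0 : ℝ) : ℂ) -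
      ((((j + n0 * M).choose 0 : ℝ) / (M : ℝ) ^ 0 : ℝ) : ℂ) *
        GS.levelSum l c ex n0 j ρ 0 M)
      atTop (𝓝 0) := by
    refine hlev.congr fun M => ?_
    rw [hv]
  obtain ⟨-, -, -, h4⟩ := GS.level_data l c ex n0 j hn0 v ρ 0 hρ hasym
  obtain ⟨b, hb, hb'⟩ := h4 μ hμ (fun M => by
    rw [levelSum_eq l c ex n0 j 0 ρ s A x hrep.1 hrep.2 M]
    exact hμb _ (norm_orb x M))
  have hρn : 0 < ρ ^ n0 := by positivity
  refine ⟨b / (ρ ^ n0) ^ q, by positivity, ?_⟩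
  have hsub : Tendsto (fun m : ℕ => m - q) atTop atTop := tendsto_sub_atTop_nat q
  filter_upwards [hsub.eventually hb', eventually_ge_atTop q] with m h2 hm
  obtain ⟨r, rfl⟩ := Nat.exists_eq_add_of_le hm
  rw [Nat.add_sub_cancel_left, pow_zero, mul_one] at h2
  have e1 : j + n0 * r = n0 * (q + r) + J := by
    rw [hJ]
    ring
  rw [e1] at h2
  rw [div_le_div_iff₀ (by positivity) (by positivity), pow_add]
  have h3 := mul_le_mul_of_nonneg_right h2 (show 0 ≤ (ρ ^ n0) ^ q by positivity)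
  linarith

section
variable (I : Inst) (L : ℕ) (hkL : I.k ≤ L)
    (hb : ∀ i, (I.aNum i).natAbs ≤ 2 ^ L ∧ I.aDen i ≤ 2 ^ L)
    (hbu : ∀ i, (I.uNum i).natAbs ≤ 2 ^ L ∧ I.uDen i ≤ 2 ^ L) (aR uR : ℕ → ℝ)
    (ha : ∀ t (h : t < I.k), aR t = (I.a ⟨t, h⟩ : ℝ)) (hu : ∀ t (h : t < I.k), uR t = (I.u ⟨t, h⟩ : ℝ))
    (v : ℕ → ℚ) (hv : I.IsSeq v)

include hkL hb hbu ha hu hv in
/-- **The lower bound for the level function, case without zeros.**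

Proof. Let `i = i' = 0` (`I.kpos`). The predicate `R t y := RRX (v7 t y 0 0 n0 j xr)` does not depend on
`y`. It is bounded: `u m := (fs l c ex xr m).re` satisfies `|u (n0 * m + j % n0)| ≤ B * (‖l i0‖ ^ n0) ^ m`
(`cls_bound`) and `b * (‖l i0‖ ^ n0) ^ m ≤ u (n0 * m + j % n0)` for large `m`, with some `b > 0` (as in
`Inst.tm_of_cls`: `exists_torus_bound`, `level_asym`, `level_data`, `levelSum_eq`). For the data of
`Inst.rrx_data` `nar_cls` with `N = n0`, `ρJ = ‖l i0‖ ^ n0` (the quotient does not tend to `0` because of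
`b`) says that
`u (n0 * m + j % n0) / ρJ ^ m` comes arbitrarily close to `(LevF … z1).re / ρJ ^ (j / n0)` for
arbitrarily large `m`, so this value is at least `b`, hence `t ≤ 1 / (b * ρJ ^ (j / n0))`
(from `t * (LevF …).re ≤ 1`, `t > 0`).

Now let `q` be the polynomial of `hP`, `y` a point of `exists_point P q`, and `t = 1 / (LevF … z).re`: by
`Inst.rrx_of_cls`, `|q y| * t ≤ 2 ^ 2 ^ P`, so
`1 ≤ 2 ^ (2 ^ P * (P + 1)) * |q y| ≤ 2 ^ (2 ^ P * (P + 1) + 2 ^ P) * (LevF … z).re`, and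
`2 ^ P * (P + 2) ≤ 2 ^ (2 * P + 2)`. -/
theorem Inst.level_lower_pos (E : ℕ) (hE : Thr8 E) (P : ℕ)
    (hfr : I.FrozenPositive) (h8 : I.EightPerCircle)
    {l c : ℕ → ℂ} {ex : ℕ → ℕ} (hrd : RootData I.k aR uR l c ex) (hsort : Sorted I.k l) (xr : ℝ)
    (hxr : 2 ^ ((2 + L) ^ E) < xr)
    (n0 j : ℕ) (hn0 : 0 < n0) (hj : I.k ≤ j)
    (A H : Fin I.k → Fin I.k → ℤ) (D : ℤ) (s : ℕ) (w : Fin I.k → Fin I.k → ℝ)
    (τ : Fin I.k → ℝ) (x : Fin I.k → ℝ) (i0 : Fin I.k)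
    (hrep : Rep (fun i : Fin I.k => l i) n0 A s x)
    (hbase : BaseF I.k (fun i => l i) (fc (fun i : Fin I.k => l i) (fun i => c i)
      (fun i => ex i) xr) (fun _ => 0) (2 ^ pmh L) (2 ^ (1 + 2 * L * L + (pdl L + 3) * L))
      (2 / ((2 ^ pq L : ℕ) : ℝ)) (1 / 2 ^ pdl L) n0 j A H D s w τ ‖l i0‖ 0)
    (hi0 : l i0 ≠ 0)
    (hgP : ∀ i : Fin I.k, ‖l i0‖ < ‖l i‖ →
      gP (fun i : Fin I.k => l i) (fun i => c i) (fun i => ex i) n0 j (l i ^ n0) = 0)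
    (hpos : ∀ z : Fin I.k → ℂ, (∀ t, ‖z t‖ = 1) →
      0 < (LevF (fun i : Fin I.k => l i) (fc (fun i : Fin I.k => l i) (fun i => c i)
        (fun i => ex i) xr) (fun _ => 0) A s j 0 ‖l i0‖ z).re)
    (hP : ElimP P (fun t y => I.RRX L aR uR (v7 t y (0 : ℕ) (0 : ℕ) n0 j xr)))
    (z : Fin I.k → ℂ) (hz : ∀ t, ‖z t‖ = 1) :
    1 / 2 ^ 2 ^ (2 * P + 2) ≤
      (LevF (fun i : Fin I.k => l i) (fc (fun i : Fin I.k => l i) (fun i => c i)
        (fun i => ex i) xr) (fun _ => 0) A s j 0 ‖l i0‖ z).re := by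
  classical
  obtain ⟨lF, hlF⟩ : ∃ lF : Fin I.k → ℂ, lF = fun i : Fin I.k => l i := ⟨_, rfl⟩
  obtain ⟨cF, hcF⟩ : ∃ cF : Fin I.k → ℂ, cF = fun i : Fin I.k => c i := ⟨_, rfl⟩
  obtain ⟨eF, heF⟩ : ∃ eF : Fin I.k → ℕ, eF = fun i : Fin I.k => ex i := ⟨_, rfl⟩
  have hρ : 0 < ‖l i0‖ := norm_pos_iff.mpr hi0
  have hJ : j = j % n0 + n0 * (j / n0) := (Nat.mod_add_div j n0).symm
  -- the frozen sequence
  obtain ⟨u, hu'⟩ : ∃ u : ℕ → ℝ, u = fun n => (fs (fun i : Fin I.k => l i) (fun i => c i)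
    (fun i => ex i) xr n).re := ⟨_, rfl⟩
  have hgood : GoodD I.k (fun i => l i) (fc (fun i : Fin I.k => l i) (fun i => c i)
      (fun i => ex i) xr) (fun _ => 0) (2 ^ pr L) (2 ^ pbm L) (2 / ((2 ^ pq L : ℕ) : ℝ))
        (1 / 2 ^ pdl L) u := by
    rw [hu']
    exact goodD_frz _ _ _ _ _ _ _ _ (I.goodD L hkL hb aR uR ha hu v hv hrd) xr
  have hexj : ∀ i : Fin I.k, ex i ≤ j := fun i => ((hrd.1 i i.2).le.trans hj)
  have hvan := van_frz (fun i : Fin I.k => l i) (fun i => c i) (fun i => ex i) n0 j hn0 hexj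
    ‖l i0‖ hρ.le hgP xr
  obtain ⟨B, hB⟩ := cls_bound (fun i : Fin I.k => l i) (fc (fun i : Fin I.k => l i) (fun i => c i)
      (fun i => ex i) xr) (fun _ => 0) n0 j hn0 (fun _ => Nat.zero_le _) u hgood.hv ‖l i0‖ hρ
      hvan (j % n0) (j / n0) hJ
  obtain ⟨b, hb0, hb1⟩ := cls_low_LowD (fun i : Fin I.k => l i) (fc (fun i : Fin I.k => l i)
      (fun i => c i) (fun i => ex i) xr) (fun _ => 0) n0 j hn0 (fun _ => Nat.zero_le _) u
      hgood.hv ‖l i0‖ hρ hvan A s x hrep hpos (j % n0) (j / n0) hJ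
  have hρn : 0 < ‖l i0‖ ^ n0 := by positivity
  have hρj : 0 < (‖l i0‖ ^ n0) ^ (j / n0) := by positivity
  obtain ⟨a, ha'⟩ : ∃ a : Fin I.k, (a : ℕ) = 0 := ⟨⟨0, I.kpos⟩, rfl⟩
  obtain ⟨q, hq0, hqd, -, hq⟩ := hP
  obtain ⟨y, hy1, hy2⟩ := exists_point P q hq0 hqd
  -- boundedness
  have hbdd : ∃ X : ℝ, ∀ t, I.RRX L aR uR (v7 t y (0 : ℕ) (0 : ℕ) n0 j xr) → t ≤ X := by
    refine ⟨1 / (b * (‖l i0‖ ^ n0) ^ (j / n0)), fun t ht => ?_⟩
    rcases le_or_gt t 0 with ht0 | ht0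
    · exact ht0.trans (by positivity)
    have ht' : I.RRX L aR uR (v7 t y (a : ℕ) (a : ℕ) n0 j xr) := by rw [ha']; exact ht
    obtain ⟨g, A1, H1, D1, s1, w1, τ1, ρ1, z1, z1', g1, g2, g3, g4, g5, g6, g7, g8, -⟩ :=
      I.rrx_data L hkL hb hbu aR uR ha hu v hv E hE hfr h8 hrd hsort xr hxr a a n0 j t y ht'
    rw [← hu'] at g1
    have hnot : ¬ Filter.Tendsto (fun n : ℕ => u (n0 * (j / n0 + n0 * n) + j % n0) /
        (‖l i0‖ ^ n0) ^ (j / n0 + n0 * n)) Filter.atTop (nhds 0) := by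
      intro h0
      have h1 : Filter.Tendsto (fun n : ℕ => j / n0 + n0 * n) Filter.atTop Filter.atTop :=
        Filter.tendsto_atTop_mono (fun n => (Nat.le_mul_of_pos_left n hn0).trans
          (Nat.le_add_left _ _)) Filter.tendsto_id
      have h2 : b ≤ 0 := ge_of_tendsto h0 (h1.eventually hb1)
      linarith
    obtain ⟨-, hap⟩ := nar_cls (fun i : Fin I.k => l i) g (fun _ => 0) (2 ^ pr L) (2 ^ pbm L)
      (2 ^ pbn L) (2 / ((2 ^ pq L : ℕ) : ℝ)) (1 / 2 ^ pdl L) u g1 n0 j A1 H1 D1 s1 w1 τ1 ρ1 0 g3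
      g2 z1' g5 g6 n0 hn0 (‖l i0‖ ^ n0) B hρn hB hnot
    have hV : b ≤ (LevF (fun i : Fin I.k => l i) g (fun _ => 0) A1 s1 j 0 ρ1 z1).re /
        (‖l i0‖ ^ n0) ^ (j / n0) := by
      refine le_of_forall_pos_sub_le fun κ hκ => ?_
      obtain ⟨N1, hN1⟩ := Filter.eventually_atTop.1 hb1
      obtain ⟨m, hm, hm1, -⟩ := hap z1 g4 κ hκ N1
      have h3 := hN1 m hm
      have h4 := (abs_le.1 hm1).2
      linarith
    rw [le_div_iff₀ hρj] at hV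
    rw [le_div_iff₀ (by positivity)]
    exact (mul_le_mul_of_nonneg_left hV ht0.le).trans g8
  -- the value at the point
  obtain ⟨V, hVd⟩ : ∃ V : ℝ, V = (LevF (fun i : Fin I.k => l i) (fc (fun i : Fin I.k => l i)
    (fun i => c i) (fun i => ex i) xr) (fun _ => 0) A s j 0 ‖l i0‖ z).re := ⟨_, rfl⟩
  have hV0 : 0 < V := by rw [hVd]; exact hpos z hz
  have hR := I.rrx_of_cls L hkL hb hbu aR uR ha hu v hv hrd hsort xr n0 j hj A H D s w τ i0 hi0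
    hbase hgP z hz (by rw [← hVd]; exact hV0.ne') z hz a a (1 / V) y
    (by rw [← hVd, one_div, inv_mul_cancel₀ hV0.ne']) (Or.inl rfl)
  rw [ha'] at hR
  have h1 := hq y (hy1.trans (by norm_num)) hbdd (1 / V) hR
  rw [mul_one_div, div_le_iff₀ hV0] at h1
  rw [← hVd]
  have h2 : (1 : ℝ) ≤ 2 ^ (2 ^ P * (P + 1)) * (2 ^ 2 ^ P * V) :=
    hy2.trans (mul_le_mul_of_nonneg_left h1 (by positivity))
  have h3 : (2 : ℝ) ^ (2 ^ P * (P + 1)) * (2 ^ 2 ^ P * V) = 2 ^ (2 ^ P * (P + 1) + 2 ^ P) * V := by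
    rw [pow_add]
    ring
  have h4 : 2 ^ P * (P + 1) + 2 ^ P ≤ 2 ^ (2 * P + 2) := by
    have h5 : P + 2 ≤ 2 ^ (P + 2) := Nat.lt_two_pow_self.le
    calc 2 ^ P * (P + 1) + 2 ^ P = 2 ^ P * (P + 2) := by ring
      _ ≤ 2 ^ P * 2 ^ (P + 2) := Nat.mul_le_mul_left _ h5
      _ = 2 ^ (2 * P + 2) := by
        rw [← pow_add]
        congr 1
        ring
  have h6 : (2 : ℝ) ^ (2 ^ P * (P + 1) + 2 ^ P) ≤ 2 ^ 2 ^ (2 * P + 2) :=
    pow_le_pow_right₀ (by norm_num) h4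
  rw [div_le_iff₀ (by positivity)]
  rw [h3] at h2
  have h7 := mul_le_mul_of_nonneg_right h6 hV0.le
  linarith

end

end Pool.Agent.UltPos
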