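import Pool.Agent.FrEight.Frz
import Pool.Agent.FrEight.QRE

/-! A point where an integer polynomial is not small; certificates from class data. -/

set_option autoImplicit false
set_option linter.unusedSectionVars false

namespace Pool.Agent.UltPos

open Pool.Agent.PT Pool.Agent.AllR Pool.Agent.DD7719.M Pool.Agent.DD7719 Finset Pool.Agent.FrUP

/-- An integer polynomial of degree at most `2 ^ P` takes a value of absolute value at least
`2 ^ (- 2 ^ P * (P + 1))` at a point of `[0, 1]`. With `D = q.natDegree` one of the `D + 1` numbers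
`i / (D + 1)`, `i ≤ D`, is not a root (`Polynomial.card_roots'`), and `(D + 1) ^ D * q (i / (D + 1))`
is an integer; `(D + 1) ^ D ≤ (2 ^ (P + 1)) ^ (2 ^ P)`. -/
theorem exists_point (P : ℕ) (q : Polynomial ℤ) (hq : q ≠ 0) (hd : q.natDegree ≤ 2 ^ P) :
    ∃ y : ℝ, |y| ≤ 1 ∧ 1 ≤ 2 ^ (2 ^ P * (P + 1)) * |Polynomial.aeval y q| := by
  classical
  set D := q.natDegree with hD
  have hD1 : (0 : ℝ) < (D : ℝ) + 1 := by positivity
  obtain ⟨i, hi⟩ : ∃ i : Fin (D + 1),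
      (q.map (Int.castRingHom ℝ)).eval ((i : ℕ) / ((D : ℝ) + 1) : ℝ) ≠ 0 := by
    by_contra hcon
    push Not at hcon
    have h1 : q.map (Int.castRingHom ℝ) = 0 := by
      refine Polynomial.eq_zero_of_natDegree_lt_card_of_eval_eq_zero _
        (f := fun i : Fin (D + 1) => (((i : ℕ) : ℝ) / ((D : ℝ) + 1))) ?_ hcon ?_
      · intro a b hab
        have h2 : ((a : ℕ) : ℝ) = ((b : ℕ) : ℝ) := by
          have h3 := hab
          simp only at h3
          field_simp at h3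
          exact h3
        exact Fin.ext (by exact_mod_cast h2)
      · rw [Fintype.card_fin]
        exact lt_of_le_of_lt Polynomial.natDegree_map_le (by omega)
    exact hq ((Polynomial.map_eq_zero_iff (RingHom.injective_int _)).mp h1)
  set y : ℝ := ((i : ℕ) : ℝ) / ((D : ℝ) + 1) with hy
  have hyq : Polynomial.aeval y q ≠ 0 := by
    rw [Polynomial.aeval_def, Polynomial.eval₂_eq_eval_map]
    exact hi
  have hy0 : 0 ≤ y := by positivity
  have hy1 : y ≤ 1 := by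
    rw [hy, div_le_one hD1]
    have h1 : ((i : ℕ) : ℝ) ≤ (D : ℝ) := by exact_mod_cast Nat.lt_succ_iff.mp i.2
    linarith
  refine ⟨y, by rw [abs_of_nonneg hy0]; exact hy1, ?_⟩
  have hsc : ((D : ℝ) + 1) ^ D * Polynomial.aeval y q =
      (((q.scaleRoots ((D : ℤ) + 1)).eval ((i : ℕ) : ℤ) : ℤ) : ℝ) := by
    have h1 := Polynomial.scaleRoots_eval₂_mul (p := q) (algebraMap ℤ ℝ) y ((D : ℤ) + 1)
    have h2 : (algebraMap ℤ ℝ) ((D : ℤ) + 1) = (D : ℝ) + 1 := by simp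
    rw [h2] at h1
    have h3 : ((D : ℝ) + 1) * y = (((i : ℕ) : ℤ) : ℝ) := by
      rw [hy]
      push_cast
      field_simp
    rw [h3] at h1
    have h4 : Polynomial.eval₂ (algebraMap ℤ ℝ) (((i : ℕ) : ℤ) : ℝ)
        (q.scaleRoots ((D : ℤ) + 1)) =
        (((q.scaleRoots ((D : ℤ) + 1)).eval ((i : ℕ) : ℤ) : ℤ) : ℝ) := by
      simp
    rw [← h4, h1, Polynomial.aeval_def]
  have hne : ((q.scaleRoots ((D : ℤ) + 1)).eval ((i : ℕ) : ℤ) : ℤ) ≠ 0 := by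
    intro h0
    rw [h0, Int.cast_zero] at hsc
    exact (mul_ne_zero (pow_ne_zero _ hD1.ne') hyq) hsc
  have hge : (1 : ℝ) ≤ ((D : ℝ) + 1) ^ D * |Polynomial.aeval y q| := by
    have h1 : (1 : ℤ) ≤ |(q.scaleRoots ((D : ℤ) + 1)).eval ((i : ℕ) : ℤ)| :=
      Int.one_le_abs hne
    have h2 : ((D : ℝ) + 1) ^ D * |Polynomial.aeval y q| =
        |((D : ℝ) + 1) ^ D * Polynomial.aeval y q| := by
      rw [abs_mul, abs_of_pos (pow_pos hD1 D)]
    rw [h2, hsc]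
    exact_mod_cast h1
  refine hge.trans (mul_le_mul_of_nonneg_right ?_ (abs_nonneg _))
  have h5 : (D : ℝ) + 1 ≤ 2 ^ (P + 1) := by
    have h6 : D + 1 ≤ 2 ^ (P + 1) := by
      have := Nat.one_le_two_pow (n := P)
      rw [pow_succ]
      omega
    exact_mod_cast h6
  calc ((D : ℝ) + 1) ^ D ≤ (2 ^ (P + 1)) ^ D := pow_le_pow_left₀ hD1.le h5 _
    _ ≤ (2 ^ (P + 1)) ^ (2 ^ P) := pow_le_pow_right₀ (one_le_pow₀ (by norm_num)) hd
    _ = 2 ^ (2 ^ P * (P + 1)) := by rw [← pow_mul, mul_comm]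

section
variable (I : Inst) (L : ℕ) (hkL : I.k ≤ L)
    (hb : ∀ i, (I.aNum i).natAbs ≤ 2 ^ L ∧ I.aDen i ≤ 2 ^ L)
    (hbu : ∀ i, (I.uNum i).natAbs ≤ 2 ^ L ∧ I.uDen i ≤ 2 ^ L) (aR uR : ℕ → ℝ)
    (ha : ∀ t (h : t < I.k), aR t = (I.a ⟨t, h⟩ : ℝ)) (hu : ∀ t (h : t < I.k), uR t = (I.u ⟨t, h⟩ : ℝ))
    (v : ℕ → ℚ) (hv : I.IsSeq v)

include hkL hb hbu ha hu hv in
/-- **Certificates from the class data.** Converse of `rrx_data` for the class data at `x`: the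
certificate with `l, c, ex, n0, j, ext2 0 A, …` as `hRR` in `Inst.level_lower`; the base data are
`(base_unfrz …).toN` with `d = I.k - 1`, and `LX_ext`, `levF_frz` translate the level function. -/
theorem Inst.rrx_of_cls {l c : ℕ → ℂ} {ex : ℕ → ℕ} (hrd : RootData I.k aR uR l c ex)
    (hsort : Sorted I.k l) (x : ℝ) (n0 j : ℕ) (hj : I.k ≤ j)
    (A H : Fin I.k → Fin I.k → ℤ) (D : ℤ) (s : ℕ) (w : Fin I.k → Fin I.k → ℝ)
    (τ : Fin I.k → ℝ) (i0 : Fin I.k) (hi0 : l i0 ≠ 0)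
    (hbase : BaseF I.k (fun i => l i) (fc (fun i : Fin I.k => l i) (fun i => c i)
      (fun i => ex i) x) (fun _ => 0) (2 ^ pmh L) (2 ^ (1 + 2 * L * L + (pdl L + 3) * L))
      (2 / ((2 ^ pq L : ℕ) : ℝ)) (1 / 2 ^ pdl L) n0 j A H D s w τ ‖l i0‖ 0)
    (hgP : ∀ i : Fin I.k, ‖l i0‖ < ‖l i‖ →
      gP (fun i : Fin I.k => l i) (fun i => c i) (fun i => ex i) n0 j (l i ^ n0) = 0)
    (z' : Fin I.k → ℂ) (hz' : ∀ t, ‖z' t‖ = 1)
    (hne : (LevF (fun i : Fin I.k => l i) (fc (fun i : Fin I.k => l i) (fun i => c i)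
      (fun i => ex i) x) (fun _ => 0) A s j 0 ‖l i0‖ z').re ≠ 0)
    (z : Fin I.k → ℂ) (hz : ∀ t, ‖z t‖ = 1) (i i' : Fin I.k) (t y : ℝ)
    (ht : t * (LevF (fun i : Fin I.k => l i) (fc (fun i : Fin I.k => l i) (fun i => c i)
      (fun i => ex i) x) (fun _ => 0) A s j 0 ‖l i0‖ z).re ≤ 1)
    (hy : i = i' ∨ (Wt A s z i / Wt A s z i').re = y) :
    I.RRX L aR uR (v7 t y (i : ℕ) (i' : ℕ) n0 j x) := by
  classical
  have hρ : 0 < ‖l i0‖ := norm_pos_iff.mpr hi0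
  have hk : 0 < I.k := lt_of_le_of_lt (Nat.zero_le _) i0.2
  have hexk : ∀ i, i < I.k → ex i < I.k := hrd.1
  have hexj : ∀ i : Fin I.k, ex i ≤ j := fun i => (hexk i i.2).le.trans hj
  have hb1 := base_unfrz (fun i : Fin I.k => l i) (fun i => c i) (fun i => ex i) hk
    (fun i => hexk i i.2) _ _ _ _ n0 j A H D s w τ ‖l i0‖ x hbase hgP
  refine ⟨l, c, ex, hrd, n0, j, ext2 0 A, ext2 0 H, D, s, ext2 0 w, ext1 0 τ, ext1 1 z,
    ext1 1 z', fun _ _ => 1, fun _ _ => 1, ‖l i0‖, I.k - 1, hb1.toN (two_pow_lt_pbm L)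
    (two_pow_lt_pbn L), ?_, ?_, ?_⟩
  · rw [forall_fin]
    intro t
    rw [ext1_fin]
    exact hz t
  · rw [forall_fin]
    intro t
    rw [ext1_fin]
    exact hz' t
  · unfold QRX
    have hx6 : v7 t y (i : ℕ) (i' : ℕ) n0 j x 6 = x := rfl
    have hx0 : v7 t y (i : ℕ) (i' : ℕ) n0 j x 0 = t := rfl
    rw [hx6, hx0, LX_ext l c ex hexk A s j ‖l i0‖ x z (ext1 1 z) (ext1_fin 1 z),
      LX_ext l c ex hexk A s j ‖l i0‖ x z' (ext1 1 z') (ext1_fin 1 z'),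
      ← levF_frz (fun i : Fin I.k => l i) (fun i => c i) (fun i => ex i) A s j hexj ‖l i0‖ hρ x z,
      ← levF_frz (fun i : Fin I.k => l i) (fun i => c i) (fun i => ex i) A s j hexj ‖l i0‖ hρ x z']
    refine ⟨hρ, by omega, hne, hsort, ⟨rfl, rfl⟩, ht, i, i.2, i', i'.2, ⟨rfl, rfl⟩, ?_⟩
    rw [wtN_ext A s z (ext1 1 z) (ext1_fin 1 z) i, wtN_ext A s z (ext1 1 z) (ext1_fin 1 z) i']
    rcases hy with hy | hy
    · exact Or.inl (congrArg _ hy)
    · exact Or.inr hy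

end

end Pool.Agent.UltPos
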