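import Pool.Agent.FrEight.Frz
import Pool.Agent.DD7719.MThresh

/-! Frozen positive sequences have nonnegative circle sums. -/

set_option autoImplicit false

namespace Pool.Agent.FrUP

open Finset Polynomial Filter Topology
open Pool.Agent.DD7719.M Pool.Agent.DD7719.M.GS

variable {k : ℕ}

private theorem Orbit_rat (l c : Fin k → ℂ) (ex : Fin k → ℕ) (hex : ∀ i, ex i < k) (x : ℝ)
    (N : ℕ) (hτ : ∀ n : ℕ, N ≤ n → 0 < (fs l c ex x n).re)
    (n0 j : ℕ) (hn0 : 0 < n0) (hj : k ≤ j) (ρ : ℝ) (hρ : 0 < ρ)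
    (hgP : ∀ i, ρ < ‖l i‖ → gP l c ex n0 j (l i ^ n0) = 0) (m : ℕ) :
    0 ≤ (SX l c ex n0 j ρ x m).re := by
  classical
  have hexj : ∀ i, ex i ≤ j := fun i => (hex i).le.trans hj
  have h1 := level_asym l (fc l c ex x) (fun _ => 0) n0 j hn0 (fun _ => Nat.zero_le _) ρ 0 hρ
    (van_frz l c ex n0 j hn0 hexj ρ hρ.le hgP x)
  have h2 : Tendsto (fun M : ℕ => fs l c ex x (j + n0 * M) / ((ρ ^ (n0 * M) : ℝ) : ℂ) -
      SX l c ex n0 j ρ x M) atTop (𝓝 0) := by
    refine h1.congr fun M => ?_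
    rw [levelSum_frz l c ex n0 j hexj ρ hρ x M]
    simp [fs]
  by_contra hneg
  push Not at hneg
  set S : ℝ := ∑ i, ‖c i * ((bc (ex i) x : ℝ) : ℂ) * l i ^ (j - ex i)‖ with hS
  have hS0 : 0 ≤ S := Finset.sum_nonneg fun _ _ => norm_nonneg _
  set η : ℝ := -(SX l c ex n0 j ρ x m).re / 3 with hη
  have hη0 : 0 < η := by
    rw [hη]
    linarith
  obtain ⟨M1, hM1⟩ := Filter.eventually_atTop.mp (Metric.tendsto_nhds.mp h2 η hη0)
  obtain ⟨t, ht, hret⟩ := simul_return (fun i : Fin k => nz (l i) ^ n0)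
    (fun i => by rw [norm_pow, norm_nz, one_pow]) (N + M1) (η / (S + 1)) (by positivity)
  have h3 : ‖SX l c ex n0 j ρ x (m + t) - SX l c ex n0 j ρ x m‖ ≤ η := by
    have e1 : SX l c ex n0 j ρ x (m + t) - SX l c ex n0 j ρ x m =
        ∑ i, (if ‖l i‖ = ρ then (c i * ((bc (ex i) x : ℝ) : ℂ) * l i ^ (j - ex i)) *
          ((nz (l i) ^ n0) ^ m * ((nz (l i) ^ n0) ^ t - 1)) else 0) := by
      unfold SX
      rw [← Finset.sum_sub_distrib]
      refine Finset.sum_congr rfl fun i _ => ?_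
      split_ifs
      · rw [pow_add]
        ring
      · ring
    rw [e1]
    calc ‖∑ i, (if ‖l i‖ = ρ then (c i * ((bc (ex i) x : ℝ) : ℂ) * l i ^ (j - ex i)) *
          ((nz (l i) ^ n0) ^ m * ((nz (l i) ^ n0) ^ t - 1)) else 0)‖
        ≤ ∑ i, ‖(if ‖l i‖ = ρ then (c i * ((bc (ex i) x : ℝ) : ℂ) * l i ^ (j - ex i)) *
          ((nz (l i) ^ n0) ^ m * ((nz (l i) ^ n0) ^ t - 1)) else 0)‖ := norm_sum_le _ _
      _ ≤ ∑ i, ‖c i * ((bc (ex i) x : ℝ) : ℂ) * l i ^ (j - ex i)‖ * (η / (S + 1)) := by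
        refine Finset.sum_le_sum fun i _ => ?_
        have e2 : 0 ≤ η / (S + 1) := by positivity
        split_ifs with h
        · have e3 : ‖(nz (l i) ^ n0) ^ m * ((nz (l i) ^ n0) ^ t - 1)‖ ≤ η / (S + 1) := by
            rw [norm_mul, norm_pow, norm_pow, norm_nz, one_pow, one_pow, one_mul]
            exact (hret i).le
          rw [norm_mul]
          exact mul_le_mul_of_nonneg_left e3 (norm_nonneg _)
        · rw [norm_zero]
          positivity
      _ = S * (η / (S + 1)) := by rw [← Finset.sum_mul]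
      _ ≤ η := by
        rw [mul_div_assoc', div_le_iff₀ (by linarith)]
        nlinarith
  have h4 := (Complex.re_le_norm _).trans h3
  rw [Complex.sub_re] at h4
  have h5 := hM1 (m + t) (by omega)
  rw [dist_zero_right] at h5
  have h6 := (Complex.re_le_norm _).trans h5.le
  rw [Complex.sub_re, Complex.div_ofReal_re] at h6
  have h7 := hτ (j + n0 * (m + t)) (by
    have := Nat.le_mul_of_pos_left (m + t) hn0
    omega)
  have h8 : 0 < (fs l c ex x (j + n0 * (m + t))).re / ρ ^ (n0 * (m + t)) :=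
    div_pos h7 (by positivity)
  linarith

private theorem Orbit_cont (l c : Fin k → ℂ) (ex : Fin k → ℕ) (n0 j : ℕ) (ρ : ℝ) (m : ℕ) :
    Continuous fun x : ℝ => (SX l c ex n0 j ρ x m).re := by
  unfold SX
  apply Complex.continuous_re.comp
  apply continuous_finsetSum
  intro i _
  split_ifs
  · exact ((continuous_const.mul (Complex.continuous_ofReal.comp (continuous_bc _))).mul
      continuous_const).mul continuous_const
  · exact continuous_const

/-- **The circle sums of a frozen positive sequence are nonnegative.**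

Proof. First let `x` be rational, `x ≥ τ`. By `van_frz` and `level_asym` for the data
`(l, fc l c ex x, 0)` (`fs` is their sequence, `(fs l c ex x n).re = fs l c ex x n` by `fs_real`;
`ρ ^ (n0 * M) * M ^ 0`, `choose _ 0 = 1`) and `levelSum_frz`,
`fs l c ex x (j + n0 * M) / ρ ^ (n0 * M) - SX l c ex n0 j ρ x M → 0`. Suppose
`(SX … m).re = - 3 η < 0`. With `S = ∑ i, ‖c i * bc (ex i) x * l i ^ (j - ex i)‖`, `simul_return`
(`DD7719/MThresh.lean`, numbers `nz (l i) ^ n0`) gives arbitrarily large `t` with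
`‖(nz (l i) ^ n0) ^ t - 1‖ < η / (S + 1)` for all `i`, so `‖SX (m + t) - SX m‖ ≤ η` (norms of
`nz` are `1`), hence `(SX (m + t)).re ≤ - 2 η` for arbitrarily large `t`, and then
`(fs l c ex x (j + n0 * (m + t))).re / ρ ^ _ ≤ - η < 0` for such large `t`, against `hτ`.

For real `x ≥ τ`: `x ↦ (SX l c ex n0 j ρ x m).re` is continuous (`continuous_bc`), the set where it
is nonnegative is closed and contains the rationals `≥ τ`, which are dense in `[τ, ∞)` (for `x > τ`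
use `exists_rat_btwn`; `x = τ` is rational). -/
theorem orbit_nonneg (l c : Fin k → ℂ) (ex : Fin k → ℕ) (hk : 0 < k) (hex : ∀ i, ex i < k)
    (v : ℕ → ℝ)
    (hv : ∀ n, ∑ i, c i * (n.choose (ex i) : ℂ) * l i ^ (n - ex i) = (v n : ℂ)) (τ : ℚ)
    (hτ : ∀ x : ℚ, τ ≤ x → ∃ N : ℕ, ∀ n : ℕ, N ≤ n → 0 < (fs l c ex (x : ℝ) n).re)
    (n0 j : ℕ) (hn0 : 0 < n0) (hj : k ≤ j) (ρ : ℝ) (hρ : 0 < ρ)
    (hgP : ∀ i, ρ < ‖l i‖ → gP l c ex n0 j (l i ^ n0) = 0) (x : ℝ) (hx : (τ : ℝ) ≤ x) (m : ℕ) :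
    0 ≤ (SX l c ex n0 j ρ x m).re := by
  have hrat : ∀ q : ℚ, τ ≤ q → 0 ≤ (SX l c ex n0 j ρ (q : ℝ) m).re := by
    intro q hq
    obtain ⟨N, hN⟩ := hτ q hq
    exact Orbit_rat l c ex hex (q : ℝ) N hN n0 j hn0 hj ρ hρ hgP m
  rcases hx.eq_or_lt with h | h
  · rw [← h]
    exact hrat τ le_rfl
  · by_contra hneg
    push Not at hneg
    have h1 := ((Orbit_cont l c ex n0 j ρ m).tendsto x).eventually (gt_mem_nhds hneg)
    have h2 : ∀ᶠ y in 𝓝 x, (τ : ℝ) < y := lt_mem_nhds h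
    obtain ⟨δ, hδ, h3⟩ := Metric.eventually_nhds_iff.mp (h1.and h2)
    obtain ⟨q, hq1, hq2⟩ := exists_rat_btwn (show x < x + δ by linarith)
    have h4 := @h3 (q : ℝ) (by
      rw [Real.dist_eq, abs_lt]
      constructor <;> linarith)
    have h5 := hrat q (by exact_mod_cast h4.2.le)
    linarith [h4.1]

/-- If all coefficient polynomials of the class of `j` vanish, the frozen sequences vanish on the
class: `fs l c ex x (j + n0 * m) = 0` by `sum_eq_zero_of_gP'` (condition `l i ≠ 0`,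
`T X = X ^ m`) and `fc_mul_pow` (`fc = 0` where `l i = 0`). -/
theorem fs_zero_of_gP (l c : Fin k → ℂ) (ex : Fin k → ℕ) (n0 j : ℕ) (hn0 : 0 < n0)
    (hexj : ∀ i, ex i ≤ j) (h : ∀ i, l i ≠ 0 → gP l c ex n0 j (l i ^ n0) = 0) (x : ℝ) (m : ℕ) :
    fs l c ex x (j + n0 * m) = 0 := by
  classical
  have h1 := sum_eq_zero_of_gP' l c ex n0 j (fun i => l i ≠ 0) (by
    intro i i' h0 h1 h2
    rw [h2, zero_pow hn0.ne'] at h0
    exact h1 (pow_eq_zero_iff hn0.ne' |>.mp h0)) h (x : ℂ) (fun X => X ^ m)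
  unfold fs
  refine Eq.trans (Finset.sum_congr rfl fun i _ => ?_) h1
  by_cases hi : l i = 0
  · rw [if_neg (by simpa using hi), fc, if_pos hi, zero_mul]
  · rw [if_pos hi, pow_add, ← mul_assoc, fc_mul_pow l c ex x j i (hexj i) hi, bcP_eval_real, pow_mul]

end Pool.Agent.FrUP
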