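import Pool.Agent.RElim.PUnb

/-! Existential real conditions with two real parameters and five pinned integer parameters, whose
size is independent of the size of the condition. -/

set_option autoImplicit false

namespace Pool.Agent.RElim.Par

open Finset MvPolynomial Pool.Agent.PT Pool.Agent.AllR

/-- the exponent of the factor of the bound -/
def PE5 (w : ℕ) : ℕ := 8 * w + 6

/-- The bound `Bd` is only exponential in the number of bits `c` of `a`. From the proof of `Bd_le`: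
`(5 ^ w)! ≤ 2 ^ 2 ^ (5 * w)` and the second factor is at most
`2 ^ (((3 + c) * (4 * w + 1) + 1) * 2 ^ (3 * w))`; then
`2 ^ (5 * w) + ((3 + c) * (4 * w + 1) + 1) * 2 ^ (3 * w) ≤ (c + 1) * 2 ^ PE5 w`
(`(3 + c) * (4 * w + 1) + 1 ≤ (c + 1) * (12 * w + 4)`, `12 * w + 4 ≤ 2 ^ (4 * w + 4)`). -/
theorem Bd_le5 (w c a : ℕ) (ha : a ≤ 2 ^ c) : Bd w a ≤ 2 ^ ((c + 1) * 2 ^ PE5 w) := by
  have h5 : 5 ^ w ≤ 2 ^ (3 * w) := by
    rw [pow_mul]
    exact Nat.pow_le_pow_left (by norm_num) _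
  have hw : w + 1 ≤ 2 ^ w := Nat.lt_two_pow_self
  have h1 : (5 ^ w).factorial ≤ 2 ^ 2 ^ (5 * w) := by
    have h3 : 3 * w ≤ 2 ^ (2 * w) := by
      have h4 : 2 ^ (2 * w) = 2 ^ w * 2 ^ w := by rw [← pow_add]; congr 1; ring
      rw [h4]
      rcases Nat.eq_zero_or_pos w with rfl | hw0
      · norm_num
      · rcases Nat.eq_or_lt_of_le (Nat.succ_le_of_lt hw0) with h6 | h6
        · rw [← h6]
          norm_num
        · have h7 := Nat.mul_le_mul hw hw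
          have h8 : 3 * w ≤ (w + 1) * (w + 1) := by nlinarith
          exact h8.trans h7
    calc (5 ^ w).factorial ≤ (5 ^ w) ^ (5 ^ w) := Nat.factorial_le_pow _
      _ ≤ (2 ^ (3 * w)) ^ (5 ^ w) := Nat.pow_le_pow_left h5 _
      _ ≤ (2 ^ (3 * w)) ^ (2 ^ (3 * w)) := Nat.pow_le_pow_right (by positivity) h5
      _ = 2 ^ (3 * w * 2 ^ (3 * w)) := by rw [← pow_mul]
      _ ≤ 2 ^ (2 ^ (2 * w) * 2 ^ (3 * w)) :=
          Nat.pow_le_pow_right (by norm_num) (Nat.mul_le_mul_right _ h3)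
      _ = 2 ^ 2 ^ (5 * w) := by rw [← pow_add]; congr 2; ring
  have h2 : 1 + 4 * a ≤ 2 ^ (3 + c) := by
    have h4 : 2 ^ (3 + c) = 8 * 2 ^ c := by rw [pow_add]; norm_num
    have h5 : 1 ≤ 2 ^ c := Nat.one_le_two_pow
    rw [h4]
    omega
  have h3 : 1 + (1 + 4 * a) ^ (4 * w + 1) ≤ 2 ^ ((3 + c) * (4 * w + 1) + 1) := by
    have h4 : (1 + 4 * a) ^ (4 * w + 1) ≤ 2 ^ ((3 + c) * (4 * w + 1)) := by
      rw [pow_mul]
      exact Nat.pow_le_pow_left h2 _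
    have h5 : 1 ≤ 2 ^ ((3 + c) * (4 * w + 1)) := Nat.one_le_two_pow
    rw [pow_succ 2 ((3 + c) * (4 * w + 1))]
    omega
  have h4 : (1 + (1 + 4 * a) ^ (4 * w + 1)) ^ (5 ^ w) ≤
      2 ^ (((3 + c) * (4 * w + 1) + 1) * 2 ^ (3 * w)) := by
    calc _ ≤ (2 ^ ((3 + c) * (4 * w + 1) + 1)) ^ (5 ^ w) := Nat.pow_le_pow_left h3 _
      _ ≤ (2 ^ ((3 + c) * (4 * w + 1) + 1)) ^ (2 ^ (3 * w)) :=
          Nat.pow_le_pow_right (by positivity) h5
      _ = _ := by rw [← pow_mul]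
  calc Bd w a ≤ 2 ^ 2 ^ (5 * w) * 2 ^ (((3 + c) * (4 * w + 1) + 1) * 2 ^ (3 * w)) :=
        Nat.mul_le_mul h1 h4
    _ = 2 ^ (2 ^ (5 * w) + ((3 + c) * (4 * w + 1) + 1) * 2 ^ (3 * w)) := by rw [← pow_add]
    _ ≤ 2 ^ ((c + 1) * 2 ^ PE5 w) := by
        apply Nat.pow_le_pow_right (by norm_num)
        have e1 : (3 + c) * (4 * w + 1) + 1 ≤ (c + 1) * (16 * (w + 1)) := by nlinarith
        have e2 : 16 * (w + 1) ≤ 2 ^ (5 * w + 4) := by
          have h6 : 2 ^ (5 * w + 4) = 16 * 2 ^ (5 * w) := by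
            rw [pow_add]
            norm_num
            ring
          rw [h6]
          refine Nat.mul_le_mul_left _ (hw.trans ?_)
          exact Nat.pow_le_pow_right (by norm_num) (by omega)
        have e3 : ((3 + c) * (4 * w + 1) + 1) * 2 ^ (3 * w) ≤ (c + 1) * 2 ^ (8 * w + 4) := by
          calc _ ≤ ((c + 1) * 2 ^ (5 * w + 4)) * 2 ^ (3 * w) :=
                Nat.mul_le_mul_right _ (e1.trans (Nat.mul_le_mul_left _ e2))
            _ = (c + 1) * 2 ^ (8 * w + 4) := by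
                rw [mul_assoc, ← pow_add]
                congr 2
                ring
        have e4 : 2 ^ (5 * w) ≤ (c + 1) * 2 ^ (8 * w + 4) := by
          calc 2 ^ (5 * w) ≤ 2 ^ (8 * w + 4) := Nat.pow_le_pow_right (by norm_num) (by omega)
            _ ≤ (c + 1) * 2 ^ (8 * w + 4) := Nat.le_mul_of_pos_left _ (Nat.succ_pos c)
        have e5 : (c + 1) * 2 ^ PE5 w = 4 * ((c + 1) * 2 ^ (8 * w + 4)) := by
          have h6 : PE5 w = 8 * w + 4 + 2 := rfl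
          rw [h6, pow_add 2 (8 * w + 4) 2]
          ring
        rw [e5]
        omega

/-- the polynomial with its pinned variables (one more than in `hq`) -/
noncomputable def hq5 (W n : ℕ) (A B C D : ℕ → ℕ) (i0 i1 i2 i3 i4 i5 : Fin W)
    (p0 p1 p2 p3 p4 : ℤ) : MvPolynomial (Fin W) (Polynomial ℤ) :=
  hq W n A B C D i0 i1 i2 i3 i4 p0 p1 p2 p3 + (X i5 - MvPolynomial.C (Polynomial.C p4)) ^ 2

/-- from `eval_hq` -/
theorem eval_hq5 (W n : ℕ) (A B C D : ℕ → ℕ) (i0 i1 i2 i3 i4 i5 : Fin W) (p0 p1 p2 p3 p4 : ℤ)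
    (y : ℝ) (v : Fin W → ℝ) :
    (hq5 W n A B C D i0 i1 i2 i3 i4 i5 p0 p1 p2 p3 p4).eval₂
      (Polynomial.eval₂RingHom (Int.castRingHom ℝ) y) v =
      aeval v (hp W n A B C D) + (v i0 - y) ^ 2 + (v i1 - p0) ^ 2 + (v i2 - p1) ^ 2 +
        (v i3 - p2) ^ 2 + (v i4 - p3) ^ 2 + (v i5 - p4) ^ 2 := by
  unfold hq5
  rw [eval₂_add, eval_hq]
  simp only [eval₂_pow, eval₂_sub, eval₂_X, eval₂_C]
  simp

/-- from `degree_hq` -/
theorem degree_hq5 (W n : ℕ) (A B C D : ℕ → ℕ) (i0 i1 i2 i3 i4 i5 : Fin W)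
    (p0 p1 p2 p3 p4 : ℤ) :
    ∀ b ∈ (hq5 W n A B C D i0 i1 i2 i3 i4 i5 p0 p1 p2 p3 p4).support, b.degree ≤ 4 := by
  have h1 : (hq W n A B C D i0 i1 i2 i3 i4 p0 p1 p2 p3).totalDegree ≤ 4 := by
    rw [totalDegree, Finset.sup_le_iff]
    exact degree_hq W n A B C D i0 i1 i2 i3 i4 p0 p1 p2 p3
  have h2 : ((X i5 - MvPolynomial.C (Polynomial.C p4) :
      MvPolynomial (Fin W) (Polynomial ℤ)) ^ 2).totalDegree ≤ 4 := by
    refine (totalDegree_pow _ _).trans ?_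
    have h3 : (X i5 - MvPolynomial.C (Polynomial.C p4) :
        MvPolynomial (Fin W) (Polynomial ℤ)).totalDegree ≤ 1 := by
      refine (totalDegree_sub _ _).trans (max_le (totalDegree_X _).le ?_)
      rw [totalDegree_C]
      exact Nat.zero_le _
    omega
  intro b hb
  exact (le_totalDegree hb).trans ((totalDegree_add _ _).trans (max_le h1 h2))

/-- from `mn_hq` (`2 ^ (n + 2 * b + 7) + 4 * 2 ^ (2 * b) ≤ 2 ^ (n + 2 * b + 8)`) -/
theorem mn_hq5 (W n : ℕ) (A B C D : ℕ → ℕ) (i0 i1 i2 i3 i4 i5 : Fin W) (p0 p1 p2 p3 p4 b : ℕ)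
    (h0 : p0 ≤ 2 ^ b) (h1 : p1 ≤ 2 ^ b) (h2 : p2 ≤ 2 ^ b) (h3 : p3 ≤ 2 ^ b) (h4 : p4 ≤ 2 ^ b) :
    mn NY (hq5 W n A B C D i0 i1 i2 i3 i4 i5 p0 p1 p2 p3 p4) ≤ 2 ^ (n + 2 * b + 8) := by
  have hM := isNrm_NY.mn (σ := Fin W)
  have e1 : mn NY (X i5 - MvPolynomial.C (Polynomial.C (p4 : ℤ)) :
      MvPolynomial (Fin W) (Polynomial ℤ)) ≤ 1 + 2 ^ b := by
    refine (hM.sub _ _).trans (Nat.add_le_add (mn_X isNrm_NY _) ((mn_C isNrm_NY _).trans ?_))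
    exact (NY_C _).trans (by rw [Int.natAbs_natCast]; exact h4)
  have e2 : mn NY ((X i5 - MvPolynomial.C (Polynomial.C (p4 : ℤ)) :
      MvPolynomial (Fin W) (Polynomial ℤ)) ^ 2) ≤ 4 * 2 ^ (2 * b) := by
    have e3 : 1 ≤ 2 ^ b := Nat.one_le_two_pow
    rw [pow_two]
    refine (hM.mul _ _).trans ((Nat.mul_le_mul e1 e1).trans ?_)
    calc (1 + 2 ^ b) * (1 + 2 ^ b) ≤ (2 ^ b + 2 ^ b) * (2 ^ b + 2 ^ b) :=
          Nat.mul_le_mul (by omega) (by omega)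
      _ = 4 * 2 ^ (2 * b) := by
          rw [mul_comm 2 b, pow_mul]
          ring
  have e3 := mn_hq W n A B C D i0 i1 i2 i3 i4 p0 p1 p2 p3 b h0 h1 h2 h3
  unfold hq5
  refine (hM.add _ _).trans ((Nat.add_le_add e3 e2).trans ?_)
  have e4 : 4 * 2 ^ (2 * b) ≤ 2 ^ (n + 2 * b + 7) := by
    have e5 : 4 * 2 ^ (2 * b) = 2 ^ (2 * b + 2) := by rw [pow_add]; ring
    rw [e5]
    exact Nat.pow_le_pow_right (by norm_num) (by omega)
  have e5 : 2 ^ (n + 2 * b + 8) = 2 * 2 ^ (n + 2 * b + 7) := by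
    rw [show n + 2 * b + 8 = n + 2 * b + 7 + 1 from rfl, pow_succ]
    ring
  omega

end Pool.Agent.RElim.Par
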