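import Pool.Agent.FrEight.Par5A

/-! Existential real conditions with two real parameters and five pinned integer parameters, whose
size is independent of the size of the condition. -/

set_option autoImplicit false

namespace Pool.Agent.RElim.Par

open Finset MvPolynomial Pool.Agent.PT Pool.Agent.AllR

/-- The elimination for one system of flat constraints: the proof of `core` with a fifth pinned
variable `⟨14, _⟩` (the value of the parameter `α 6`), with `Bd_le5` (`c = n + 2 * b + 8`) instead of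
`Bd_le`: the exponent `2 ^ PE' …` is replaced by any `2 ^ P'` with
`(n + 2 * b + 9) * 2 ^ PE5 W ≤ 2 ^ P'`. -/
theorem core5 (W n b P' : ℕ) (V : ℕ → ℕ → ℕ) (hW : 15 ≤ W)
    (hP' : (n + 2 * b + 9) * 2 ^ PE5 W ≤ 2 ^ P')
    (hle : ∀ c, c < n → ∀ j, j < 4 → V j c < W)
    (R : ℝ → ℝ → ℝ → ℝ → ℝ → ℝ → ℝ → Prop)
    (hS : ∀ α : ℕ → ℝ, R (α 0) (α 1) (α 2) (α 3) (α 4) (α 5) (α 6) ↔
      ∃ β : ℕ → ℝ, ∀ c, c < n → Ct (fun j => val α β (V j c)))
    (p0 p1 p2 p3 p4 : ℕ) (hp0 : p0 ≤ 2 ^ b) (hp1 : p1 ≤ 2 ^ b) (hp2 : p2 ≤ 2 ^ b)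
    (hp3 : p3 ≤ 2 ^ b) (hp4 : p4 ≤ 2 ^ b) :
    ∃ q : Polynomial ℤ, q ≠ 0 ∧ q.natDegree ≤ 2 ^ P' ∧ (∀ i, |q.coeff i| ≤ 2 ^ 2 ^ P') ∧
        ∀ y : ℝ, |y| ≤ 2 → (∃ X : ℝ, ∀ t, R t y p0 p1 p2 p3 p4 → t ≤ X) →
          ∀ t, R t y p0 p1 p2 p3 p4 → |Polynomial.aeval y q| * t ≤ 2 ^ 2 ^ P' := by
  classical
  have h2 : 2 < W := by omega
  have h4 : 4 < W := by omega
  have h6 : 6 < W := by omega
  have h8 : 8 < W := by omega
  have h10 : 10 < W := by omega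
  have h12 : 12 < W := by omega
  have h14 : 14 < W := by omega
  obtain ⟨h, hh⟩ : ∃ h, h = hq5 W n (V 0) (V 1) (V 2) (V 3) ⟨4, h4⟩ ⟨6, h6⟩ ⟨8, h8⟩ ⟨10, h10⟩
    ⟨12, h12⟩ ⟨14, h14⟩ p0 p1 p2 p3 p4 := ⟨_, rfl⟩
  have hmn : mn NY h ≤ 2 ^ (n + 2 * b + 8) := by
    rw [hh]
    exact mn_hq5 _ _ _ _ _ _ _ _ _ _ _ _ _ _ _ _ _ _ hp0 hp1 hp2 hp3 hp4
  have hBd : Bd (Fintype.card (Fin W)) (mn NY h) ≤ 2 ^ 2 ^ P' := by
    rw [Fintype.card_fin]
    refine (Bd_le5 _ _ _ hmn).trans (Nat.pow_le_pow_right (by norm_num) (le_trans (le_of_eq ?_) hP'))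
    congr 1
  have hBd' : ((Bd (Fintype.card (Fin W)) (mn NY h) : ℕ) : ℝ) ≤
      2 ^ 2 ^ P' := by exact_mod_cast hBd
  have hdegh : ∀ b ∈ h.support, b.degree ≤ 4 := by
    rw [hh]
    exact degree_hq5 _ _ _ _ _ _ _ _ _ _ _ _ _ _ _ _ _
  obtain ⟨q, hq0, hqN, hqb⟩ := param_bound isNrm_NY h hdegh ⟨2, h2⟩
  have hval : ∀ (γ : ℕ → ℝ), γ 0 = 0 → γ 1 = 1 → ∀ v,
      AllR.val (fun k => γ (2 * k + 2)) (fun k => γ (2 * k + 3)) v = γ v := by
    intro γ h0 h1 v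
    unfold AllR.val
    split_ifs with g0 g1 g2
    · rw [g0, h0]
    · rw [g1, h1]
    · show γ (2 * ((v - 2) / 2) + 2) = γ v
      congr 1; omega
    · show γ (2 * ((v - 2) / 2) + 3) = γ v
      congr 1; omega
  refine ⟨q, hq0, ?_, ?_, ?_⟩
  · have h1 : 2 ^ q.natDegree ≤ 2 ^ 2 ^ P' :=
      (two_pow_natDegree_le_NY q hq0).trans (hqN.trans hBd)
    exact (Nat.pow_le_pow_iff_right (by norm_num)).mp h1
  · intro i
    have h1 : (q.coeff i).natAbs ≤ 2 ^ 2 ^ P' :=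
      (natAbs_coeff_le_NY q i).trans (hqN.trans hBd)
    rw [Int.abs_eq_natAbs]
    exact_mod_cast h1
  · rintro y hy ⟨Xb, hXb⟩ t ht
    obtain ⟨e, he⟩ : ∃ e, e = Polynomial.eval₂RingHom (Int.castRingHom ℝ) y := ⟨_, rfl⟩
    have hev : ∀ v : Fin W → ℝ, h.eval₂ e v = aeval v (hp W n (V 0) (V 1) (V 2) (V 3)) +
        (v ⟨4, h4⟩ - y) ^ 2 + (v ⟨6, h6⟩ - p0) ^ 2 + (v ⟨8, h8⟩ - p1) ^ 2 +
        (v ⟨10, h10⟩ - p2) ^ 2 + (v ⟨12, h12⟩ - p3) ^ 2 + (v ⟨14, h14⟩ - p4) ^ 2 := by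
      intro v
      rw [hh, he, eval_hq5]
      simp only [Int.cast_natCast]
    have hnn' : ∀ v : Fin W → ℝ, 0 ≤ h.eval₂ e v := by
      intro v
      rw [hev]
      have := hp_nonneg W n (V 0) (V 1) (V 2) (V 3) v
      positivity
    have hz : ∀ v : Fin W → ℝ, h.eval₂ e v = 0 →
        aeval v (hp W n (V 0) (V 1) (V 2) (V 3)) = 0 ∧ v ⟨4, h4⟩ = y ∧
        v ⟨6, h6⟩ = p0 ∧ v ⟨8, h8⟩ = p1 ∧ v ⟨10, h10⟩ = p2 ∧ v ⟨12, h12⟩ = p3 ∧
        v ⟨14, h14⟩ = p4 := by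
      intro v hv
      rw [hev] at hv
      have g0 := hp_nonneg W n (V 0) (V 1) (V 2) (V 3) v
      have g1 := sq_nonneg (v ⟨4, h4⟩ - y)
      have g2 := sq_nonneg (v ⟨6, h6⟩ - p0)
      have g3 := sq_nonneg (v ⟨8, h8⟩ - p1)
      have g4 := sq_nonneg (v ⟨10, h10⟩ - p2)
      have g5 := sq_nonneg (v ⟨12, h12⟩ - p3)
      have g6 := sq_nonneg (v ⟨14, h14⟩ - p4)
      refine ⟨by linarith, ?_, ?_, ?_, ?_, ?_, ?_⟩
      · have : (v ⟨4, h4⟩ - y) ^ 2 = 0 := by linarith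
        exact sub_eq_zero.mp (pow_eq_zero_iff two_ne_zero |>.mp this)
      · have : (v ⟨6, h6⟩ - p0) ^ 2 = 0 := by linarith
        exact sub_eq_zero.mp (pow_eq_zero_iff two_ne_zero |>.mp this)
      · have : (v ⟨8, h8⟩ - p1) ^ 2 = 0 := by linarith
        exact sub_eq_zero.mp (pow_eq_zero_iff two_ne_zero |>.mp this)
      · have : (v ⟨10, h10⟩ - p2) ^ 2 = 0 := by linarith
        exact sub_eq_zero.mp (pow_eq_zero_iff two_ne_zero |>.mp this)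
      · have : (v ⟨12, h12⟩ - p3) ^ 2 = 0 := by linarith
        exact sub_eq_zero.mp (pow_eq_zero_iff two_ne_zero |>.mp this)
      · have : (v ⟨14, h14⟩ - p4) ^ 2 = 0 := by linarith
        exact sub_eq_zero.mp (pow_eq_zero_iff two_ne_zero |>.mp this)
    -- zeros give solutions
    have hto : ∀ v : Fin W → ℝ, h.eval₂ e v = 0 → R (v ⟨2, h2⟩) y p0 p1 p2 p3 p4 := by
      intro v hv
      obtain ⟨k0, k1, k2, k3, k4, k5, k6⟩ := hz v hv
      rw [hp_zero_iff] at k0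
      have g1 := (hS (fun k => gv W v (2 * k + 2))).mpr
        ⟨fun k => gv W v (2 * k + 3), fun c hc => by
          have g3 := k0 c hc
          simp only [Ct, hval (gv W v) rfl rfl]
          exact g3⟩
      have e0 : gv W v (2 * 0 + 2) = v ⟨2, h2⟩ := by simp [gv, h2]
      have e1 : gv W v (2 * 1 + 2) = v ⟨4, h4⟩ := by simp [gv, h4]
      have e2 : gv W v (2 * 2 + 2) = v ⟨6, h6⟩ := by simp [gv, h6]
      have e3 : gv W v (2 * 3 + 2) = v ⟨8, h8⟩ := by simp [gv, h8]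
      have e4 : gv W v (2 * 4 + 2) = v ⟨10, h10⟩ := by simp [gv, h10]
      have e5 : gv W v (2 * 5 + 2) = v ⟨12, h12⟩ := by simp [gv, h12]
      have e6 : gv W v (2 * 6 + 2) = v ⟨14, h14⟩ := by simp [gv, h14]
      rw [e0, e1, e2, e3, e4, e5, e6, k1, k2, k3, k4, k5, k6] at g1
      exact g1
    -- the given solution is a zero
    obtain ⟨α0, hα0⟩ : ∃ α0 : ℕ → ℝ, α0 = fun k => if k = 0 then t else if k = 1 then y else
      if k = 2 then (p0 : ℝ) else if k = 3 then (p1 : ℝ) else if k = 4 then (p2 : ℝ) else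
        if k = 5 then (p3 : ℝ) else if k = 6 then (p4 : ℝ) else 0 := ⟨_, rfl⟩
    obtain ⟨β, hβ⟩ := (hS α0).mp (by
      rw [hα0]
      simpa using ht)
    obtain ⟨v0, hv0⟩ : ∃ v0 : Fin W → ℝ, v0 = fun i : Fin W => AllR.val α0 β (i : ℕ) := ⟨_, rfl⟩
    have hv0z : h.eval₂ e v0 = 0 := by
      rw [hev]
      have k0 : aeval v0 (hp W n (V 0) (V 1) (V 2) (V 3)) = 0 := by
        rw [hp_zero_iff]
        intro c hc
        have g3 := hβ c hc
        simp only [Ct] at g3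
        have hg : ∀ u, u < W → gv W v0 u = AllR.val α0 β u := by
          intro u hu
          unfold gv
          rw [hv0]
          split_ifs with e0 e1
          · rw [e0]; rfl
          · rw [e1]; rfl
          · rfl
        rw [hg _ (hle c hc 0 (by norm_num)), hg _ (hle c hc 1 (by norm_num)),
          hg _ (hle c hc 2 (by norm_num)), hg _ (hle c hc 3 (by norm_num))]
        exact g3
      have k1 : v0 ⟨4, h4⟩ = y := by rw [hv0, hα0]; simp [AllR.val]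
      have k2 : v0 ⟨6, h6⟩ = p0 := by rw [hv0, hα0]; simp [AllR.val]
      have k3 : v0 ⟨8, h8⟩ = p1 := by rw [hv0, hα0]; simp [AllR.val]
      have k4 : v0 ⟨10, h10⟩ = p2 := by rw [hv0, hα0]; simp [AllR.val]
      have k5 : v0 ⟨12, h12⟩ = p3 := by rw [hv0, hα0]; simp [AllR.val]
      have k6 : v0 ⟨14, h14⟩ = p4 := by rw [hv0, hα0]; simp [AllR.val]
      rw [k0, k1, k2, k3, k4, k5, k6]
      simp
    have hvt : v0 ⟨2, h2⟩ = t := by rw [hv0, hα0]; simp [AllR.val]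
    have hfin := hqb e (fun a => by rw [he]; exact abs_eval_le_NY y hy a) hnn' Xb
      (fun v hv => hXb _ (hto v hv)) v0 hv0z
    rw [hvt] at hfin
    have heq : e q = Polynomial.aeval y q := by
      rw [he, Polynomial.coe_eval₂RingHom, Polynomial.aeval_def]
      rfl
    rw [heq] at hfin
    exact hfin.trans hBd'

end Pool.Agent.RElim.Par
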