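import Pool.Agent.MX.Fld
import Pool.Agent.MX.CoefR
import Pool.Agent.MX.Margin
import Pool.Agent.FrEight.FieldA

/-! The polynomials of a circle: integrality. -/

set_option autoImplicit false

namespace Pool.Agent.FrUP

open Finset Complex
open Pool.Agent.DD7719 Pool.Agent.DD7719.M Pool.Agent.DD7719.M.GS Pool.Agent.MX

section
variable (k L : ℕ) (hkL : k ≤ L) (num numu : ℕ → ℤ) (den denu : ℕ → ℕ)
    (hden0 : ∀ t, t < k → 0 < den t) (hdenu0 : ∀ t, t < k → 0 < denu t)
    (hnum : ∀ t, t < k → (num t).natAbs ≤ 2 ^ L) (hden : ∀ t, t < k → den t ≤ 2 ^ L)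
    (hnumu : ∀ t, t < k → (numu t).natAbs ≤ 2 ^ L) (hdenu : ∀ t, t < k → denu t ≤ 2 ^ L)
    (a u : ℕ → ℝ) (ha : ∀ t, t < k → a t = (num t : ℝ) / (den t : ℝ))
    (hu : ∀ t, t < k → u t = (numu t : ℝ) / (denu t : ℝ))
    (l c : ℕ → ℂ) (ex : ℕ → ℕ) (hrd : RootData k a u l c ex)

include hkL hden0 hdenu0 hnum hden hnumu hdenu ha hu hrd in
/-- **Integrality of the coefficients of a circle.** `D0` of `coef_bound` makes the `c i` integral;
`A0 = ∏ t < k, den t ≤ 2 ^ (L * k)` makes every root integral (`A0 * z` is a root of a monic integer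
polynomial; see the proof of `coef_bound`), so `A0 ^ k * z ^ (k - ex i)` is integral; `k !` makes the
coefficients of `bcP (ex i)`, `ex i < k`, integers (`bcP_coeff`, `(ex i)! ∣ k !`). So
`D1 = D0 * A0 ^ k * k !` works, `D1 ≤ 2 ^ (pcf L + L * k * k + k * k) ≤ 2 ^ pcx L`. -/
theorem pc_integral : ∃ D1 : ℕ, 0 < D1 ∧ D1 ≤ 2 ^ pcx L ∧ ∀ i : Fin k, ∀ e : ℕ,
    IsIntegral ℤ ((D1 : ℂ) * pc (fun i : Fin k => l i) (fun i => c i) (fun i => ex i) (l i) e) := by
  classical
  -- the roots
  have hrt : ∀ i : Fin k, (l i) ^ k =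
      ∑ t ∈ Finset.range k, ((num t : ℂ) / (den t : ℂ)) * (l i) ^ (k - 1 - t) := by
    intro i
    have h0 := hrd.2.2.1 i i.2 0 (Nat.zero_le _)
    simp only [Nat.choose_zero_right, Nat.cast_one, one_mul, mul_one, Nat.sub_zero] at h0
    rw [h0]
    apply Finset.sum_congr rfl
    intro t ht
    rw [ha t (Finset.mem_range.mp ht)]
    push_cast
    rfl
  obtain ⟨A0, hA0⟩ : ∃ A0 : ℕ, A0 = ∏ s ∈ Finset.range k, den s := ⟨_, rfl⟩
  have hA0pos : 0 < A0 := by
    rw [hA0]
    exact Finset.prod_pos fun s hs => hden0 s (Finset.mem_range.mp hs)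
  have hA0le : A0 ≤ 2 ^ (L * k) := by
    have := prod_den_le (range k) den L (fun i hi => hden i (Finset.mem_range.mp hi))
    rw [hA0]
    rwa [Finset.card_range] at this
  -- integrality of the roots
  have hint : ∀ i : Fin k, IsIntegral ℤ ((A0 : ℂ) * l i) := by
    intro i
    have h1 := isIntegral_leadingCoeff_smul _ _ (ipoly_aeval k num den hden0 (l i) (hrt i))
    have hlc : (ipoly k num den).leadingCoeff = (A0 : ℤ) := by
      have hck : (ipoly k num den).coeff k = (A0 : ℤ) := by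
        rw [ipoly_coeff, if_pos rfl, hA0]
        push_cast
        rfl
      have hnd : (ipoly k num den).natDegree = k := by
        apply le_antisymm (ipoly_natDegree k num den)
        apply Polynomial.le_natDegree_of_ne_zero
        rw [hck]
        exact_mod_cast hA0pos.ne'
      rw [Polynomial.leadingCoeff, hnd, hck]
    rw [hlc, zsmul_eq_mul] at h1
    exact_mod_cast h1
  obtain ⟨-, D0, hD0, hD0le, hD0i⟩ := coef_bound k L hkL num numu den denu hden0 hdenu0 hnum hden
    hnumu hdenu a u ha hu l c ex hrd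
  refine ⟨D0 * A0 ^ k * k.factorial, by positivity, ?_, fun i e => ?_⟩
  · have h1 : A0 ^ k ≤ 2 ^ (L * k * k) := by
      calc A0 ^ k ≤ (2 ^ (L * k)) ^ k := Nat.pow_le_pow_left hA0le k
        _ = 2 ^ (L * k * k) := by rw [← pow_mul]
    have h2 : k.factorial ≤ 2 ^ (k * k) := by
      calc k.factorial ≤ k ^ k := Nat.factorial_le_pow k
        _ ≤ (2 ^ k) ^ k := Nat.pow_le_pow_left Nat.lt_two_pow_self.le k
        _ = 2 ^ (k * k) := by rw [← pow_mul]
    calc D0 * A0 ^ k * k.factorial ≤ 2 ^ pcf L * 2 ^ (L * k * k) * 2 ^ (k * k) :=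
          Nat.mul_le_mul (Nat.mul_le_mul hD0le h1) h2
      _ = 2 ^ (pcf L + L * k * k + k * k) := by rw [← pow_add, ← pow_add]
      _ ≤ 2 ^ pcx L := by
          refine Nat.pow_le_pow_right (by norm_num) ?_
          unfold pcx
          have h3 : L * k * k ≤ L * L * L := by gcongr
          have h4 : k * k ≤ L * L := by gcongr
          have h5 : (L + 1) ^ 3 ≤ (L + 1) ^ 4 := Nat.pow_le_pow_right (by omega) (by norm_num)
          nlinarith [h3, h4, h5]
  · unfold pc
    rw [Finset.mul_sum]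
    apply IsIntegral.sum
    intro i' hi'
    have hex : ex i' < k := hrd.1 i' i'.2
    obtain ⟨q, hq, -⟩ := bcP_coeff (ex i') e
    obtain ⟨m, hm⟩ := Nat.factorial_dvd_factorial hex.le
    have hf : ((ex i').factorial : ℂ) ≠ 0 := by exact_mod_cast (Nat.factorial_pos _).ne'
    have hpw : (A0 : ℂ) ^ k * (l i) ^ (k - ex i') =
        (A0 : ℂ) ^ (ex i') * ((A0 : ℂ) * l i) ^ (k - ex i') := by
      have h1 : (A0 : ℂ) ^ k = (A0 : ℂ) ^ (ex i') * (A0 : ℂ) ^ (k - ex i') := by
        rw [← pow_add]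
        congr 1
        omega
      rw [h1, mul_pow]
      ring
    have hkf : (k.factorial : ℂ) * ((q : ℂ) / ((ex i').factorial : ℂ)) = (m : ℂ) * (q : ℂ) := by
      rw [hm]
      push_cast
      field_simp
    have e1 : ((D0 * A0 ^ k * k.factorial : ℕ) : ℂ) *
        (c i' * (l i) ^ (k - ex i') * (bcP (ex i')).coeff e) =
        (((A0 ^ (ex i') * m : ℕ) : ℤ) * q : ℤ) * (((D0 : ℂ) * c i') *
          ((A0 : ℂ) * l i) ^ (k - ex i')) := by
      calc ((D0 * A0 ^ k * k.factorial : ℕ) : ℂ) *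
          (c i' * (l i) ^ (k - ex i') * (bcP (ex i')).coeff e)
          = ((D0 : ℂ) * c i') * ((A0 : ℂ) ^ k * (l i) ^ (k - ex i')) *
            ((k.factorial : ℂ) * (bcP (ex i')).coeff e) := by
            push_cast
            ring
        _ = _ := by
            rw [hpw, hq, hkf]
            push_cast
            ring
    rw [e1]
    exact (isIntegral_algebraMap (R := ℤ) (A := ℂ)).mul ((hD0i i' i'.2).mul ((hint i).pow _))

end

end Pool.Agent.FrUP
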