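import Pool.Agent.FrEight.Low
import Pool.Agent.FrEight.Arith
import Pool.Agent.FrEight.ClassPos

/-! Positivity beyond the threshold for frozen positive instances with at most eight roots on each
circle. -/

set_option autoImplicit false
set_option linter.unusedSectionVars false

namespace Pool.Agent.UltPos

open Pool.Agent.PT Pool.Agent.AllR Pool.Agent.DD7719.M Pool.Agent.DD7719 Finset Pool.Agent.FrUP

section
variable (I : Inst) (L : ℕ) (hkL : I.k ≤ L)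
    (hb : ∀ i, (I.aNum i).natAbs ≤ 2 ^ L ∧ I.aDen i ≤ 2 ^ L)
    (hbu : ∀ i, (I.uNum i).natAbs ≤ 2 ^ L ∧ I.uDen i ≤ 2 ^ L) (aR uR : ℕ → ℝ)
    (ha : ∀ t (h : t < I.k), aR t = (I.a ⟨t, h⟩ : ℝ)) (hu : ∀ t (h : t < I.k), uR t = (I.u ⟨t, h⟩ : ℝ))
    (v : ℕ → ℚ) (hv : I.IsSeq v)

include hkL hb hbu ha hu hv in
/-- **Explicit threshold.** -/
theorem Inst.pos_of_frozen (C : ℕ) (hC : GapC C) (E : ℕ) (hE : Thr8 E) (P : ℕ)
    (hfr : I.FrozenPositive) (h8 : I.EightPerCircle)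
    (hP : ∀ b P' : ℕ, (b + 1) * 2 ^ P ≤ 2 ^ P' → ∀ p0 p1 p2 p3 p4 : ℕ, p0 ≤ 2 ^ b →
      p1 ≤ 2 ^ b → p2 ≤ 2 ^ b → p3 ≤ 2 ^ b → p4 ≤ 2 ^ b →
      ElimP P' (fun t y => I.RRX L aR uR (v7 t y p0 p1 p2 p3 p4))) (n : ℕ)
    (hn : 2 ^ pthX C E L P ≤ n) : 0 < v n := by
  classical
  obtain ⟨b, P', hb1, hb2, hb3, hn2, hn3, hn4⟩ := arithX C E L P n hn
  have hn4' : (2 : ℝ) ^ ((2 + L) ^ E) < ((n : ℕ) : ℝ) := by exact_mod_cast hn4
  obtain ⟨l, c, ex, hrd, hsort⟩ := exists_sorted (I.exists_rootData' aR uR ha hu)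
  obtain ⟨n0, hn0, hn0Nb, htor, hcls⟩ :=
    I.exists_clsX L hkL hb hbu aR uR ha hu v hv E hE hfr h8 hrd (n : ℝ) hn4'
  -- the class of `n`
  have hpbn : 2 ^ (1 + 2 * L * L + (pdl L + 3) * L) + 2 ^ (1 + 2 * L * L + (pdl L + 3) * L) =
      2 ^ pbn L := by
    rw [pbn, pow_succ]
    ring
  have hk1 : I.k ≤ 2 ^ (1 + 2 * L * L + (pdl L + 3) * L) := by
    refine hkL.trans (Nat.lt_two_pow_self.le.trans (Nat.pow_le_pow_right (by norm_num) ?_))
    have : L ≤ (pdl L + 3) * L := Nat.le_mul_of_pos_left _ (by omega)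
    omega
  have hkn : I.k ≤ n := by
    refine hkL.trans (Nat.lt_two_pow_self.le.trans (le_trans ?_ hn3))
    apply Nat.pow_le_pow_right (by norm_num)
    unfold pth2
    omega
  obtain ⟨j, m, hj, hj', hjm⟩ : ∃ j m, I.k ≤ j ∧ j < I.k + n0 ∧ n = j + n0 * m := by
    refine ⟨I.k + (n - I.k) % n0, (n - I.k) / n0, Nat.le_add_right _ _,
      Nat.add_lt_add_left (Nat.mod_lt _ hn0) _, ?_⟩
    have := Nat.mod_add_div (n - I.k) n0
    omega
  obtain ⟨A, H, D, s, w, τ, y, i0, hrep, hbase, hi0, hgP, ⟨z', hz', hne⟩, hF, hcase⟩ :=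
    hcls j hj hj'
  have hjN : j ≤ 2 ^ pbn L := by omega
  have hρ : 0 < ‖l i0‖ := norm_pos_iff.mpr hi0
  have hexj : ∀ i : Fin I.k, ex i ≤ j := fun i => ((hrd.1 i i.2).le.trans hj)
  have hsmall : ∀ q : ℕ, q ≤ 2 ^ pbn L → q ≤ 2 ^ b := fun q hq =>
    hq.trans (Nat.pow_le_pow_right (by norm_num) (by omega))
  have hsmall2 : ∀ q : Fin I.k, (q : ℕ) ≤ 2 ^ b := fun q =>
    (q.2.le.trans hkL).trans (Nat.lt_two_pow_self.le.trans
      (Nat.pow_le_pow_right (by norm_num) (by omega)))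
  have hgt := gap_threshold C L P' (pcf L + L) n j hn2 hjN
  have hnj : n - j = n0 * m := by omega
  rw [hnj] at hgt
  have hexp1 : Real.exp (-((n0 * m : ℕ) : ℝ) / ((2 ^ (pg L + 1) : ℕ) : ℝ)) ≤ 1 := by
    rw [Real.exp_le_one_iff]
    apply div_nonpos_of_nonpos_of_nonneg
    · have : (0 : ℝ) ≤ ((n0 * m : ℕ) : ℝ) := Nat.cast_nonneg _
      linarith
    · exact Nat.cast_nonneg _
  have hexp0 : 0 < Real.exp (-((n0 * m : ℕ) : ℝ) / ((2 ^ (pg L + 1) : ℕ) : ℝ)) := Real.exp_pos _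
  -- the lower bound
  have hlow : Real.exp (-((n0 * m : ℕ) : ℝ) / ((2 ^ (pg L + 1) : ℕ) : ℝ)) /
      2 ^ 2 ^ (2 * P' + 2) ≤ (LevF (fun i : Fin I.k => l i)
        (fc (fun i : Fin I.k => l i) (fun i => c i) (fun i => ex i) (n : ℝ)) (fun _ => 0)
        A s j 0 ‖l i0‖ (orb y m)).re := by
    rcases hcase with hpos | ⟨i, i', hii, hpne, hfin⟩
    · have h1 := I.level_lower_pos L hkL hb hbu aR uR ha hu v hv E hE P' hfr h8 hrd hsort (n : ℝ)
        hn4' n0 j hn0 hj A H D s w τ y i0 hrep hbase hi0 hgP hpos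
        (hP b P' hb1 0 0 n0 j n (Nat.zero_le _) (Nat.zero_le _) (hsmall n0 (by omega))
          (hsmall j hjN) hb2) (orb y m) (norm_orb y m)
      refine le_trans ?_ h1
      rw [div_le_div_iff_of_pos_right (by positivity)]
      exact hexp1
    · have h1 := I.level_lowerX L hkL hb hbu aR uR ha hu v hv C hC E hE P' hfr h8 hrd hsort (n : ℝ)
        hn4' n0 j hn0 hj A H D s w τ y i0 hrep hbase hi0 hgP z' hz' hne hF i i' hii hpne
        (htor i i' hii hpne) hfin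
        (hP b P' hb1 i i' n0 j n (hsmall2 i) (hsmall2 i') (hsmall n0 (by omega))
          (hsmall j hjN) hb2) m hgt
      refine le_trans ?_ h1
      rw [div_div, ← pow_add]
      apply div_le_div_of_nonneg_left hexp0.le (by positivity)
      apply pow_le_pow_right₀ (by norm_num)
      have e1 : 2 ^ P' + 2 ^ P' = 2 ^ (P' + 1) := by rw [pow_succ]; ring
      rw [e1]
      exact Nat.pow_le_pow_right (by norm_num) (by omega)
  have hCc := I.sum_coef_le L hkL hb hbu aR uR ha hu hrd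
  have hfinal := class_posX (k := I.k) (fun i => l i) (fun i => c i) (fun i => ex i)
    (fun i => hrd.1 i i.2) n0 j hn0 hj (fun n => ((v n : ℚ) : ℝ)) (I.all' aR uR ha hu v hv hrd)
    ‖l i0‖ hρ hgP
    (Real.exp (-((n0 * m : ℕ) : ℝ) / ((2 ^ (pg L + 1) : ℕ) : ℝ)) / 2 ^ 2 ^ (2 * P' + 2))
    (1 / 2 ^ pg L) (2 ^ (2 * L)) (by
      rw [div_le_one (by positivity)]
      exact one_le_pow₀ (by norm_num)) (one_le_pow₀ (by norm_num))
    (fun i => root_norm_le I.k I.num I.den L hkL I.den_pos' (I.num_le' L hb) (l i)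
      (I.root_eq' aR uR ha hrd i))
    (fun i hi => gap_of_roots I.k I.num I.den L hkL I.den_pos' (I.num_le' L hb) (I.den_le' L hb)
      (l i) (l i0) (I.root_eq' aR uR ha hrd i) (I.root_eq' aR uR ha hrd i0) hi) m
    (by
      rw [← hjm, ← levelSum_frz (fun i : Fin I.k => l i) (fun i => c i) (fun i => ex i) n0 j hexj
        ‖l i0‖ hρ (n : ℝ) m, levelSum_eq (fun i : Fin I.k => l i) _ (fun _ => 0) n0 j 0
        ‖l i0‖ s A y hrep.1 hrep.2 m]
      exact hlow) (by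
      have h1 := threshold_ineq2 I.k L (2 * P' + 2) (pcf L + L) n j hkL hn3 hjN _ hCc
      have h2 := decay_le (pg L) (n0 * m)
      rw [hnj] at h1
      rw [← hjm]
      have h4 : (0 : ℝ) ≤ (∑ i : Fin I.k, ‖c i‖) * (n : ℝ) ^ I.k * ((2 : ℝ) ^ (2 * L)) ^ j := by
        positivity
      calc (∑ i : Fin I.k, ‖c i‖) * (n : ℝ) ^ I.k * ((2 : ℝ) ^ (2 * L)) ^ j *
            (1 - 1 / 2 ^ pg L) ^ (n0 * m)
          ≤ (∑ i : Fin I.k, ‖c i‖) * (n : ℝ) ^ I.k * ((2 : ℝ) ^ (2 * L)) ^ j *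
            (Real.exp (-((n0 * m : ℕ) : ℝ) / 2 ^ (pg L + 1)) *
              Real.exp (-((n0 * m : ℕ) : ℝ) / ((2 ^ (pg L + 1) : ℕ) : ℝ))) :=
            mul_le_mul_of_nonneg_left h2 h4
        _ = ((∑ i : Fin I.k, ‖c i‖) * (n : ℝ) ^ I.k * ((2 : ℝ) ^ (2 * L)) ^ j *
            Real.exp (-((n0 * m : ℕ) : ℝ) / 2 ^ (pg L + 1))) *
              Real.exp (-((n0 * m : ℕ) : ℝ) / ((2 ^ (pg L + 1) : ℕ) : ℝ)) := by ring
        _ < 1 / 2 ^ 2 ^ (2 * P' + 2) *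
              Real.exp (-((n0 * m : ℕ) : ℝ) / ((2 ^ (pg L + 1) : ℕ) : ℝ)) :=
            mul_lt_mul_of_pos_right h1 hexp0
        _ = _ := by ring)
  rw [← hjm] at hfinal
  exact_mod_cast hfinal

end

end Pool.Agent.UltPos
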